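import Pool.Agent.helper80.Sched.Feas

/-!
# The decomposition lemma
-/

namespace Pool.Agent.helper80.Sched

open Finset

lemma sum_two {S : Finset ℕ} {j k : ℕ} (hj : j ∈ S) (hk : k ∈ S) (hjk : j ≠ k) (f : ℕ → ℕ) :
    ∑ i ∈ S, f i = f k + (f j + ∑ i ∈ (S.erase k).erase j, f i) := by
  rw [add_sum_erase (S.erase k) f (mem_erase.mpr ⟨hjk, hj⟩), add_sum_erase S f hk]

lemma bijOn_swap {S : Finset ℕ} {j k : ℕ} (hj : j ∈ S) (hk : k ∈ S) {σ : ℕ → ℕ} {a b : ℕ}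
    (h : Set.BijOn σ (S : Set ℕ) (Set.Ioo a b)) :
    Set.BijOn (fun i => σ (Equiv.swap j k i)) (S : Set ℕ) (Set.Ioo a b) := by
  have h1 : Set.BijOn (Equiv.swap j k) (S : Set ℕ) (S : Set ℕ) := by
    have hm : Set.MapsTo (Equiv.swap j k) (S : Set ℕ) (S : Set ℕ) := by
      intro i hi
      rcases eq_or_ne i j with rfl | h1
      · rw [Equiv.swap_apply_left]; exact hk
      · rcases eq_or_ne i k with rfl | h2
        · rw [Equiv.swap_apply_right]; exact hj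
        · rw [Equiv.swap_apply_of_ne_of_ne h1 h2]; exact hi
    refine ⟨hm, (Equiv.swap j k).injective.injOn, ?_⟩
    intro i hi
    exact ⟨Equiv.swap j k i, hm hi, by simp⟩
  exact h.comp h1

lemma swap_ineq (vj vk τ β δj δk : ℕ) (hv : vk < vj) (h1 : δj ≤ τ) (h2 : τ ≤ β) :
    vj * (τ - δj) + vk * (β - δk) + (β - τ) ≤ vj * (β - δj) + vk * (τ - δk) := by
  have e1 : β - δj = (τ - δj) + (β - τ) := by omega
  have e2 : β - δk ≤ (τ - δk) + (β - τ) := by omega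
  have e3 := Nat.mul_le_mul_left vk e2
  have e4 : (vk + 1) * (β - τ) ≤ vj * (β - τ) := Nat.mul_le_mul_right _ hv
  rw [e1, Nat.mul_add]
  rw [Nat.mul_add] at e3
  rw [Nat.add_mul, Nat.one_mul] at e4
  omega

/-- Decomposition with a strictly lightest job `k`. -/
theorem decomp_strict (S : Finset ℕ) (v δ D : ℕ → ℕ) (a b k : ℕ) (hk : k ∈ S)
    (hv : ∀ j ∈ S, j ≠ k → v k < v j)
    (hD : ∀ s t, a < s → s ≤ t → t < b → D s ≤ D t)
    (hne : ∃ σ : ℕ → ℕ, Set.BijOn σ (S : Set ℕ) (Set.Ioo a b)) :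
    ∃ σ : ℕ → ℕ, Set.BijOn σ (S : Set ℕ) (Set.Ioo a b) ∧
      (∀ σ' : ℕ → ℕ, Set.BijOn σ' (S : Set ℕ) (Set.Ioo a b) →
        ∑ j ∈ S, v j * (D (σ j) - δ j) ≤ ∑ j ∈ S, v j * (D (σ' j) - δ j)) ∧
      ∀ j ∈ S, j ≠ k → (δ j ≤ D (σ k) → σ j < σ k) ∧ (D (σ k) < δ j → σ k < σ j) := by
  classical
  set c : (ℕ → ℕ) → ℕ := fun σ => ∑ j ∈ S, v j * (D (σ j) - δ j) with hc
  set ψ : (ℕ → ℕ) → ℕ := fun σ => ∑ j ∈ S, σ j *
    (if j = k then 1 else if δ j ≤ D (σ k) then 2 else 0) with hψ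
  set f : (ℕ → ℕ) → ℕ ×ₗ (ℕ ×ₗ ℕ) := fun σ => toLex (c σ, toLex (D (σ k), ψ σ)) with hf
  set T : Set (ℕ → ℕ) := {σ | Set.BijOn σ (S : Set ℕ) (Set.Ioo a b)} with hT
  obtain ⟨σ, hσT, hσ⟩ : ∃ σ ∈ T, ∀ σ' ∈ T, f σ ≤ f σ' := by
    refine ⟨Function.argminOn f T hne, Function.argminOn_mem f T hne, ?_⟩
    intro σ' h
    exact Function.argminOn_le f T h
  have hmin : ∀ σ' ∈ T, c σ < c σ' ∨ (c σ = c σ' ∧ (D (σ k) < D (σ' k) ∨
      (D (σ k) = D (σ' k) ∧ ψ σ ≤ ψ σ'))) := by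
    intro σ' h
    have h1 := hσ σ' h
    rw [hf] at h1
    simp only [Prod.Lex.le_iff, ofLex_toLex] at h1
    exact h1
  have hσk : σ k ∈ Set.Ioo a b := hσT.1 hk
  rw [Set.mem_Ioo] at hσk
  refine ⟨σ, hσT, ?_, ?_⟩
  · intro σ' h
    rcases hmin σ' h with h1 | h1
    · exact h1.le
    · exact h1.1.le
  · intro j hj hjk
    have hσj : σ j ∈ Set.Ioo a b := hσT.1 hj
    rw [Set.mem_Ioo] at hσj
    have hne' : σ j ≠ σ k := fun h => hjk (hσT.2.1 hj hk h)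
    set σ' : ℕ → ℕ := fun i => σ (Equiv.swap j k i) with hσ'
    have hσ'T : σ' ∈ T := bijOn_swap hj hk hσT
    have e1 : σ' k = σ j := by simp [hσ']
    have e2 : σ' j = σ k := by simp [hσ']
    have e3 : ∀ i ∈ (S.erase k).erase j, σ' i = σ i := by
      intro i hi
      rw [mem_erase, mem_erase] at hi
      simp only [hσ']
      rw [Equiv.swap_apply_of_ne_of_ne hi.1 hi.2.1]
    have hcσ : c σ = v k * (D (σ k) - δ k) + (v j * (D (σ j) - δ j) +
        ∑ i ∈ (S.erase k).erase j, v i * (D (σ i) - δ i)) := sum_two hj hk hjk _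
    have hcσ' : c σ' = v k * (D (σ j) - δ k) + (v j * (D (σ k) - δ j) +
        ∑ i ∈ (S.erase k).erase j, v i * (D (σ i) - δ i)) := by
      simp only [hc]
      rw [sum_two hj hk hjk, e1, e2]
      congr 2
      exact sum_congr rfl fun i hi => by rw [e3 i hi]
    have hψσ : ψ σ = σ k * 1 + (σ j * (if δ j ≤ D (σ k) then 2 else 0) +
        ∑ i ∈ (S.erase k).erase j, σ i * (if i = k then 1 else if δ i ≤ D (σ k) then 2 else 0)) := by
      simp only [hψ]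
      rw [sum_two hj hk hjk, if_pos rfl, if_neg hjk]
    have hψσ' : D (σ j) = D (σ k) → ψ σ' = σ j * 1 + (σ k * (if δ j ≤ D (σ k) then 2 else 0) +
        ∑ i ∈ (S.erase k).erase j, σ i * (if i = k then 1 else if δ i ≤ D (σ k) then 2 else 0)) := by
      intro h
      simp only [hψ]
      rw [sum_two hj hk hjk, if_pos rfl, if_neg hjk, e1, e2, h]
      congr 2
      exact sum_congr rfl fun i hi => by rw [e3 i hi]
    have hm := hmin σ' hσ'T
    rw [e1] at hm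
    constructor
    · intro h1
      by_contra h2
      have h3 : σ k < σ j := by omega
      have h4 : D (σ k) ≤ D (σ j) := hD _ _ hσk.1 h3.le hσj.2
      have h5 := swap_ineq (v j) (v k) (D (σ k)) (D (σ j)) (δ j) (δ k) (hv j hj hjk) h1 h4
      have h6 : D (σ j) = D (σ k) := by
        rcases hm with h | ⟨h, _⟩ <;> omega
      have h7 := hψσ' h6
      rw [if_pos h1] at hψσ h7
      rcases hm with h | ⟨_, h | ⟨_, h⟩⟩
      · omega
      · omega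
      · omega
    · intro h1
      by_contra h2
      have h3 : σ j < σ k := by omega
      have h4 : D (σ j) ≤ D (σ k) := hD _ _ hσj.1 h3.le hσk.2
      have h5 : v k * (D (σ j) - δ k) ≤ v k * (D (σ k) - δ k) :=
        Nat.mul_le_mul_left _ (by omega)
      have h8 : D (σ k) - δ j = 0 := by omega
      have h9 : D (σ j) - δ j = 0 := by omega
      rw [h8, Nat.mul_zero] at hcσ'
      rw [h9, Nat.mul_zero] at hcσ
      have h6 : D (σ j) = D (σ k) := by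
        rcases hm with h | ⟨_, h | ⟨h, _⟩⟩ <;> omega
      have h7 := hψσ' h6
      rw [if_neg (by omega)] at hψσ h7
      rcases hm with h | ⟨_, h | ⟨_, h⟩⟩
      · omega
      · omega
      · omega

/-- Decomposition with a lightest job `k`. -/
theorem decomp (S : Finset ℕ) (w δ D : ℕ → ℕ) (a b k : ℕ) (hk : k ∈ S)
    (hw : ∀ j ∈ S, w k ≤ w j)
    (hD : ∀ s t, a < s → s ≤ t → t < b → D s ≤ D t)
    (σ₀ : ℕ → ℕ) (hσ₀ : Set.BijOn σ₀ (S : Set ℕ) (Set.Ioo a b)) :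
    ∃ σ : ℕ → ℕ, Set.BijOn σ (S : Set ℕ) (Set.Ioo a b) ∧
      ∑ j ∈ S, w j * (D (σ j) - δ j) ≤ ∑ j ∈ S, w j * (D (σ₀ j) - δ j) ∧
      ∀ j ∈ S, j ≠ k → (δ j ≤ D (σ k) → σ j < σ k) ∧ (D (σ k) < δ j → σ k < σ j) := by
  classical
  set ρ : ℕ := ∑ j ∈ S, (if j = k then 0 else 1) * (D (σ₀ j) - δ j) with hρ
  set v : ℕ → ℕ := fun j => (ρ + 1) * w j + (if j = k then 0 else 1) with hv
  have hvs : ∀ (σ : ℕ → ℕ), ∑ j ∈ S, v j * (D (σ j) - δ j)
      = (ρ + 1) * ∑ j ∈ S, w j * (D (σ j) - δ j)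
        + ∑ j ∈ S, (if j = k then 0 else 1) * (D (σ j) - δ j) := by
    intro σ
    rw [mul_sum, ← sum_add_distrib]
    refine sum_congr rfl fun j _ => ?_
    simp only [hv]
    ring
  obtain ⟨σ, h1, h2, h3⟩ := decomp_strict S v δ D a b k hk (by
    intro j hj hjk
    simp only [hv, if_pos, if_neg hjk]
    have := Nat.mul_le_mul_left (ρ + 1) (hw j hj)
    omega) hD ⟨σ₀, hσ₀⟩
  refine ⟨σ, h1, ?_, h3⟩
  have h4 := h2 σ₀ hσ₀
  rw [hvs, hvs, ← hρ] at h4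
  by_contra h5
  rw [not_le] at h5
  have h6 : (ρ + 1) * (∑ j ∈ S, w j * (D (σ₀ j) - δ j) + 1)
      ≤ (ρ + 1) * ∑ j ∈ S, w j * (D (σ j) - δ j) := Nat.mul_le_mul_left _ h5
  rw [Nat.mul_add, Nat.mul_one] at h6
  omega

end Pool.Agent.helper80.Sched
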