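import Mathlib

/-!
# Combinatorial form of the scheduling problem

Positions are numbered `1, …, n`; position `r` has the (doubled) completion time `r * p + X r`.
-/

namespace Pool.Agent.helper80.Sched

/-- Admissible consecutive offsets. -/
def OK (p x y : ℕ) : Prop := p ≤ x + y ∧ x ≤ y + p

instance (p x y : ℕ) : Decidable (OK p x y) := by unfold OK; infer_instance

/-- `σ` assigns the jobs in `S` to the positions strictly between `a` and `b`, and `X` gives the
offsets of the positions from `a` to `b`, with prescribed ends. -/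
structure Feas (p : ℕ) (S : Finset ℕ) (a x b y : ℕ) (σ X : ℕ → ℕ) : Prop where
  lt : a < b
  Xa : X a = x
  Xb : X b = y
  step : ∀ r, a ≤ r → r < b → OK p (X r) (X (r + 1))
  cap : ∀ r, a ≤ r → r ≤ b → X r ≤ 2 * p
  bij : Set.BijOn σ (S : Set ℕ) (Set.Ioo a b)

/-- The total weighted tardiness in half units. -/
def cost (p : ℕ) (w δ : ℕ → ℕ) (S : Finset ℕ) (σ X : ℕ → ℕ) : ℕ :=
  ∑ j ∈ S, w j * ((σ j * p + X (σ j)) - δ j)

end Pool.Agent.helper80.Sched
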