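import Pool.Agent.helper80.Sched.Model
import Pool.Agent.helper80.Sched.Feas

/-!
# The greedy construction of a schedule from half-integral completion times
-/

namespace Pool.Agent.helper80.Sched

open Finset

/-- Number of the first `m` jobs that use cell `t`. -/
def load (A : ℕ → Finset ℕ) (m t : ℕ) : ℕ := ((Icc 1 m).filter (fun r => t ∈ A r)).card

lemma load_succ (A : ℕ → Finset ℕ) (m t : ℕ) :
    load A (m + 1) t = load A m t + if t ∈ A (m + 1) then 1 else 0 := by
  unfold load
  have h : Icc 1 (m + 1) = insert (m + 1) (Icc 1 m) := by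
    ext r; simp only [mem_Icc, mem_insert]; omega
  rw [h, filter_insert]
  split_ifs with h1
  · rw [card_insert_of_notMem (by simp)]
  · rfl

lemma load_congr {A B : ℕ → Finset ℕ} {m : ℕ} (h : ∀ r, 1 ≤ r → r ≤ m → A r = B r) (t : ℕ) :
    load A m t = load B m t := by
  unfold load
  congr 1
  refine filter_congr fun r hr => ?_
  rw [mem_Icc] at hr
  rw [h r hr.1 hr.2]

theorem greedy (q n : ℕ) (D : ℕ → ℕ) (hm : ∀ r < n, D r ≤ D (r + 1))
    (h0 : D 0 = 0) (hc : ∀ r < n, (r + 1) * q ≤ D r + D (r + 1)) :
    ∀ m ≤ n, ∃ A : ℕ → Finset ℕ, (∀ r, 1 ≤ r → r ≤ m → A r ⊆ range (D r) ∧ (A r).card = q) ∧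
      (∀ t, load A m t ≤ 2) ∧ (∀ t, D m ≤ t → load A m t = 0) ∧
      ∑ t ∈ range (D m), load A m t = m * q ∧
      (m < n → ((range (D m)).filter (fun t => load A m t = 2)).card + q ≤ D (m + 1)) := by
  intro m
  induction m with
  | zero =>
    intro _
    refine ⟨fun _ => ∅, by intro r h1 h2; omega, ?_, ?_, ?_, ?_⟩
    · intro t; simp [load]
    · intro t _; simp [load]
    · simp [h0]
    · intro hn
      have := hc 0 hn
      rw [h0] at this ⊢
      simpa using this
  | succ m ih =>
    intro hmn
    obtain ⟨A, hA1, hA2, hA3, hA4, hA5⟩ := ih (by omega)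
    have hF := hA5 (by omega)
    have hDm := hm m (by omega)
    obtain ⟨T, hT⟩ : ∃ T, T = range (D (m + 1)) := ⟨_, rfl⟩
    set Z := T.filter (fun t => load A m t = 0) with hZ
    set N := T.filter (fun t => load A m t ≤ 1) with hN
    have hZN : Z ⊆ N := by
      intro t ht
      rw [hZ, mem_filter] at ht
      rw [hN, mem_filter]
      exact ⟨ht.1, by omega⟩
    have hfull : T.filter (fun t => load A m t = 2)
        = (range (D m)).filter (fun t => load A m t = 2) := by
      ext t
      simp only [mem_filter, hT, mem_range]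
      constructor
      · rintro ⟨h1, h2⟩
        refine ⟨?_, h2⟩
        by_contra h
        rw [hA3 t (not_lt.mp h)] at h2
        omega
      · rintro ⟨h1, h2⟩
        exact ⟨by omega, h2⟩
    have hNcard : q ≤ N.card := by
      have h1 : N.card + (T.filter (fun t => load A m t = 2)).card = T.card := by
        rw [← card_filter_add_card_filter_not (s := T) (fun t => load A m t ≤ 1)]
        congr 2
        refine filter_congr fun t _ => ?_
        have := hA2 t
        omega
      rw [hfull, hT, card_range] at h1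
      omega
    -- choice of the cells of job m+1
    have hB : ∃ B : Finset ℕ, B ⊆ N ∧ B.card = q ∧ (B ⊆ Z ∨ Z ⊆ B) := by
      rcases le_total q Z.card with h | h
      · obtain ⟨B, hB1, hB2⟩ := exists_subset_card_eq h
        exact ⟨B, hB1.trans hZN, hB2, Or.inl hB1⟩
      · obtain ⟨B, hB1, hB2, hB3⟩ := exists_subsuperset_card_eq hZN h hNcard
        exact ⟨B, hB2, hB3, Or.inr hB1⟩
    obtain ⟨B, hB1, hB2, hB3⟩ := hB
    set A' : ℕ → Finset ℕ := fun r => if r = m + 1 then B else A r with hA'
    have hA'1 : A' (m + 1) = B := by simp [hA']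
    have hA'2 : ∀ r, 1 ≤ r → r ≤ m → A' r = A r := by
      intro r _ h
      have : r ≠ m + 1 := by omega
      simp [hA', this]
    have hl : ∀ t, load A' (m + 1) t = load A m t + if t ∈ B then 1 else 0 := by
      intro t
      rw [load_succ, hA'1, load_congr hA'2]
    have hBT : B ⊆ T := fun t ht => (mem_filter.mp (hB1 ht)).1
    have hl2 : ∀ t, load A' (m + 1) t ≤ 2 := by
      intro t
      rw [hl]
      split_ifs with h
      · have := (mem_filter.mp (hB1 h)).2
        omega
      · have := hA2 t; omega
    have hsum : ∑ t ∈ range (D (m + 1)), load A' (m + 1) t = (m + 1) * q := by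
      simp_rw [hl]
      rw [sum_add_distrib]
      have h1 : ∑ t ∈ range (D (m + 1)), load A m t = m * q := by
        rw [← hA4]
        symm
        refine sum_subset (range_subset_range.mpr hDm) fun t _ ht => ?_
        rw [mem_range, not_lt] at ht
        exact hA3 t ht
      have h2 : ∑ t ∈ range (D (m + 1)), (if t ∈ B then 1 else 0) = q := by
        rw [← hB2, card_eq_sum_ones, ← sum_filter]
        refine sum_congr ?_ fun _ _ => rfl
        ext t
        rw [mem_filter]
        exact ⟨fun h => h.2, fun h => ⟨hT ▸ hBT h, h⟩⟩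
      rw [h1, h2]; ring
    refine ⟨A', ?_, hl2, ?_, hsum, ?_⟩
    · intro r hr1 hr2
      rcases Nat.lt_or_ge r (m + 1) with h | h
      · rw [hA'2 r hr1 (by omega)]
        exact hA1 r hr1 (by omega)
      · have : r = m + 1 := by omega
        rw [this, hA'1]
        exact ⟨hT ▸ hBT, hB2⟩
    · intro t ht
      rw [hl, hA3 t (by omega), if_neg]
      intro h
      have := hBT h
      rw [hT, mem_range] at this
      omega
    · intro hmn'
      have hD2 := hm (m + 1) hmn'
      have hc2 := hc (m + 1) hmn'
      rcases hB3 with h | h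
      · -- only empty cells were used
        have : (range (D (m + 1))).filter (fun t => load A' (m + 1) t = 2)
            = (range (D m)).filter (fun t => load A m t = 2) := by
          rw [← hfull, hT]
          refine filter_congr fun t _ => ?_
          rw [hl]
          split_ifs with h1
          · have := (mem_filter.mp (h h1)).2
            omega
          · omega
        rw [this]
        omega
      · -- all cells are used now
        have hge : ∀ t ∈ range (D (m + 1)), 1 ≤ load A' (m + 1) t := by
          intro t ht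
          rw [hl]
          split_ifs with h1
          · omega
          · have : t ∉ Z := fun h2 => h1 (h h2)
            rw [hZ, mem_filter, not_and] at this
            have := this (hT ▸ ht)
            omega
        have h1 : ∑ t ∈ range (D (m + 1)), load A' (m + 1) t
            = D (m + 1) + ((range (D (m + 1))).filter (fun t => load A' (m + 1) t = 2)).card := by
          have h5 : ∑ t ∈ range (D (m + 1)), load A' (m + 1) t
              = ∑ t ∈ range (D (m + 1)), (1 + if load A' (m + 1) t = 2 then 1 else 0) := by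
            refine sum_congr rfl fun t ht => ?_
            have h2 := hge t ht
            have h3 := hl2 t
            split_ifs with h4 <;> omega
          rw [h5, sum_add_distrib, card_filter, ← card_eq_sum_ones, card_range]
        rw [hsum] at h1
        have : (m + 1 + 1) * q = (m + 1) * q + q := by ring
        omega

/-- The pieces of the constructed schedule. -/
noncomputable def mkPiece {n : ℕ} (σ : ℕ → ℕ) (A : ℕ → Finset ℕ) (x : (_ : Fin n) × ℕ) :
    Piece n where
  job := x.1
  mach := open Classical in if ∃ i : Fin n, σ i < σ x.1 ∧ x.2 ∈ A (σ i) then 1 else 0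
  s := (x.2 : ℝ) / 2
  e := ((x.2 : ℝ) + 1) / 2

lemma mkPiece_inj {n : ℕ} (σ : ℕ → ℕ) (A : ℕ → Finset ℕ) :
    Function.Injective (mkPiece (n := n) σ A) := by
  rintro ⟨j, t⟩ ⟨j', t'⟩ h
  have h1 : j = j' := congrArg Piece.job h
  have h2 : (t : ℝ) / 2 = (t' : ℝ) / 2 := congrArg Piece.s h
  have h3 : t = t' := by
    have : (t : ℝ) = t' := by linarith
    exact_mod_cast this
  rw [h1, h3]

/-- The constructed schedule. -/
noncomputable def mkSchedule {n p : ℕ} (σ : ℕ → ℕ) (A : ℕ → Finset ℕ)
    (hσ : Set.BijOn σ (Finset.range n : Set ℕ) (Set.Ioo 0 (n + 1)))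
    (hcard : ∀ r, 1 ≤ r → r ≤ n → (A r).card = 2 * p) (hl : ∀ t, load A n t ≤ 2) :
    Schedule n p where
  pieces := ((univ : Finset (Fin n)).sigma (fun j => A (σ j))).map ⟨mkPiece σ A, mkPiece_inj σ A⟩
  nonneg := by
    intro a ha
    rw [mem_map] at ha
    obtain ⟨x, _, rfl⟩ := ha
    exact div_nonneg (Nat.cast_nonneg _) (by norm_num)
  pos := by
    intro a ha
    rw [mem_map] at ha
    obtain ⟨x, _, rfl⟩ := ha
    show (x.2 : ℝ) / 2 < ((x.2 : ℝ) + 1) / 2
    linarith
  total := by
    intro j
    rw [sum_filter, sum_map, sum_sigma]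
    have h1 : ∀ j' : Fin n, ∑ t ∈ A (σ j'),
        (if (mkPiece σ A (⟨j', t⟩ : (_ : Fin n) × ℕ)).job = j then
          ((mkPiece σ A (⟨j', t⟩ : (_ : Fin n) × ℕ)).e
          - (mkPiece σ A (⟨j', t⟩ : (_ : Fin n) × ℕ)).s) else 0)
        = if j' = j then (p : ℝ) else 0 := by
      intro j'
      have h2 : ∀ t, (if (mkPiece σ A (⟨j', t⟩ : (_ : Fin n) × ℕ)).job = j then
          ((mkPiece σ A (⟨j', t⟩ : (_ : Fin n) × ℕ)).e
          - (mkPiece σ A (⟨j', t⟩ : (_ : Fin n) × ℕ)).s) else 0)
          = if j' = j then (1 / 2 : ℝ) else 0 := by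
        intro t
        show (if j' = j then (((t : ℝ) + 1) / 2 - (t : ℝ) / 2) else 0) = _
        by_cases h : j' = j
        · rw [if_pos h, if_pos h]; ring
        · rw [if_neg h, if_neg h]
      simp_rw [h2]
      rw [sum_const]
      have hj : σ j' ∈ Set.Ioo 0 (n + 1) := hσ.1 (by simp)
      rw [Set.mem_Ioo] at hj
      rw [hcard (σ j') (by omega) (by omega)]
      by_cases h : j' = j
      · rw [if_pos h, if_pos h, nsmul_eq_mul]; push_cast; ring
      · rw [if_neg h, if_neg h]; simp
    have h3 := sum_congr (rfl : (univ : Finset (Fin n)) = univ) (fun j' _ => h1 j')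
    refine Eq.trans h3 ?_
    simp
  disj := by
    intro a ha b hb hab hmj
    rw [mem_map] at ha hb
    obtain ⟨⟨j, t⟩, hx, rfl⟩ := ha
    obtain ⟨⟨j', t'⟩, hy, rfl⟩ := hb
    rw [mem_sigma] at hx hy
    simp only [Function.Embedding.coeFn_mk, mkPiece] at hab hmj ⊢
    rcases lt_trichotomy t t' with h | h | h
    · left
      have : (t : ℝ) + 1 ≤ t' := by exact_mod_cast h
      linarith
    · exfalso
      subst h
      have hjj : j ≠ j' := by
        rintro rfl
        exact hab rfl
      have hσjj : σ j ≠ σ j' := by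
        intro h
        exact hjj (Fin.ext (hσ.2.1 (by simp) (by simp) h))
      have key : ∀ i k l : Fin n, σ i < σ k → σ k < σ l → t ∈ A (σ i) → t ∈ A (σ k) →
          t ∈ A (σ l) → False := by
        intro i k l h1 h2 a1 a2 a3
        have hr : ∀ j : Fin n, σ j ∈ Icc 1 n := by
          intro j
          have hj : σ j ∈ Set.Ioo 0 (n + 1) := hσ.1 (by simp)
          rw [Set.mem_Ioo] at hj
          rw [mem_Icc]; omega
        have hsub : ({σ i, σ k, σ l} : Finset ℕ) ⊆ (Icc 1 n).filter (fun r => t ∈ A r) := by
          intro r hr'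
          simp only [mem_insert, mem_singleton] at hr'
          rw [mem_filter]
          rcases hr' with rfl | rfl | rfl
          · exact ⟨hr i, a1⟩
          · exact ⟨hr k, a2⟩
          · exact ⟨hr l, a3⟩
        have hc := card_le_card hsub
        have h3 : ({σ i, σ k, σ l} : Finset ℕ).card = 3 := by
          rw [card_insert_of_notMem, card_insert_of_notMem, card_singleton]
          · rw [mem_singleton]; omega
          · rw [mem_insert, mem_singleton]; omega
        have h4 := hl t
        unfold load at h4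
        omega
      rcases hmj with hmj | hmj
      · rcases lt_or_gt_of_ne hσjj with h | h
        · rw [if_pos (⟨j, h, hx.2⟩ : ∃ i : Fin n, σ i < σ j' ∧ t ∈ A (σ i))] at hmj
          by_cases h1 : ∃ i : Fin n, σ i < σ j ∧ t ∈ A (σ i)
          · obtain ⟨i, h2, h3⟩ := h1
            exact key i j j' h2 h h3 hx.2 hy.2
          · rw [if_neg h1] at hmj
            exact absurd hmj (by decide)
        · rw [if_pos (⟨j', h, hy.2⟩ : ∃ i : Fin n, σ i < σ j ∧ t ∈ A (σ i))] at hmj
          by_cases h1 : ∃ i : Fin n, σ i < σ j' ∧ t ∈ A (σ i)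
          · obtain ⟨i, h2, h3⟩ := h1
            exact key i j' j h2 h h3 hy.2 hx.2
          · rw [if_neg h1] at hmj
            exact absurd hmj (by decide)
      · exact hjj hmj
    · right
      have : (t' : ℝ) + 1 ≤ t := by exact_mod_cast h
      linarith

/-- Every combinatorial solution comes from a schedule. -/
theorem exists_schedule_of_feas {n p : ℕ} (w d : Fin n → ℕ) (w' d' : ℕ → ℕ)
    (hw : ∀ j : Fin n, w' j = w j) (hd : ∀ j : Fin n, d' j = d j) (σ X : ℕ → ℕ)
    (hF : Feas p (Finset.range n) 0 0 (n + 1) (2 * p) σ X) :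
    ∃ S : Schedule n p,
      2 * S.cost w d ≤ (cost p w' (fun j => 2 * d' j) (Finset.range n) σ X : ℝ) := by
  classical
  set D : ℕ → ℕ := fun r => r * p + X r with hD
  have hg1 : ∀ r < n, D r ≤ D (r + 1) := by
    intro r hr
    have := (hF.step r (Nat.zero_le _) (by omega)).2
    simp only [hD]
    have : (r + 1) * p = r * p + p := by ring
    omega
  have hg2 : D 0 = 0 := by simp only [hD, hF.Xa]; simp
  have hg3 : ∀ r < n, (r + 1) * (2 * p) ≤ D r + D (r + 1) := by
    intro r hr
    have := (hF.step r (Nat.zero_le _) (by omega)).1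
    simp only [hD]
    have e1 : (r + 1) * (2 * p) = 2 * (r * p) + 2 * p := by ring
    have e2 : (r + 1) * p = r * p + p := by ring
    omega
  obtain ⟨A, hA1, hA2, -, -, -⟩ := greedy (2 * p) n D hg1 hg2 hg3 n le_rfl
  · refine ⟨mkSchedule σ A hF.bij (fun r h1 h2 => (hA1 r h1 h2).2) hA2, ?_⟩
    unfold Schedule.cost cost
    rw [Finset.sum_range (fun j => w' j * ((σ j * p + X (σ j)) - 2 * d' j)), mul_sum]
    push_cast
    refine sum_le_sum fun j _ => ?_
    rw [hw j, hd j]
    set C := (mkSchedule σ A hF.bij (fun r h1 h2 => (hA1 r h1 h2).2) hA2).completion j with hC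
    have hCle : C ≤ (D (σ j) : ℝ) / 2 := by
      rw [hC]
      refine Real.sSup_le ?_ (div_nonneg (Nat.cast_nonneg _) (by norm_num))
      rintro t ⟨a, ha, haj, rfl⟩
      simp only [mkSchedule, mem_map, mem_sigma] at ha
      obtain ⟨⟨j', t⟩, ⟨_, ht⟩, rfl⟩ := ha
      simp only [Function.Embedding.coeFn_mk, mkPiece] at haj ⊢
      subst haj
      have hj : σ j' ∈ Set.Ioo 0 (n + 1) := hF.bij.1 (by simp)
      rw [Set.mem_Ioo] at hj
      have := (hA1 (σ j') (by omega) (by omega)).1 ht
      rw [mem_range] at this
      have : (t : ℝ) + 1 ≤ D (σ j') := by exact_mod_cast this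
      linarith
    have hgoal : 2 * max 0 (C - d j) ≤ ((((σ j * p + X (σ j)) - 2 * d j : ℕ)) : ℝ) := by
      rcases le_total (2 * d j) (σ j * p + X (σ j)) with h | h
      · rw [Nat.cast_sub h]
        have h1 : ((2 * d j : ℕ) : ℝ) ≤ ((σ j * p + X (σ j) : ℕ) : ℝ) := by exact_mod_cast h
        push_cast at h1 ⊢
        rw [hD] at hCle
        push_cast at hCle
        rcases le_total 0 (C - d j) with h2 | h2
        · rw [max_eq_right h2]; linarith
        · rw [max_eq_left h2]; linarith
      · rw [Nat.sub_eq_zero_of_le h]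
        have h1 : ((σ j * p + X (σ j) : ℕ) : ℝ) ≤ ((2 * d j : ℕ) : ℝ) := by exact_mod_cast h
        push_cast at h1 ⊢
        rw [hD] at hCle
        push_cast at hCle
        rw [max_eq_left (by linarith)]
        simp
    have := mul_le_mul_of_nonneg_left hgoal (Nat.cast_nonneg (α := ℝ) (w j))
    linarith

end Pool.Agent.helper80.Sched
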