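import Pool.Agent.helper80.Sched.LangDefs

/-!
# Input convention
-/

namespace Pool.Agent.helper80.Sched

/-- Extension by zero. -/
def ext {n : ℕ} (f : Fin n → ℕ) (j : ℕ) : ℕ := if h : j < n then f ⟨j, h⟩ else 0

/-- The initial memory for the instance with weights `w`, due dates `d` and threshold `K`: the
register `0` holds `n`, the register `2` holds `K`, the arrays `3` and `4` hold the weights and the
due dates; all other cells are zero. -/
def input (n : ℕ) (w d : Fin n → ℕ) (K : ℕ) : Mem := fun A c =>
  if A = 0 ∧ c = (0, 0, 0, 0, 0) then n
  else if A = 2 ∧ c = (0, 0, 0, 0, 0) then K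
  else if A = 3 ∧ c.2 = (0, 0, 0, 0) then ext w c.1
  else if A = 4 ∧ c.2 = (0, 0, 0, 0) then ext d c.1
  else 0

/-- The input size: the number of jobs plus one plus the bit lengths of all the numbers. -/
def inputSize (n : ℕ) (w d : Fin n → ℕ) (K : ℕ) : ℕ :=
  n + 1 + ∑ j, (Nat.size (w j) + Nat.size (d j)) + Nat.size K

/-- The program `P` preceded by the assignment of the constant `p` to the register `1`: this is
the program that solves the problem for the fixed processing time `p`. -/
def full (P : Prog) (p : ℕ) : Prog :=
  .seq (.set 1 (.const 0) (.const 0) (.const 0) (.const 0) (.const 0) (.const p)) P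

end Pool.Agent.helper80.Sched
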