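import Pool.Agent.helper80.Sched.LangDefs

/-!
# Basic facts about the language
-/

namespace Pool.Agent.helper80.Sched

/-! ### Writes, frame -/

/-- The arrays a program may write to. -/
def Prog.writes : Prog → Finset ℕ
  | .skip => ∅
  | .set A _ _ _ _ _ _ => {A}
  | .seq P Q => P.writes ∪ Q.writes
  | .ite _ _ P Q => P.writes ∪ Q.writes
  | .loop v _ P => insert v P.writes

lemma write_ne {μ : Mem} {A B : ℕ} (h : B ≠ A) (c : Addr) (x : ℕ) : write μ A c x B = μ B := by
  funext b
  simp [write, h]

lemma write_eq (μ : Mem) (A : ℕ) (c : Addr) (x : ℕ) :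
    write μ A c x A = fun b => if b = c then x else μ A b := by
  funext b
  simp [write]

lemma frame (P : Prog) : ∀ (μ : Mem) (A : ℕ), A ∉ P.writes → P.exec μ A = μ A := by
  induction P with
  | skip => intro μ A _; rfl
  | set B i j k l m e =>
    intro μ A h
    simp only [Prog.writes, Finset.mem_singleton] at h
    simp only [Prog.exec]
    exact write_ne h _ _
  | seq P Q ihP ihQ =>
    intro μ A h
    simp only [Prog.writes, Finset.mem_union, not_or] at h
    simp only [Prog.exec]
    rw [ihQ _ _ h.2, ihP _ _ h.1]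
  | ite e f P Q ihP ihQ =>
    intro μ A h
    simp only [Prog.writes, Finset.mem_union, not_or] at h
    simp only [Prog.exec]
    split_ifs
    · exact ihP _ _ h.1
    · exact ihQ _ _ h.2
  | loop v r P ih =>
    intro μ A h
    simp only [Prog.writes, Finset.mem_insert, not_or] at h
    simp only [Prog.exec]
    generalize reg μ r = N
    induction N with
    | zero => rfl
    | succ N ihN =>
      simp only [iter]
      rw [ih _ _ h.2, write_ne h.1, ihN]

/-- The loop body with the loop counter. -/
def bodyAt (v : ℕ) (P : Prog) (i : ℕ) (ν : Mem) : Mem := P.exec (write ν v (0, 0, 0, 0, 0) i)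

lemma exec_loop (v r : ℕ) (P : Prog) (μ : Mem) :
    (Prog.loop v r P).exec μ = iter (bodyAt v P) (reg μ r) μ := rfl

lemma frame_iter (v : ℕ) (P : Prog) (N : ℕ) (μ : Mem) (A : ℕ) (h : A ≠ v) (h' : A ∉ P.writes) :
    iter (bodyAt v P) N μ A = μ A := by
  induction N with
  | zero => rfl
  | succ N ih =>
    simp only [iter]
    unfold bodyAt at ih ⊢
    rw [frame _ _ _ h', write_ne h, ih]

/-- The invariant rule for loops. -/
lemma loop_inv {v r : ℕ} {P : Prog} {μ : Mem} {N : ℕ} (hN : reg μ r = N) (I : ℕ → Mem → Prop)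
    (h0 : I 0 μ)
    (hs : ∀ i < N, ∀ ν : Mem, (∀ A, A ≠ v → A ∉ P.writes → ν A = μ A) → I i ν →
      I (i + 1) (P.exec (write ν v (0, 0, 0, 0, 0) i))) :
    I N ((Prog.loop v r P).exec μ) := by
  rw [exec_loop, hN]
  have : ∀ k ≤ N, I k (iter (bodyAt v P) k μ) := by
    intro k
    induction k with
    | zero => intro _; exact h0
    | succ k ih =>
      intro hk
      exact hs k (by omega) _ (fun A h h' => frame_iter v P k μ A h h') (ih (by omega))
  exact this N le_rfl

open Classical in
/-- Overwrite `g` by `f` on the set of addresses satisfying `C`. -/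
noncomputable def fill (C : Addr → Prop) (f g : Addr → ℕ) : Addr → ℕ :=
  fun c => if C c then f c else g c

lemma fill_pos {C : Addr → Prop} {f g : Addr → ℕ} {c : Addr} (h : C c) : fill C f g c = f c :=
  if_pos h

lemma fill_neg {C : Addr → Prop} {f g : Addr → ℕ} {c : Addr} (h : ¬ C c) : fill C f g c = g c :=
  if_neg h

lemma fill_single (a : Addr) (f g : Addr → ℕ) (x : ℕ) (h : x = f a) :
    (fun c => if c = a then x else g c) = fill (fun c => c = a) f g := by
  funext c
  by_cases hc : c = a
  · subst hc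
    rw [fill_pos (C := fun c' => c' = c) rfl, if_pos rfl, h]
  · rw [fill_neg (C := fun c' => c' = a) hc, if_neg hc]

/-- The rule for loops whose iterations fill disjoint (or consistent) parts of one array. -/
lemma loop_fill {v r : ℕ} {P : Prog} {μ : Mem} {N : ℕ} (hN : reg μ r = N) (A : ℕ)
    (C : ℕ → Addr → Prop) (f : Addr → ℕ)
    (hs : ∀ i < N, ∀ ν : Mem, (∀ B, B ≠ v → B ∉ P.writes → ν B = μ B) →
      (∀ c, (∀ i' < i, ¬ C i' c) → ν A c = μ A c) →
      P.exec (write ν v (0, 0, 0, 0, 0) i) A = fill (C i) f (ν A)) :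
    (Prog.loop v r P).exec μ A = fill (fun c => ∃ i < N, C i c) f (μ A) := by
  refine loop_inv hN (fun k ν => ν A = fill (fun c => ∃ i < k, C i c) f (μ A)) ?_ ?_
  · funext c
    rw [fill_neg]
    rintro ⟨i, hi, _⟩
    omega
  · intro i hi ν hν hI
    have h1 : ∀ c, (∀ i' < i, ¬ C i' c) → ν A c = μ A c := by
      intro c hc
      rw [hI, fill_neg]
      rintro ⟨i', h1, h2⟩
      exact hc i' h1 h2
    rw [hs i hi ν hν h1]
    funext c
    by_cases hc : C i c
    · rw [fill_pos hc, fill_pos ⟨i, by omega, hc⟩]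
    · rw [fill_neg hc, hI]
      by_cases hc' : ∃ i' < i, C i' c
      · obtain ⟨i', h2, h3⟩ := hc'
        rw [fill_pos ⟨i', h2, h3⟩, fill_pos ⟨i', by omega, h3⟩]
      · rw [fill_neg hc', fill_neg]
        rintro ⟨i', h1, h2⟩
        rcases Nat.lt_succ_iff_lt_or_eq.mp h1 with h | h
        · exact hc' ⟨i', h, h2⟩
        · subst h; exact hc h2

/-! ### The number of elementary steps -/

/-- Number of elementary steps. -/
def Prog.steps : Prog → Mem → ℕ
  | .skip, _ => 1
  | .set _ _ _ _ _ _ _, _ => 1
  | .seq P Q, μ => P.steps μ + Q.steps (P.exec μ)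
  | .ite e f P Q, μ => 1 + if e.eval μ ≤ f.eval μ then P.steps μ else Q.steps μ
  | .loop v r P, μ =>
      1 + ∑ i ∈ Finset.range (reg μ r), (1 +
        P.steps (write (iter (bodyAt v P) i μ) v (0, 0, 0, 0, 0) i))

/-- The registers that bound loops. -/
def Prog.bounds : Prog → Finset ℕ
  | .skip => ∅
  | .set _ _ _ _ _ _ _ => ∅
  | .seq P Q => P.bounds ∪ Q.bounds
  | .ite _ _ P Q => P.bounds ∪ Q.bounds
  | .loop _ r P => insert r P.bounds

/-- Size of a program text. -/
def Prog.len : Prog → ℕ
  | .skip => 1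
  | .set _ _ _ _ _ _ _ => 1
  | .seq P Q => P.len + Q.len
  | .ite _ _ P Q => 1 + P.len + Q.len
  | .loop _ _ P => 2 + P.len

/-- Nesting depth of the loops. -/
def Prog.depth : Prog → ℕ
  | .skip => 0
  | .set _ _ _ _ _ _ _ => 0
  | .seq P Q => max P.depth Q.depth
  | .ite _ _ P Q => max P.depth Q.depth
  | .loop _ _ P => 1 + P.depth

/-- A bound on the number of steps of a program whose loops are bounded by registers it does not
change. -/
theorem steps_le (N : ℕ) (P : Prog) : ∀ (μ : Mem), (∀ r ∈ P.bounds, reg μ r ≤ N) →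
    Disjoint P.bounds P.writes → P.steps μ ≤ P.len * (N + 1) ^ P.depth := by
  induction P with
  | skip => intro μ _ _; simp [Prog.steps, Prog.len, Prog.depth]
  | set => intro μ _ _; simp [Prog.steps, Prog.len, Prog.depth]
  | seq P Q ihP ihQ =>
    intro μ hb hd
    simp only [Prog.steps, Prog.len, Prog.depth, Prog.bounds, Prog.writes] at hb hd ⊢
    rw [Finset.disjoint_union_left, Finset.disjoint_union_right, Finset.disjoint_union_right] at hd
    have h1 := ihP μ (fun r hr => hb r (Finset.mem_union_left _ hr)) hd.1.1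
    have h2 := ihQ (P.exec μ) (fun r hr => by
      have : r ∉ P.writes := Finset.disjoint_left.mp hd.2.1 hr
      show P.exec μ r _ ≤ N
      rw [frame P μ r this]
      exact hb r (Finset.mem_union_right _ hr)) hd.2.2
    have h3 : (N + 1) ^ P.depth ≤ (N + 1) ^ max P.depth Q.depth :=
      Nat.pow_le_pow_right (by omega) (le_max_left _ _)
    have h4 : (N + 1) ^ Q.depth ≤ (N + 1) ^ max P.depth Q.depth :=
      Nat.pow_le_pow_right (by omega) (le_max_right _ _)
    calc P.steps μ + Q.steps (P.exec μ)
        ≤ P.len * (N + 1) ^ P.depth + Q.len * (N + 1) ^ Q.depth := add_le_add h1 h2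
      _ ≤ P.len * (N + 1) ^ max P.depth Q.depth + Q.len * (N + 1) ^ max P.depth Q.depth :=
          add_le_add (Nat.mul_le_mul_left _ h3) (Nat.mul_le_mul_left _ h4)
      _ = _ := by ring
  | ite e f P Q ihP ihQ =>
    intro μ hb hd
    simp only [Prog.steps, Prog.len, Prog.depth, Prog.bounds, Prog.writes] at hb hd ⊢
    rw [Finset.disjoint_union_left, Finset.disjoint_union_right, Finset.disjoint_union_right] at hd
    have h1 := ihP μ (fun r hr => hb r (Finset.mem_union_left _ hr)) hd.1.1
    have h2 := ihQ μ (fun r hr => hb r (Finset.mem_union_right _ hr)) hd.2.2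
    have h3 : (N + 1) ^ P.depth ≤ (N + 1) ^ max P.depth Q.depth :=
      Nat.pow_le_pow_right (by omega) (le_max_left _ _)
    have h4 : (N + 1) ^ Q.depth ≤ (N + 1) ^ max P.depth Q.depth :=
      Nat.pow_le_pow_right (by omega) (le_max_right _ _)
    have h5 : 1 ≤ (N + 1) ^ max P.depth Q.depth := Nat.one_le_pow _ _ (by omega)
    have h6 : (1 + P.len + Q.len) * (N + 1) ^ max P.depth Q.depth
        = (N + 1) ^ max P.depth Q.depth + P.len * (N + 1) ^ max P.depth Q.depth
          + Q.len * (N + 1) ^ max P.depth Q.depth := by ring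
    rw [h6]
    have h7 := Nat.mul_le_mul_left P.len h3
    have h8 := Nat.mul_le_mul_left Q.len h4
    split_ifs <;> omega
  | loop v r P ih =>
    intro μ hb hd
    simp only [Prog.steps, Prog.len, Prog.depth, Prog.bounds, Prog.writes] at hb hd ⊢
    rw [Finset.disjoint_insert_left, Finset.disjoint_insert_right] at hd
    have hr : reg μ r ≤ N := hb r (Finset.mem_insert_self _ _)
    have hbody : ∀ i ∈ Finset.range (reg μ r), (1 +
        P.steps (write (iter (bodyAt v P) i μ) v (0, 0, 0, 0, 0) i))
          ≤ 1 + P.len * (N + 1) ^ P.depth := by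
      intro i _
      refine Nat.add_le_add_left (ih _ ?_ hd.2.2) 1
      intro q hq
      show write _ v _ _ q _ ≤ N
      have hqv : q ≠ v := by
        rintro rfl
        exact hd.2.1 hq
      rw [write_ne hqv, frame_iter v P i μ q hqv (Finset.disjoint_left.mp hd.2.2 hq)]
      exact hb q (Finset.mem_insert_of_mem hq)
    have h1 := Finset.sum_le_sum hbody
    rw [Finset.sum_const, Finset.card_range, smul_eq_mul] at h1
    have h2 : reg μ r * (1 + P.len * (N + 1) ^ P.depth)
        ≤ N * (1 + P.len * (N + 1) ^ P.depth) := Nat.mul_le_mul_right _ hr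
    have h5 : 1 ≤ (N + 1) ^ P.depth := Nat.one_le_pow _ _ (by omega)
    have h6 : (2 + P.len) * (N + 1) ^ (1 + P.depth)
        = 2 * (N * (N + 1) ^ P.depth) + 2 * (N + 1) ^ P.depth
          + N * (P.len * (N + 1) ^ P.depth) + P.len * (N + 1) ^ P.depth := by
      rw [pow_add, pow_one]; ring
    have h7 : N * 1 ≤ N * (N + 1) ^ P.depth := Nat.mul_le_mul_left _ h5
    rw [h6]
    have h8 : N * (1 + P.len * (N + 1) ^ P.depth) = N + N * (P.len * (N + 1) ^ P.depth) := by ring
    omega

end Pool.Agent.helper80.Sched
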