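import Mathlib

/-!
# A small imperative language with logarithmic cost

The memory consists of arrays (numbered by natural numbers) of natural numbers; an address inside
an array is a tuple of five natural numbers.  Expressions are built from constants, memory cells,
addition and truncated subtraction.  Programs are built from assignments, sequencing, tests
`e ≤ f` and `for` loops whose number of iterations is read from a register before the loop starts.
Every operation costs one plus the bit lengths of all the numbers (including addresses) it
computes: this is the usual logarithmic cost criterion for random access machines.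
-/

namespace Pool.Agent.helper80.Sched

/-- An address inside an array. -/
abbrev Addr := ℕ × ℕ × ℕ × ℕ × ℕ

/-- The memory. -/
abbrev Mem := ℕ → Addr → ℕ

/-- The value of the scalar register `v` (the cell of the array `v` with address zero). -/
abbrev reg (μ : Mem) (v : ℕ) : ℕ := μ v (0, 0, 0, 0, 0)

/-- Write the number `x` into the cell with address `c` of the array `A`. -/
def write (μ : Mem) (A : ℕ) (c : Addr) (x : ℕ) : Mem :=
  fun B b => if B = A ∧ b = c then x else μ B b

/-- Arithmetic expressions. -/
inductive Expr where
  /-- a constant -/
  | const (c : ℕ) : Expr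
  /-- the cell of the array `A` with address `(i, j, k, l, m)` -/
  | get (A : ℕ) (i j k l m : Expr) : Expr
  /-- addition -/
  | add (e f : Expr) : Expr
  /-- truncated subtraction -/
  | sub (e f : Expr) : Expr

/-- The value of an expression. -/
def Expr.eval : Expr → Mem → ℕ
  | .const c, _ => c
  | .get A i j k l m, μ => μ A (i.eval μ, j.eval μ, k.eval μ, l.eval μ, m.eval μ)
  | .add e f, μ => e.eval μ + f.eval μ
  | .sub e f, μ => e.eval μ - f.eval μ

/-- The logarithmic cost of evaluating an expression: one plus the bit length of the result, for
every subexpression. -/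
def Expr.cost : Expr → Mem → ℕ
  | .const c, _ => 1 + Nat.size c
  | .get A i j k l m, μ =>
      1 + Nat.size (μ A (i.eval μ, j.eval μ, k.eval μ, l.eval μ, m.eval μ))
        + i.cost μ + j.cost μ + k.cost μ + l.cost μ + m.cost μ
  | .add e f, μ => 1 + Nat.size (e.eval μ + f.eval μ) + e.cost μ + f.cost μ
  | .sub e f, μ => 1 + Nat.size (e.eval μ - f.eval μ) + e.cost μ + f.cost μ

/-- Programs. -/
inductive Prog where
  /-- do nothing -/
  | skip : Prog
  /-- `A[i, j, k, l, m] := e` -/
  | set (A : ℕ) (i j k l m e : Expr) : Prog
  /-- first `P`, then `Q` -/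
  | seq (P Q : Prog) : Prog
  /-- if `e ≤ f` then `P` else `Q` -/
  | ite (e f : Expr) (P Q : Prog) : Prog
  /-- for `v := 0, …, N - 1` do `P`, where `N` is the initial value of the register `r` -/
  | loop (v r : ℕ) (P : Prog) : Prog

/-- Iteration of a memory transformation that depends on a counter. -/
def iter (f : ℕ → Mem → Mem) : ℕ → Mem → Mem
  | 0, μ => μ
  | i + 1, μ => f i (iter f i μ)

/-- The effect of a program on the memory. -/
def Prog.exec : Prog → Mem → Mem
  | .skip, μ => μ
  | .set A i j k l m e, μ =>
      write μ A (i.eval μ, j.eval μ, k.eval μ, l.eval μ, m.eval μ) (e.eval μ)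
  | .seq P Q, μ => Q.exec (P.exec μ)
  | .ite e f P Q, μ => if e.eval μ ≤ f.eval μ then P.exec μ else Q.exec μ
  | .loop v r P, μ => iter (fun i ν => P.exec (write ν v (0, 0, 0, 0, 0) i)) (reg μ r) μ

/-- The logarithmic cost of running a program. -/
def Prog.time : Prog → Mem → ℕ
  | .skip, _ => 1
  | .set _ i j k l m e, μ =>
      1 + i.cost μ + j.cost μ + k.cost μ + l.cost μ + m.cost μ + e.cost μ
  | .seq P Q, μ => P.time μ + Q.time (P.exec μ)
  | .ite e f P Q, μ =>
      1 + e.cost μ + f.cost μ + if e.eval μ ≤ f.eval μ then P.time μ else Q.time μ
  | .loop v r P, μ =>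
      1 + Nat.size (reg μ r) + ∑ i ∈ Finset.range (reg μ r), (1 + Nat.size i +
        P.time (write (iter (fun i ν => P.exec (write ν v (0, 0, 0, 0, 0) i)) i μ)
          v (0, 0, 0, 0, 0) i))

end Pool.Agent.helper80.Sched
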