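import Pool.Agent.helper80.Sched.Lang

/-!
# Logarithmic cost versus number of steps
-/

namespace Pool.Agent.helper80.Sched

/-- Growth constant of an expression. -/
def Expr.growth : Expr → ℕ
  | .const c => c + 1
  | .get _ i j k l m => 1 + i.growth + j.growth + k.growth + l.growth + m.growth
  | .add e f => e.growth + f.growth
  | .sub e f => e.growth + f.growth

/-- Number of nodes of an expression. -/
def Expr.nodes : Expr → ℕ
  | .const _ => 1
  | .get _ i j k l m => 1 + i.nodes + j.nodes + k.nodes + l.nodes + m.nodes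
  | .add e f => 1 + e.nodes + f.nodes
  | .sub e f => 1 + e.nodes + f.nodes

lemma Expr.eval_le (e : Expr) {μ : Mem} {V : ℕ} (hV : 1 ≤ V) (hμ : ∀ A c, μ A c ≤ V) :
    e.eval μ ≤ e.growth * V := by
  induction e with
  | const c =>
    simp only [Expr.eval, Expr.growth]
    calc c ≤ c * V := Nat.le_mul_of_pos_right _ hV
      _ ≤ (c + 1) * V := Nat.mul_le_mul_right _ (by omega)
  | get A i j k l m _ _ _ _ _ =>
    simp only [Expr.eval, Expr.growth]
    calc _ ≤ V := hμ _ _
      _ = 1 * V := (one_mul _).symm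
      _ ≤ _ := Nat.mul_le_mul_right _ (by omega)
  | add e f ihe ihf =>
    simp only [Expr.eval, Expr.growth]
    rw [Nat.add_mul]
    omega
  | sub e f ihe ihf =>
    simp only [Expr.eval, Expr.growth]
    rw [Nat.add_mul]
    omega

lemma size_le_of_le {x G V B : ℕ} (h : x ≤ G * V) (hB : G * V < 2 ^ B) : Nat.size x ≤ B :=
  Nat.size_le.mpr (lt_of_le_of_lt h hB)

lemma Expr.cost_le (e : Expr) {μ : Mem} {V g B : ℕ} (hV : 1 ≤ V) (hμ : ∀ A c, μ A c ≤ V)
    (hg : e.growth ≤ g) (hB : g * V < 2 ^ B) : e.cost μ ≤ e.nodes * (1 + B) := by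
  induction e with
  | const c =>
    have h := Expr.eval_le (.const c) hV hμ
    have h2 : Nat.size c ≤ B := size_le_of_le (h.trans (Nat.mul_le_mul_right _ hg)) hB
    simp only [Expr.cost, Expr.nodes]
    omega
  | get A i j k l m ihi ihj ihk ihl ihm =>
    have h := Expr.eval_le (.get A i j k l m) hV hμ
    have h2 := size_le_of_le (h.trans (Nat.mul_le_mul_right _ hg)) hB
    simp only [Expr.cost, Expr.nodes, Expr.growth, Expr.eval] at *
    have h3 := ihi (by omega)
    have h4 := ihj (by omega)
    have h5 := ihk (by omega)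
    have h6 := ihl (by omega)
    have h7 := ihm (by omega)
    simp only [Nat.add_mul, Nat.one_mul]
    omega
  | add e f ihe ihf =>
    have h := Expr.eval_le (.add e f) hV hμ
    have h2 := size_le_of_le (h.trans (Nat.mul_le_mul_right _ hg)) hB
    simp only [Expr.cost, Expr.nodes, Expr.growth, Expr.eval] at *
    have h3 := ihe (by omega)
    have h4 := ihf (by omega)
    simp only [Nat.add_mul, Nat.one_mul]
    omega
  | sub e f ihe ihf =>
    have h := Expr.eval_le (.sub e f) hV hμ
    have h2 := size_le_of_le (h.trans (Nat.mul_le_mul_right _ hg)) hB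
    simp only [Expr.cost, Expr.nodes, Expr.growth, Expr.eval] at *
    have h3 := ihe (by omega)
    have h4 := ihf (by omega)
    simp only [Nat.add_mul, Nat.one_mul]
    omega

/-- Growth constant of a program. -/
def Prog.growth : Prog → ℕ
  | .skip => 1
  | .set _ i j k l m e =>
      1 + i.growth + j.growth + k.growth + l.growth + m.growth + e.growth
  | .seq P Q => P.growth + Q.growth
  | .ite e f P Q => 1 + e.growth + f.growth + P.growth + Q.growth
  | .loop _ _ P => 1 + P.growth

/-- Number of nodes of a program. -/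
def Prog.nodes : Prog → ℕ
  | .skip => 1
  | .set _ i j k l m e => 1 + i.nodes + j.nodes + k.nodes + l.nodes + m.nodes + e.nodes
  | .seq P Q => P.nodes + Q.nodes
  | .ite e f P Q => 1 + e.nodes + f.nodes + P.nodes + Q.nodes
  | .loop _ _ P => 1 + P.nodes

lemma write_le {μ : Mem} {V : ℕ} (hμ : ∀ A c, μ A c ≤ V) (A : ℕ) (c : Addr) {x W : ℕ}
    (hV : V ≤ W) (hx : x ≤ W) : ∀ B b, write μ A c x B b ≤ W := by
  intro B b
  unfold write
  split_ifs
  · exact hx
  · exact (hμ B b).trans hV

lemma sum_steps_succ (v : ℕ) (P : Prog) (μ : Mem) (k : ℕ) :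
    ∑ i ∈ Finset.range (k + 1), (1 + P.steps (write (iter (bodyAt v P) i μ) v (0, 0, 0, 0, 0) i))
    = ∑ i ∈ Finset.range k, (1 + P.steps (write (iter (bodyAt v P) i μ) v (0, 0, 0, 0, 0) i))
      + (1 + P.steps (write (iter (bodyAt v P) k μ) v (0, 0, 0, 0, 0) k)) :=
  Finset.sum_range_succ _ _

theorem mem_le (P : Prog) : ∀ (μ : Mem) (V g : ℕ), P.growth ≤ g → 1 ≤ V → (∀ A c, μ A c ≤ V) →
    ∀ A c, P.exec μ A c ≤ V * g ^ P.steps μ := by
  induction P with
  | skip =>
    intro μ V g hg hV hμ A c
    simp only [Prog.exec, Prog.steps, Prog.growth, pow_one] at *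
    exact (hμ A c).trans (Nat.le_mul_of_pos_right _ hg)
  | set A i j k l m e =>
    intro μ V g hg hV hμ
    simp only [Prog.exec, Prog.steps, Prog.growth, pow_one] at *
    refine write_le hμ A _ (Nat.le_mul_of_pos_right _ (by omega)) ?_
    refine (Expr.eval_le e hV hμ).trans ?_
    rw [Nat.mul_comm V g]
    exact Nat.mul_le_mul_right _ (by omega)
  | seq P Q ihP ihQ =>
    intro μ V g hg hV hμ A c
    simp only [Prog.exec, Prog.steps, Prog.growth] at *
    rw [pow_add, ← Nat.mul_assoc]
    have hg1 : 1 ≤ g := by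
      rcases Nat.eq_zero_or_pos g with h | h
      · subst h
        have : P.growth = 0 := by omega
        exfalso
        have h1 : ∀ R : Prog, 1 ≤ R.growth := by
          intro R
          induction R with
          | skip => exact le_rfl
          | set => simp only [Prog.growth]; omega
          | seq => simp only [Prog.growth]; omega
          | ite => simp only [Prog.growth]; omega
          | loop => simp only [Prog.growth]; omega
        have := h1 P
        omega
      · exact h
    exact ihQ _ _ g (by omega) (Nat.mul_pos hV (Nat.pow_pos hg1)) (ihP μ V g (by omega) hV hμ) A c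
  | ite e f P Q ihP ihQ =>
    intro μ V g hg hV hμ A c
    simp only [Prog.exec, Prog.steps, Prog.growth] at *
    have hg1 : 1 ≤ g := by omega
    split_ifs
    · refine (ihP μ V g (by omega) hV hμ A c).trans (Nat.mul_le_mul_left _ ?_)
      exact Nat.pow_le_pow_right hg1 (by omega)
    · refine (ihQ μ V g (by omega) hV hμ A c).trans (Nat.mul_le_mul_left _ ?_)
      exact Nat.pow_le_pow_right hg1 (by omega)
  | loop v r P ih =>
    intro μ V g hg hV hμ A c
    have hg1 : 1 ≤ g := by simp only [Prog.growth] at hg; omega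
    have hg2 : P.growth ≤ g := by simp only [Prog.growth] at hg; omega
    rw [exec_loop]
    simp only [Prog.steps]
    have key : ∀ k ≤ reg μ r, ∀ A c, iter (bodyAt v P) k μ A c ≤ V * g ^ (∑ i ∈ Finset.range k,
        (1 + P.steps (write (iter (bodyAt v P) i μ) v (0, 0, 0, 0, 0) i))) := by
      intro k
      induction k with
      | zero => intro _ A c; simpa [iter] using hμ A c
      | succ k ihk =>
        intro hk A c
        have h1 := ihk (by omega)
        rw [sum_steps_succ]
        simp only [iter]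
        set T := ∑ i ∈ Finset.range k,
          (1 + P.steps (write (iter (bodyAt v P) i μ) v (0, 0, 0, 0, 0) i)) with hT
        have hk2 : k ≤ V := by
          have := hμ r (0, 0, 0, 0, 0)
          have h3 : reg μ r ≤ V := this
          omega
        have hpos : 1 ≤ V * g ^ T := Nat.mul_pos hV (Nat.pow_pos hg1)
        have h2 : ∀ B b, write (iter (bodyAt v P) k μ) v (0, 0, 0, 0, 0) k B b ≤ V * g ^ T :=
          write_le h1 v _ le_rfl (hk2.trans (Nat.le_mul_of_pos_right _ (Nat.pow_pos hg1)))
        have h3 := ih _ (V * g ^ T) g hg2 hpos h2 A c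
        refine h3.trans ?_
        rw [Nat.mul_assoc, ← pow_add]
        exact Nat.mul_le_mul_left _ (Nat.pow_le_pow_right hg1 (by omega))
    refine (key _ le_rfl A c).trans (Nat.mul_le_mul_left _ ?_)
    exact Nat.pow_le_pow_right hg1 (by omega)

lemma growth_pos (R : Prog) : 1 ≤ R.growth := by
  induction R with
  | skip => exact le_rfl
  | set => simp only [Prog.growth]; omega
  | seq => simp only [Prog.growth]; omega
  | ite => simp only [Prog.growth]; omega
  | loop => simp only [Prog.growth]; omega

theorem time_le_aux (P : Prog) : ∀ (μ : Mem) (V g B : ℕ), P.growth ≤ g → 1 ≤ V →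
    (∀ A c, μ A c ≤ V) → V * g ^ (P.steps μ + 1) < 2 ^ B →
    P.time μ ≤ P.steps μ * (P.nodes * (1 + B)) := by
  induction P with
  | skip =>
    intro μ V g B hg hV hμ hB
    simp only [Prog.time, Prog.steps, Prog.nodes]
    omega
  | set A i j k l m e =>
    intro μ V g B hg hV hμ hB
    simp only [Prog.time, Prog.steps, Prog.nodes, Prog.growth] at *
    have hg1 : 1 ≤ g := by omega
    have hB' : g * V < 2 ^ B := by
      refine lt_of_le_of_lt ?_ hB
      rw [Nat.mul_comm g V]
      refine Nat.mul_le_mul_left _ ?_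
      calc g = g ^ 1 := (pow_one g).symm
        _ ≤ _ := Nat.pow_le_pow_right hg1 (by omega)
    have h1 := i.cost_le hV hμ (by omega) hB'
    have h2 := j.cost_le hV hμ (by omega) hB'
    have h3 := k.cost_le hV hμ (by omega) hB'
    have h4 := l.cost_le hV hμ (by omega) hB'
    have h5 := m.cost_le hV hμ (by omega) hB'
    have h6 := e.cost_le hV hμ (by omega) hB'
    simp only [Nat.add_mul, Nat.one_mul]
    omega
  | seq P Q ihP ihQ =>
    intro μ V g B hg hV hμ hB
    simp only [Prog.time, Prog.steps, Prog.nodes, Prog.growth] at *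
    have hg1 : 1 ≤ g := le_trans (growth_pos P) (by omega)
    have h1 := ihP μ V g B (by omega) hV hμ (lt_of_le_of_lt (Nat.mul_le_mul_left _
      (Nat.pow_le_pow_right hg1 (by omega))) hB)
    have h2 := ihQ (P.exec μ) (V * g ^ P.steps μ) g B (by omega)
      (Nat.mul_pos hV (Nat.pow_pos hg1)) (mem_le P μ V g (by omega) hV hμ) (by
        rw [Nat.mul_assoc, ← pow_add]
        refine lt_of_le_of_lt (Nat.mul_le_mul_left _ (Nat.pow_le_pow_right hg1 (by omega))) hB)
    calc _ ≤ P.steps μ * (P.nodes * (1 + B)) + Q.steps (P.exec μ) * (Q.nodes * (1 + B)) :=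
          add_le_add h1 h2
      _ ≤ P.steps μ * ((P.nodes + Q.nodes) * (1 + B))
          + Q.steps (P.exec μ) * ((P.nodes + Q.nodes) * (1 + B)) :=
          add_le_add (Nat.mul_le_mul_left _ (Nat.mul_le_mul_right _ (by omega)))
            (Nat.mul_le_mul_left _ (Nat.mul_le_mul_right _ (by omega)))
      _ = _ := by ring
  | ite e f P Q ihP ihQ =>
    intro μ V g B hg hV hμ hB
    simp only [Prog.time, Prog.steps, Prog.nodes, Prog.growth] at *
    have hg1 : 1 ≤ g := by omega
    have hB' : g * V < 2 ^ B := by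
      refine lt_of_le_of_lt ?_ hB
      rw [Nat.mul_comm g V]
      refine Nat.mul_le_mul_left _ ?_
      calc g = g ^ 1 := (pow_one g).symm
        _ ≤ _ := Nat.pow_le_pow_right hg1 (by omega)
    have h1 := e.cost_le hV hμ (by omega) hB'
    have h2 := f.cost_le hV hμ (by omega) hB'
    split_ifs at hB ⊢ with hc
    · have h3 := ihP μ V g B (by omega) hV hμ (lt_of_le_of_lt (Nat.mul_le_mul_left _
        (Nat.pow_le_pow_right hg1 (by omega))) hB)
      have h4 : P.steps μ * (P.nodes * (1 + B)) ≤
          P.steps μ * ((1 + e.nodes + f.nodes + P.nodes + Q.nodes) * (1 + B)) :=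
        Nat.mul_le_mul_left _ (Nat.mul_le_mul_right _ (by omega))
      have h5 : (1 + P.steps μ) * ((1 + e.nodes + f.nodes + P.nodes + Q.nodes) * (1 + B))
        = (1 + B) + e.nodes * (1 + B) + f.nodes * (1 + B) + P.nodes * (1 + B) + Q.nodes * (1 + B)
          + P.steps μ * ((1 + e.nodes + f.nodes + P.nodes + Q.nodes) * (1 + B)) := by ring
      rw [h5]
      omega
    · have h3 := ihQ μ V g B (by omega) hV hμ (lt_of_le_of_lt (Nat.mul_le_mul_left _
        (Nat.pow_le_pow_right hg1 (by omega))) hB)
      have h4 : Q.steps μ * (Q.nodes * (1 + B)) ≤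
          Q.steps μ * ((1 + e.nodes + f.nodes + P.nodes + Q.nodes) * (1 + B)) :=
        Nat.mul_le_mul_left _ (Nat.mul_le_mul_right _ (by omega))
      have h5 : (1 + Q.steps μ) * ((1 + e.nodes + f.nodes + P.nodes + Q.nodes) * (1 + B))
        = (1 + B) + e.nodes * (1 + B) + f.nodes * (1 + B) + P.nodes * (1 + B) + Q.nodes * (1 + B)
          + Q.steps μ * ((1 + e.nodes + f.nodes + P.nodes + Q.nodes) * (1 + B)) := by ring
      rw [h5]
      omega
  | loop v r P ih =>
    intro μ V g B hg hV hμ hB
    have hg1 : 1 ≤ g := by simp only [Prog.growth] at hg; omega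
    have hg2 : P.growth ≤ g := by simp only [Prog.growth] at hg; omega
    simp only [Prog.steps] at hB
    have hN : reg μ r ≤ V := hμ r _
    have hVB : V < 2 ^ B := by
      refine lt_of_le_of_lt ?_ hB
      exact Nat.le_mul_of_pos_right _ (Nat.pow_pos hg1)
    -- memory along the iterations
    have key : ∀ k ≤ reg μ r, ∀ A c, iter (bodyAt v P) k μ A c ≤ V * g ^ (∑ i ∈ Finset.range k,
        (1 + P.steps (write (iter (bodyAt v P) i μ) v (0, 0, 0, 0, 0) i))) := by
      intro k
      induction k with
      | zero => intro _ A c; simpa [iter] using hμ A c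
      | succ k ihk =>
        intro hk A c
        have h1 := ihk (by omega)
        rw [sum_steps_succ]
        simp only [iter]
        set T := ∑ i ∈ Finset.range k,
          (1 + P.steps (write (iter (bodyAt v P) i μ) v (0, 0, 0, 0, 0) i)) with hT
        have hpos : 1 ≤ V * g ^ T := Nat.mul_pos hV (Nat.pow_pos hg1)
        have h2 : ∀ B b, write (iter (bodyAt v P) k μ) v (0, 0, 0, 0, 0) k B b ≤ V * g ^ T :=
          write_le h1 v _ le_rfl ((by omega : k ≤ V).trans
            (Nat.le_mul_of_pos_right _ (Nat.pow_pos hg1)))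
        have h3 := mem_le P _ (V * g ^ T) g hg2 hpos h2 A c
        refine h3.trans ?_
        rw [Nat.mul_assoc, ← pow_add]
        exact Nat.mul_le_mul_left _ (Nat.pow_le_pow_right hg1 (by omega))
    have hT : ∀ k ≤ reg μ r, ∑ i ∈ Finset.range k,
        (1 + P.steps (write (iter (bodyAt v P) i μ) v (0, 0, 0, 0, 0) i)) ≤
        ∑ i ∈ Finset.range (reg μ r),
        (1 + P.steps (write (iter (bodyAt v P) i μ) v (0, 0, 0, 0, 0) i)) := by
      intro k hk
      exact Finset.sum_le_sum_of_subset (Finset.range_subset_range.mpr hk)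
    have hiter : ∀ k < reg μ r, 1 + Nat.size k +
        P.time (write (iter (bodyAt v P) k μ) v (0, 0, 0, 0, 0) k)
        ≤ (1 + P.steps (write (iter (bodyAt v P) k μ) v (0, 0, 0, 0, 0) k))
          * ((1 + P.nodes) * (1 + B)) := by
      intro k hk
      have h1 := key k hk.le
      have hTk := hT (k + 1) hk
      rw [sum_steps_succ] at hTk
      set T := ∑ i ∈ Finset.range k,
          (1 + P.steps (write (iter (bodyAt v P) i μ) v (0, 0, 0, 0, 0) i)) with hTdef
      have hpos : 1 ≤ V * g ^ T := Nat.mul_pos hV (Nat.pow_pos hg1)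
      have h2 : ∀ B b, write (iter (bodyAt v P) k μ) v (0, 0, 0, 0, 0) k B b ≤ V * g ^ T :=
          write_le h1 v _ le_rfl ((by omega : k ≤ V).trans
            (Nat.le_mul_of_pos_right _ (Nat.pow_pos hg1)))
      have h3 := ih _ (V * g ^ T) g B hg2 hpos h2 (by
        rw [Nat.mul_assoc, ← pow_add]
        refine lt_of_le_of_lt (Nat.mul_le_mul_left _ (Nat.pow_le_pow_right hg1 ?_)) hB
        omega)
      have h4 : Nat.size k ≤ B := Nat.size_le.mpr (by omega)
      set s := P.steps (write (iter (bodyAt v P) k μ) v (0, 0, 0, 0, 0) k) with hs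
      have h5 : (1 + s) * ((1 + P.nodes) * (1 + B))
          = (1 + B) + s * (P.nodes * (1 + B)) + s * (1 + B) + P.nodes * (1 + B) := by ring
      rw [h5]
      omega
    have hsum := Finset.sum_le_sum (fun k hk => hiter k (Finset.mem_range.mp hk))
    have hsz : Nat.size (reg μ r) ≤ B := Nat.size_le.mpr (by omega)
    have e1 : (Prog.loop v r P).time μ = 1 + Nat.size (reg μ r) + ∑ k ∈ Finset.range (reg μ r),
      (1 + Nat.size k + P.time (write (iter (bodyAt v P) k μ) v (0, 0, 0, 0, 0) k)) := rfl
    rw [e1]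
    simp only [Prog.steps, Prog.nodes]
    rw [← Finset.sum_mul] at hsum
    set Tt := ∑ i ∈ Finset.range (reg μ r),
        (1 + P.steps (write (iter (bodyAt v P) i μ) v (0, 0, 0, 0, 0) i)) with hTt
    have h6 : (1 + Tt) * ((1 + P.nodes) * (1 + B))
        = (1 + B) + P.nodes * (1 + B) + Tt * ((1 + P.nodes) * (1 + B)) := by ring
    rw [h6]
    omega

/-- The logarithmic cost is bounded in terms of the number of steps. -/
theorem time_le (P : Prog) (μ : Mem) (V : ℕ) (hV : 1 ≤ V) (hμ : ∀ A c, μ A c ≤ V) (t : ℕ)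
    (ht : P.steps μ ≤ t) :
    P.time μ ≤ t * (P.nodes * (1 + (Nat.size V + (t + 1) * Nat.size P.growth))) := by
  refine (time_le_aux P μ V P.growth (Nat.size V + (t + 1) * Nat.size P.growth) le_rfl hV hμ
    ?_).trans (Nat.mul_le_mul_right _ ht)
  have h1 : V < 2 ^ Nat.size V := Nat.lt_size_self V
  have h2 : P.growth ^ (P.steps μ + 1) ≤ 2 ^ ((t + 1) * Nat.size P.growth) := by
    calc P.growth ^ (P.steps μ + 1) ≤ P.growth ^ (t + 1) :=
          Nat.pow_le_pow_right (growth_pos P) (by omega)
      _ ≤ (2 ^ Nat.size P.growth) ^ (t + 1) :=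
          Nat.pow_le_pow_left (Nat.lt_size_self _).le _
      _ = _ := by rw [← pow_mul, Nat.mul_comm]
  rw [pow_add 2]
  exact Nat.mul_lt_mul_of_lt_of_le h1 h2 (Nat.pow_pos (by norm_num))

end Pool.Agent.helper80.Sched
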