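import Pool.Agent.helper80.Sched.Round

/-!
# Every schedule is dominated by a combinatorial solution
-/

namespace Pool.Agent.helper80.Sched

open Set

/-- Position of a job, given a permutation that lists the jobs. -/
noncomputable def posOf {n : ℕ} (π : Equiv.Perm (Fin n)) (j : ℕ) : ℕ :=
  if h : j < n then (π.symm ⟨j, h⟩).val + 1 else 0

lemma posOf_bij {n : ℕ} (π : Equiv.Perm (Fin n)) :
    Set.BijOn (posOf π) (Finset.range n : Set ℕ) (Set.Ioo 0 (n + 1)) := by
  refine ⟨?_, ?_, ?_⟩
  · intro j hj
    rw [Finset.mem_coe, Finset.mem_range] at hj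
    simp only [posOf, hj, dif_pos, mem_Ioo]
    have := (π.symm ⟨j, hj⟩).isLt
    omega
  · intro i hi j hj h
    rw [Finset.mem_coe, Finset.mem_range] at hi hj
    simp only [posOf, hi, hj, dif_pos] at h
    have h1 : π.symm ⟨i, hi⟩ = π.symm ⟨j, hj⟩ := Fin.ext (by omega)
    have h2 := π.symm.injective h1
    exact Fin.mk.inj_iff.mp h2
  · intro r hr
    rw [mem_Ioo] at hr
    refine ⟨(π ⟨r - 1, by omega⟩).val, by simp, ?_⟩
    simp only [posOf, Fin.isLt, dif_pos, Fin.eta, Equiv.symm_apply_apply]
    omega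

lemma exists_sorted {n p : ℕ} (S : Schedule n p) :
    ∃ (π : Equiv.Perm (Fin n)) (c : ℕ → ℝ), c 0 = 0 ∧ (∀ r < n, c r ≤ c (r + 1)) ∧
      (∀ r < n, ((r : ℝ) + 1) * p ≤ c r + c (r + 1)) ∧
      ∀ j : Fin n, S.completion j = c (posOf π j) := by
  classical
  set π := Tuple.sort S.completion with hπ
  have hmono : Monotone (S.completion ∘ π) := Tuple.monotone_sort S.completion
  set c : ℕ → ℝ := fun r => if h : 0 < r ∧ r ≤ n then S.completion (π ⟨r - 1, by omega⟩) else 0
    with hc
  have hc0 : c 0 = 0 := by simp [hc]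
  have hcs : ∀ r (h : r < n), c (r + 1) = S.completion (π ⟨r, h⟩) := by
    intro r h
    have : 0 < r + 1 ∧ r + 1 ≤ n := ⟨by omega, by omega⟩
    simp only [hc, this, dif_pos, and_self]
    congr 1
  have hcn : ∀ r, 0 ≤ c r := by
    intro r
    rcases Nat.eq_zero_or_pos r with h | h
    · rw [h, hc0]
    · obtain ⟨r', rfl⟩ : ∃ r', r = r' + 1 := ⟨r - 1, by omega⟩
      by_cases hr : r' < n
      · rw [hcs r' hr]; exact completion_nonneg S _
      · have : ¬ (0 < r' + 1 ∧ r' + 1 ≤ n) := by omega
        simp only [hc, this, dif_neg, not_false_eq_true, le_refl]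
  have hcm : ∀ r < n, c r ≤ c (r + 1) := by
    intro r hr
    rcases Nat.eq_zero_or_pos r with h | h
    · rw [h, hc0]; exact hcn _
    · obtain ⟨r', rfl⟩ : ∃ r', r = r' + 1 := ⟨r - 1, by omega⟩
      rw [hcs r' (by omega), hcs (r' + 1) hr]
      exact hmono (Fin.mk_le_mk.mpr (by omega))
  refine ⟨π, c, hc0, hcm, ?_, ?_⟩
  · intro r hr
    have hcard : ((Finset.univ.filter (fun i : Fin n => i.val < r)).map π.toEmbedding).card = r := by
      rw [Finset.card_map]
      have := Fin.card_filter_val_lt (n := n) (m := r)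
      rw [this]; omega
    have := necessity S ((Finset.univ.filter (fun i : Fin n => i.val < r)).map π.toEmbedding)
      (π ⟨r, hr⟩) ?_ (c r) (c (r + 1)) (hcn r) (hcm r hr) ?_ ?_
    · rw [hcard] at this; exact this
    · rw [Finset.mem_map]
      rintro ⟨i, hi, hi2⟩
      have := π.injective hi2
      rw [this] at hi
      simp at hi
    · intro j hj
      rw [Finset.mem_map] at hj
      obtain ⟨i, hi, rfl⟩ := hj
      rw [Finset.mem_filter] at hi
      obtain ⟨r', rfl⟩ : ∃ r', r = r' + 1 := ⟨r - 1, by omega⟩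
      rw [hcs r' (by omega)]
      exact hmono (Fin.mk_le_mk.mpr (by omega) : i ≤ ⟨r', by omega⟩)
    · rw [hcs r hr]
  · intro j
    have h1 : posOf π j = (π.symm j).val + 1 := by simp [posOf]
    rw [h1, hcs _ (π.symm j).isLt]
    simp

/-- Every schedule is dominated by a combinatorial solution. -/
theorem exists_feas_of_schedule {n p : ℕ} (S : Schedule n p) (w d : Fin n → ℕ) (w' d' : ℕ → ℕ)
    (hw : ∀ j : Fin n, w' j = w j) (hd : ∀ j : Fin n, d' j = d j) :
    ∃ σ X : ℕ → ℕ, Feas p (Finset.range n) 0 0 (n + 1) (2 * p) σ X ∧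
      (cost p w' (fun j => 2 * d' j) (Finset.range n) σ X : ℝ) ≤ 2 * S.cost w d := by
  classical
  obtain ⟨π, c, hc0, hcm, hcc, hcj⟩ := exists_sorted S
  obtain ⟨θ, hθ0, hθ1, hθ⟩ := exists_theta Finset.univ (fun j : Fin n => (w j : ℝ))
    (fun _ _ => Nat.cast_nonneg _) (fun j => S.completion j) (fun j => (d j : ℤ))
  set D : ℕ → ℤ := fun r => rnd θ (c r) with hD
  have hD0 : D 0 = 0 := by rw [hD]; simp only [hc0]; exact rnd_zero θ hθ0 hθ1
  have hDm : ∀ r < n, D r ≤ D (r + 1) := fun r hr => rnd_mono θ (hcm r hr)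
  have hDc : ∀ r < n, 2 * (((r : ℤ) + 1) * p) ≤ D r + D (r + 1) := by
    intro r hr
    refine rnd_add_ge θ _ _ _ ?_
    have := hcc r hr
    push_cast
    exact this
  have hDlow : ∀ r ≤ n, (r : ℤ) * p ≤ D r := by
    intro r hr
    rcases Nat.eq_zero_or_pos r with h | h
    · rw [h, hD0]; simp
    · obtain ⟨r', rfl⟩ : ∃ r', r = r' + 1 := ⟨r - 1, by omega⟩
      have h1 := hDm r' (by omega)
      have h2 := hDc r' (by omega)
      push_cast
      linarith
  -- capped offsets
  set X : ℕ → ℕ := fun r => if r ≤ n then (min (D r) (((r : ℤ) + 2) * p) - r * p).toNat else 2 * p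
    with hX
  have hXv : ∀ r ≤ n, ((r * p + X r : ℕ) : ℤ) = min (D r) (((r : ℤ) + 2) * p) := by
    intro r hr
    simp only [hX, hr, if_true]
    push_cast
    rw [Int.toNat_of_nonneg]
    · ring
    · have h1 := hDlow r hr
      have h2 : (r : ℤ) * p ≤ ((r : ℤ) + 2) * p := by nlinarith [Int.natCast_nonneg p]
      have := le_min h1 h2
      linarith
  refine ⟨posOf π, X, ⟨by omega, ?_, ?_, ?_, ?_, posOf_bij π⟩, ?_⟩
  · simp only [hX, Nat.zero_le, if_true, hD0]
    simp
  · simp [hX]
  · intro r _ hr
    rcases Nat.lt_or_ge r n with h | h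
    · have h1 := hXv r h.le
      have h2 := hXv (r + 1) h
      have h3 := hDm r h
      have h4 := hDc r h
      have h5 := hDlow r h.le
      have h6 := hDlow (r + 1) h
      push_cast at h1 h2 h6
      unfold OK
      have hp0 : (0 : ℤ) ≤ p := Int.natCast_nonneg p
      constructor
      · have : (p : ℤ) ≤ X r + X (r + 1) := by
          rcases le_total (D r) (((r : ℤ) + 2) * p) with a | a <;>
          rcases le_total (D (r + 1)) ((((r : ℤ) + 1) + 2) * p) with b | b
          · rw [min_eq_left a] at h1; rw [min_eq_left b] at h2; nlinarith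
          · rw [min_eq_left a] at h1; rw [min_eq_right b] at h2; nlinarith
          · rw [min_eq_right a] at h1; rw [min_eq_left b] at h2; nlinarith
          · rw [min_eq_right a] at h1; rw [min_eq_right b] at h2; nlinarith
        exact_mod_cast this
      · have : (X r : ℤ) ≤ X (r + 1) + p := by
          rcases le_total (D r) (((r : ℤ) + 2) * p) with a | a <;>
          rcases le_total (D (r + 1)) ((((r : ℤ) + 1) + 2) * p) with b | b
          · rw [min_eq_left a] at h1; rw [min_eq_left b] at h2; nlinarith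
          · rw [min_eq_left a] at h1; rw [min_eq_right b] at h2; nlinarith
          · rw [min_eq_right a] at h1; rw [min_eq_left b] at h2; nlinarith
          · rw [min_eq_right a] at h1; rw [min_eq_right b] at h2; nlinarith
        exact_mod_cast this
    · have hrn : r = n := by omega
      have h1 := hXv n le_rfl
      have h2 : X (n + 1) = 2 * p := by simp [hX]
      have h3 : min (D n) (((n : ℤ) + 2) * p) ≤ ((n : ℤ) + 2) * p := min_le_right _ _
      rw [hrn, h2]
      push_cast at h1
      unfold OK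
      constructor
      · omega
      · have : (X n : ℤ) ≤ 2 * p + p := by nlinarith [Int.natCast_nonneg p]
        exact_mod_cast this
  · intro r _ hr
    rcases Nat.lt_or_ge r (n + 1) with h | h
    · have h1 := hXv r (by omega)
      have h3 : min (D r) (((r : ℤ) + 2) * p) ≤ ((r : ℤ) + 2) * p := min_le_right _ _
      push_cast at h1
      have : (X r : ℤ) ≤ 2 * p := by nlinarith
      exact_mod_cast this
    · have : ¬ r ≤ n := by omega
      simp only [hX, this, if_false, le_refl]
  · -- cost
    have hpos : ∀ j : Fin n, posOf π j ≤ n := by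
      intro j
      have := (posOf_bij π).1 (show (j : ℕ) ∈ (Finset.range n : Set ℕ) by simp)
      rw [mem_Ioo] at this; omega
    unfold cost
    rw [Finset.sum_range (fun j => w' j * ((posOf π j * p + X (posOf π j)) - 2 * d' j))]
    push_cast
    unfold Schedule.cost
    refine le_trans ?_ hθ
    refine Finset.sum_le_sum fun j _ => ?_
    rw [hw j]
    refine mul_le_mul_of_nonneg_left ?_ (Nat.cast_nonneg _)
    have h1 := hXv (posOf π j) (hpos j)
    have h2 : min (D (posOf π j)) ((((posOf π j : ℕ) : ℤ) + 2) * p) ≤ D (posOf π j) := min_le_left _ _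
    have h3 : D (posOf π j) = rnd θ (S.completion j) := by rw [hD, hcj j]
    rw [hd j]
    rcases le_total (2 * d j) (posOf π j * p + X (posOf π j)) with h | h
    · rw [Nat.cast_sub h]
      refine le_trans ?_ (le_max_right _ _)
      have h4 : ((posOf π j * p + X (posOf π j) : ℕ) : ℤ) ≤ rnd θ (S.completion j) := by
        rw [h1, ← h3]; exact h2
      have h5 : ((posOf π j * p + X (posOf π j) : ℕ) : ℝ) ≤ rnd θ (S.completion j) := by
        exact_mod_cast h4
      push_cast at h5 ⊢
      linarith
    · rw [Nat.sub_eq_zero_of_le h]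
      simp

end Pool.Agent.helper80.Sched
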