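import Pool.Agent.helper80.Sched.Spec2
import Pool.Agent.helper80.Sched.Nec
import Pool.Agent.helper80.Sched.Greedy
import Pool.Agent.helper80.Sched.Input

/-!
# The main theorem
-/

namespace Pool.Agent.helper80.Sched

open Finset

/-- Capped doubled due dates. -/
def dl (n p : ℕ) (d : ℕ → ℕ) (j : ℕ) : ℕ := min (2 * d j) ((n + 2) * p)

lemma sub_full (n p : ℕ) (w d : ℕ → ℕ) :
    sub p (dl n p d) (jobAt n w) n 0 0 (n + 1) (2 * p) = range n := by
  unfold sub
  rw [hv_jobAt]
  refine filter_true_of_mem ?_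
  intro j _
  unfold lim dl
  rw [if_pos rfl, if_neg (by omega)]
  refine ⟨by omega, ?_⟩
  have h1 : min (2 * d j) ((n + 2) * p) ≤ (n + 2) * p := min_le_right _ _
  have h2 : (n + 2) * p = n * p + 2 * p := by ring
  have h3 : (n + 1) * p = n * p + p := by ring
  omega

lemma cost_dl {n p : ℕ} {w d σ X : ℕ → ℕ} (hF : Feas p (range n) 0 0 (n + 1) (2 * p) σ X) :
    cost p w (dl n p d) (range n) σ X = cost p w (fun j => 2 * d j) (range n) σ X := by
  unfold cost dl
  refine sum_congr rfl fun j hj => ?_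
  congr 1
  show σ j * p + X (σ j) - min (2 * d j) ((n + 2) * p) = σ j * p + X (σ j) - 2 * d j
  have h1 : σ j ∈ Set.Ioo 0 (n + 1) := hF.bij.1 hj
  rw [Set.mem_Ioo] at h1
  have h2 := hF.cap (σ j) (by omega) (by omega)
  have h3 : σ j * p ≤ n * p := Nat.mul_le_mul_right _ (by omega)
  have h4 : (n + 2) * p = n * p + 2 * p := by ring
  have h5 : σ j * p + X (σ j) ≤ (n + 2) * p := by omega
  rcases le_total (2 * d j) ((n + 2) * p) with h | h
  · rw [min_eq_left h]
  · rw [min_eq_right h]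
    omega

lemma exists_feas (n p : ℕ) : ∃ σ X, Feas p (range n) 0 0 (n + 1) (2 * p) σ X := by
  refine ⟨fun j => j + 1, fun r => if r = 0 then 0 else 2 * p, ⟨by omega, by simp, by simp,
    ?_, ?_, ?_, ?_, ?_⟩⟩
  · intro r _ _
    unfold OK
    by_cases h : r = 0
    · subst h; simp; omega
    · simp [h]; omega
  · intro r _ _
    show (if r = 0 then 0 else 2 * p) ≤ 2 * p
    split_ifs <;> omega
  · intro j hj
    rw [mem_coe, mem_range] at hj
    rw [Set.mem_Ioo]
    show 0 < j + 1 ∧ j + 1 < n + 1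
    omega
  · intro i _ j _ h
    have : i + 1 = j + 1 := h
    omega
  · intro r hr
    rw [Set.mem_Ioo] at hr
    exact ⟨r - 1, by rw [mem_coe, mem_range]; omega, by show r - 1 + 1 = r; omega⟩

lemma isLeast_schedule {n p v : ℕ} (w d : Fin n → ℕ)
    (hv : IsLeast (costs p (ext w) (dl n p (ext d)) (jobAt n (ext w)) n 0 0 (n + 1) (2 * p)) v) :
    IsLeast {x : ℝ | ∃ S : Schedule n p, S.cost w d = x} ((v : ℝ) / 2) := by
  have hw : ∀ j : Fin n, ext w j = w j := by intro j; simp [ext]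
  have hd : ∀ j : Fin n, ext d j = d j := by intro j; simp [ext]
  -- every schedule costs at least `v / 2`
  have hlow : ∀ S : Schedule n p, (v : ℝ) / 2 ≤ S.cost w d := by
    intro S
    obtain ⟨σ, X, hF, hle⟩ := exists_feas_of_schedule S w d (ext w) (ext d) hw hd
    have hmem : cost p (ext w) (dl n p (ext d)) (range n) σ X ∈
        costs p (ext w) (dl n p (ext d)) (jobAt n (ext w)) n 0 0 (n + 1) (2 * p) := by
      refine ⟨σ, X, ?_, ?_⟩
      · rw [sub_full]; exact hF
      · rw [sub_full]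
    have h1 := hv.2 hmem
    rw [cost_dl hF] at h1
    have h2 : (v : ℝ) ≤ (cost p (ext w) (fun j => 2 * ext d j) (range n) σ X : ℝ) := by
      exact_mod_cast h1
    linarith
  constructor
  · obtain ⟨σ, X, hF, hc⟩ := hv.1
    rw [sub_full] at hF hc
    obtain ⟨S, hS⟩ := exists_schedule_of_feas w d (ext w) (ext d) hw hd σ X hF
    rw [← cost_dl hF, hc] at hS
    refine ⟨S, le_antisymm ?_ (hlow S)⟩
    linarith
  · rintro x ⟨S, rfl⟩
    exact hlow S

/-- The least value of the combinatorial problem. -/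
lemma tab_full {n p : ℕ} (w d : Fin n → ℕ) :
    ∃ v, tab p (ext w) (dl n p (ext d)) (jobAt n (ext w)) (n, 0, 0, n + 1, 2 * p) = v + 1 ∧
      IsLeast (costs p (ext w) (dl n p (ext d)) (jobAt n (ext w)) n 0 0 (n + 1) (2 * p)) v := by
  obtain ⟨σ, X, hF⟩ := exists_feas n p
  have hmem : cost p (ext w) (dl n p (ext d)) (range n) σ X ∈
        costs p (ext w) (dl n p (ext d)) (jobAt n (ext w)) n 0 0 (n + 1) (2 * p) := by
      refine ⟨σ, X, ?_, ?_⟩
      · rw [sub_full]; exact hF
      · rw [sub_full]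
  have h1 := optv_pos hmem
  have h2 := optv_spec h1.1
  refine ⟨_, ?_, h2⟩
  unfold tab
  simp only
  omega

/-- Memory after setting the processing time. -/
def start (n p : ℕ) (w d : Fin n → ℕ) (K : ℕ) : Mem :=
  write (input n w d K) 1 (0, 0, 0, 0, 0) p

lemma start_reg (n p : ℕ) (w d : Fin n → ℕ) (K : ℕ) :
    reg (start n p w d K) 0 = n ∧ reg (start n p w d K) 1 = p ∧ reg (start n p w d K) 2 = K ∧
    (∀ j < n, start n p w d K 3 (j, 0, 0, 0, 0) = ext w j) ∧
    (∀ j < n, start n p w d K 4 (j, 0, 0, 0, 0) = ext d j) ∧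
    (∀ A, 5 ≤ A → ∀ c, start n p w d K A c = 0) := by
  refine ⟨?_, ?_, ?_, ?_, ?_, ?_⟩
  · simp [start, write, input]
  · simp [start]
  · simp [start, write, input]
  · intro j _; simp [start, write, input]
  · intro j _; simp [start, write, input]
  · intro A hA c
    have h0 : A ≠ 0 := by omega
    have h1 : A ≠ 1 := by omega
    have h2 : A ≠ 2 := by omega
    have h3 : A ≠ 3 := by omega
    have h4 : A ≠ 4 := by omega
    simp [start, write, input, h0, h1, h2, h3, h4]

/-- Facts about the memory before the second part of the program. -/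
lemma mid_spec (n p : ℕ) (w d : Fin n → ℕ) (K : ℕ) :
    let μ := q3.exec (q2.exec (q1.exec (start n p w d K)))
    reg μ 0 = n ∧ reg μ 1 = p ∧ reg μ 2 = K ∧ reg μ 7 = n + 2 ∧ reg μ 8 = 2 * p + 1 ∧
    reg μ 16 = (n + 3) * p ∧ (∀ r ≤ n + 2, μ 9 (r, 0, 0, 0, 0) = r * p) ∧
    (∀ j < n, μ 3 (j, 0, 0, 0, 0) = ext w j) ∧ (∀ j < n, μ 4 (j, 0, 0, 0, 0) = ext d j) ∧
    (∀ c, μ 12 c = 0) ∧ (∀ c, μ 14 c = 0) := by
  intro μ
  obtain ⟨s0, s1, s2, s3, s4, s5⟩ := start_reg n p w d K
  obtain ⟨a7, a8⟩ := q1_spec s0 s1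
  set μ1 := q1.exec (start n p w d K) with hμ1
  have f1 : ∀ B, B ∉ q1.writes → μ1 B = start n p w d K B := fun B hB => frame _ _ _ hB
  have b1 : reg μ1 1 = p := by show μ1 1 _ = _; rw [f1 1 (by decide)]; exact s1
  have b9 : ∀ c, μ1 9 c = 0 := by
    intro c; rw [f1 9 (by decide)]; exact s5 9 (by norm_num) c
  have c9 := q2_spec a7 b1 b9
  set μ2 := q2.exec μ1 with hμ2
  have f2 : ∀ B, B ∉ q2.writes → μ2 B = μ1 B := fun B hB => frame _ _ _ hB
  have c7 : reg μ2 7 = n + 2 := by show μ2 7 _ = _; rw [f2 7 (by decide)]; exact a7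
  have c1 : reg μ2 1 = p := by show μ2 1 _ = _; rw [f2 1 (by decide)]; exact b1
  have d16 := q3_spec c7 c1 (c9 (n + 2) le_rfl)
  have hμ : μ = q3.exec μ2 := rfl
  have f3 : ∀ B, B ∉ q3.writes → μ B = μ2 B := fun B hB => by rw [hμ]; exact frame _ _ _ hB
  refine ⟨?_, ?_, ?_, ?_, ?_, ?_, ?_, ?_, ?_, ?_, ?_⟩
  · show μ 0 _ = _; rw [f3 0 (by decide), f2 0 (by decide), f1 0 (by decide)]; exact s0
  · show μ 1 _ = _; rw [f3 1 (by decide)]; exact c1
  · show μ 2 _ = _; rw [f3 2 (by decide), f2 2 (by decide), f1 2 (by decide)]; exact s2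
  · show μ 7 _ = _; rw [f3 7 (by decide)]; exact c7
  · show μ 8 _ = _; rw [f3 8 (by decide), f2 8 (by decide)]; exact a8
  · rw [hμ, d16]
  · intro r hr; rw [f3 9 (by decide)]; exact c9 r hr
  · intro j hj; rw [f3 3 (by decide), f2 3 (by decide), f1 3 (by decide)]; exact s3 j hj
  · intro j hj; rw [f3 4 (by decide), f2 4 (by decide), f1 4 (by decide)]; exact s4 j hj
  · intro c; rw [f3 12 (by decide), f2 12 (by decide), f1 12 (by decide)]
    exact s5 12 (by norm_num) c
  · intro c; rw [f3 14 (by decide), f2 14 (by decide), f1 14 (by decide)]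
    exact s5 14 (by norm_num) c

/-- Correctness of the program. -/
theorem qA_spec (n p : ℕ) (w d : Fin n → ℕ) (K : ℕ) :
    ∃ v : ℕ, reg (qA.exec (start n p w d K)) 6 = v ∧
      (reg (qA.exec (start n p w d K)) 5 = if v ≤ 2 * K then 1 else 0) ∧
      IsLeast {x : ℝ | ∃ S : Schedule n p, S.cost w d = x} ((v : ℝ) / 2) := by
  obtain ⟨m0, m1, m2, m7, m8, m16, m9, m3, m4, m12, m14⟩ := mid_spec n p w d K
  set μ := q3.exec (q2.exec (q1.exec (start n p w d K))) with hμ
  obtain ⟨v, hv1, hv2⟩ := tab_full (n := n) (p := p) w d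
  have hexec : qA.exec (start n p w d K) = qB.exec μ := rfl
  rw [hexec]
  -- stage 4
  have s11 := q4_spec m0 m7 ((n + 2) * p) (m9 (n + 2) le_rfl) m4
  set μ4 := q4.exec μ with hμ4
  have f4 : ∀ B, B ∉ q4.writes → μ4 B = μ B := fun B hB => frame _ _ _ hB
  -- stage 5
  have r7 : reg μ4 7 = n + 2 := by show μ4 7 _ = _; rw [f4 7 (by decide)]; exact m7
  have r8 : reg μ4 8 = 2 * p + 1 := by show μ4 8 _ = _; rw [f4 8 (by decide)]; exact m8
  have s10 := q5_spec (p := p) r7 r8 (by
    intro a ha; rw [f4 9 (by decide)]; exact m9 a (by omega))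
  set μ5 := q5.exec μ4 with hμ5
  have f5 : ∀ B, B ∉ q5.writes → μ5 B = μ4 B := fun B hB => frame _ _ _ hB
  -- stage 6
  have s12 := q6_spec (μ := μ5) (n := n) (w := ext w)
    (by show μ5 0 _ = _; rw [f5 0 (by decide), f4 0 (by decide)]; exact m0)
    (by intro j hj; rw [f5 3 (by decide), f4 3 (by decide)]; exact m3 j hj)
    (by intro c; rw [f5 12 (by decide), f4 12 (by decide)]; exact m12 c)
  set μ6 := q6.exec μ5 with hμ6
  have f6 : ∀ B, B ∉ q6.writes → μ6 B = μ5 B := fun B hB => frame _ _ _ hB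
  -- stage 7
  have s13 := q7_spec (μ := μ6) (n := n) (w := ext w)
    (by show μ6 0 _ = _; rw [f6 0 (by decide), f5 0 (by decide), f4 0 (by decide)]; exact m0) s12
  set μ7 := q7.exec μ6 with hμ7
  have f7 : ∀ B, B ∉ q7.writes → μ7 B = μ6 B := fun B hB => frame _ _ _ hB
  -- stage 8
  have s14 := q8_spec (μ := μ7) (n := n) (N := n + 2) (M := 2 * p + 1) (T := (n + 3) * p) (p := p)
    (w := ext w) (δ := dl n p (ext d))
    (by show μ7 0 _ = _
        rw [f7 0 (by decide), f6 0 (by decide), f5 0 (by decide), f4 0 (by decide)]; exact m0)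
    (by show μ7 7 _ = _
        rw [f7 7 (by decide), f6 7 (by decide), f5 7 (by decide), f4 7 (by decide)]; exact m7)
    (by show μ7 8 _ = _
        rw [f7 8 (by decide), f6 8 (by decide), f5 8 (by decide), f4 8 (by decide)]; exact m8)
    (by show μ7 16 _ = _
        rw [f7 16 (by decide), f6 16 (by decide), f5 16 (by decide), f4 16 (by decide)]; exact m16)
    (by intro j hj
        rw [f7 3 (by decide), f6 3 (by decide), f5 3 (by decide), f4 3 (by decide)]; exact m3 j hj)
    (by intro j hj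
        rw [f7 11 (by decide), f6 11 (by decide), f5 11 (by decide)]; exact s11 j hj)
    (by intro a ha
        rw [f7 9 (by decide), f6 9 (by decide), f5 9 (by decide), f4 9 (by decide)]
        exact m9 a (by omega))
    (by intro c
        rw [f7 14 (by decide), f6 14 (by decide), f5 14 (by decide), f4 14 (by decide)]
        exact m14 c)
    (by intro r hr z hz
        have h1 : r * p ≤ (n + 1) * p := Nat.mul_le_mul_right _ (by omega)
        have h2 : (n + 3) * p = (n + 1) * p + 2 * p := by ring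
        omega)
  set μ8 := q8.exec μ7 with hμ8
  have f8 : ∀ B, B ∉ q8.writes → μ8 B = μ7 B := fun B hB => frame _ _ _ hB
  -- stage 9
  have t7 : reg μ8 7 = n + 2 := by
    show μ8 7 _ = _
    rw [f8 7 (by decide), f7 7 (by decide), f6 7 (by decide), f5 7 (by decide),
      f4 7 (by decide)]; exact m7
  have t8 : reg μ8 8 = 2 * p + 1 := by
    show μ8 8 _ = _
    rw [f8 8 (by decide), f7 8 (by decide), f6 8 (by decide), f5 8 (by decide),
      f4 8 (by decide)]; exact m8
  have t1 : reg μ8 1 = p := by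
    show μ8 1 _ = _
    rw [f8 1 (by decide), f7 1 (by decide), f6 1 (by decide), f5 1 (by decide),
      f4 1 (by decide)]; exact m1
  have s15 := q9_spec (w := ext w) (δ := dl n p (ext d)) (J := jobAt n (ext w)) t7 t8 t1 rfl
  set μ9 := q9.exec μ8 with hμ9
  have f9 : ∀ B, B ∉ q9.writes → μ9 B = μ8 B := fun B hB => frame _ _ _ hB
  -- stage 10
  have s16 := q10_spec (μ := μ9) (n := n) (N := n + 2) (M := 2 * p + 1) (p := p) (w := ext w)
    (δ := dl n p (ext d)) (J := jobAt n (ext w)) (jobAt_injOn _ _)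
    (fun s hs => (jobAt_spec hs).1) (fun s t => jobAt_mono s t) rfl
    (by show μ9 0 _ = _
        rw [f9 0 (by decide), f8 0 (by decide), f7 0 (by decide), f6 0 (by decide),
          f5 0 (by decide), f4 0 (by decide)]; exact m0)
    (by show μ9 7 _ = _; rw [f9 7 (by decide)]; exact t7)
    (by show μ9 8 _ = _; rw [f9 8 (by decide)]; exact t8)
    (by intro s hs; rw [f9 13 (by decide), f8 13 (by decide)]; exact s13 s hs)
    (by intro a ha x hx
        rw [f9 10 (by decide), f8 10 (by decide), f7 10 (by decide), f6 10 (by decide)]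
        exact s10 a ha x hx)
    (by intro j hj
        rw [f9 11 (by decide), f8 11 (by decide), f7 11 (by decide), f6 11 (by decide),
          f5 11 (by decide)]; exact s11 j hj)
    (by intro j hj r hr z hz
        rw [f9 14 (by decide)]; exact s14 j hj r hr z hz)
    s15
  set μ10 := q10.exec μ9 with hμ10
  have f10 : ∀ B, B ∉ q10.writes → μ10 B = μ9 B := fun B hB => frame _ _ _ hB
  have hB : qB.exec μ = q11.exec μ10 := rfl
  rw [hB]
  have fin := q11_spec (μ := μ10) (n := n) (p := p) (K := K) (v := v)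
    (by show μ10 0 _ = _
        rw [f10 0 (by decide), f9 0 (by decide), f8 0 (by decide), f7 0 (by decide),
          f6 0 (by decide), f5 0 (by decide), f4 0 (by decide)]; exact m0)
    (by show μ10 1 _ = _; rw [f10 1 (by decide), f9 1 (by decide)]; exact t1)
    (by show μ10 2 _ = _
        rw [f10 2 (by decide), f9 2 (by decide), f8 2 (by decide), f7 2 (by decide),
          f6 2 (by decide), f5 2 (by decide), f4 2 (by decide)]; exact m2)
    (by rw [s16 0 (by omega) 0 (by omega) (n + 1) (by omega) (2 * p) (by omega)]; exact hv1)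
  exact ⟨v, fin.1, fin.2, isLeast_schedule w d hv2⟩

/-! ### Running time -/

lemma mem_bound (n p : ℕ) (w d : Fin n → ℕ) (K : ℕ) :
    ∀ A c, start n p w d K A c ≤ 2 ^ (inputSize n w d K + p) := by
  have hpow : ∀ x y : ℕ, x ≤ y → 2 ^ x ≤ 2 ^ y := fun x y h => Nat.pow_le_pow_right (by norm_num) h
  have hn : n ≤ 2 ^ (inputSize n w d K + p) := by
    refine (Nat.lt_two_pow_self (n := n)).le.trans (hpow _ _ ?_)
    unfold inputSize; omega
  have hp : p ≤ 2 ^ (inputSize n w d K + p) :=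
    (Nat.lt_two_pow_self (n := p)).le.trans (hpow _ _ (by omega))
  have hK : K ≤ 2 ^ (inputSize n w d K + p) := by
    refine (Nat.lt_size_self K).le.trans (hpow _ _ ?_)
    unfold inputSize; omega
  have hw : ∀ j, ext w j ≤ 2 ^ (inputSize n w d K + p) := by
    intro j
    unfold ext
    split_ifs with h
    · refine (Nat.lt_size_self _).le.trans (hpow _ _ ?_)
      have : Nat.size (w ⟨j, h⟩) + Nat.size (d ⟨j, h⟩) ≤
        ∑ j, (Nat.size (w j) + Nat.size (d j)) :=
        single_le_sum (f := fun j => Nat.size (w j) + Nat.size (d j))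
          (fun _ _ => Nat.zero_le _) (mem_univ _)
      unfold inputSize; omega
    · exact Nat.zero_le _
  have hd : ∀ j, ext d j ≤ 2 ^ (inputSize n w d K + p) := by
    intro j
    unfold ext
    split_ifs with h
    · refine (Nat.lt_size_self _).le.trans (hpow _ _ ?_)
      have : Nat.size (w ⟨j, h⟩) + Nat.size (d ⟨j, h⟩) ≤
        ∑ j, (Nat.size (w j) + Nat.size (d j)) :=
        single_le_sum (f := fun j => Nat.size (w j) + Nat.size (d j))
          (fun _ _ => Nat.zero_le _) (mem_univ _)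
      unfold inputSize; omega
    · exact Nat.zero_le _
  refine write_le (V := 2 ^ (inputSize n w d K + p)) ?_ 1 _ le_rfl hp
  intro A c
  unfold input
  split_ifs
  · exact hn
  · exact hK
  · exact hw _
  · exact hd _
  · exact Nat.zero_le _

lemma steps_bound (n p : ℕ) (w d : Fin n → ℕ) (K : ℕ) :
    qA.steps (start n p w d K) ≤ 3 + q2.len * ((n + 3) * (2 * p + 1) + 1) ^ 1
      + qB.len * ((n + 3) * (2 * p + 1) + 1) ^ 7 := by
  obtain ⟨m0, m1, m2, m7, m8, m16, m9, m3, m4, m12, m14⟩ := mid_spec n p w d K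
  obtain ⟨s0, s1, s2, s3, s4, s5⟩ := start_reg n p w d K
  obtain ⟨a7, a8⟩ := q1_spec s0 s1
  have e : qA.steps (start n p w d K) = 2 + (q2.steps (q1.exec (start n p w d K)) +
    (1 + qB.steps (q3.exec (q2.exec (q1.exec (start n p w d K)))))) := rfl
  set N := (n + 3) * (2 * p + 1) with hN
  have hN' : N = 2 * (n * p) + n + 6 * p + 3 := by rw [hN]; ring
  have h16 : (n + 3) * p = n * p + 3 * p := by ring
  have h2 := steps_le N q2 (q1.exec (start n p w d K)) (by
    intro r hr
    have hr' : r = 7 := by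
      have : r ∈ q2.bounds := hr
      have h : q2.bounds = {7} := by decide
      rw [h, mem_singleton] at this
      exact this
    rw [hr', a7]
    omega) (by decide)
  have hB := steps_le N qB (q3.exec (q2.exec (q1.exec (start n p w d K)))) (by
    intro r hr
    have h : qB.bounds = {0, 7, 8, 16} := by decide
    rw [h] at hr
    simp only [mem_insert, mem_singleton] at hr
    rcases hr with rfl | rfl | rfl | rfl
    · rw [m0]; omega
    · rw [m7]; omega
    · rw [m8]; omega
    · rw [m16]; omega) (by decide)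
  have d2 : q2.depth = 1 := by decide
  have dB : qB.depth = 7 := by decide
  rw [d2] at h2
  rw [dB] at hB
  rw [e]
  omega

lemma pow_ge_one {X : ℕ} (hX : 1 ≤ X) (k : ℕ) : 1 ≤ X ^ k := Nat.one_le_pow _ _ hX

lemma arith_steps {X Y a b : ℕ} (hX : 1 ≤ X) (hY : Y ≤ 10 * X) :
    3 + a * Y ^ 1 + b * Y ^ 7 ≤ (3 + 10 * a + 10 ^ 7 * b) * X ^ 7 := by
  have h1 : Y ^ 7 ≤ 10 ^ 7 * X ^ 7 := by
    rw [← mul_pow]; exact Nat.pow_le_pow_left hY 7
  have h2 : X ≤ X ^ 7 := by
    calc X = X ^ 1 := (pow_one X).symm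
      _ ≤ X ^ 7 := Nat.pow_le_pow_right hX (by norm_num)
  have h3 : a * Y ≤ a * (10 * X ^ 7) := Nat.mul_le_mul_left _ (by omega)
  have h4 : b * Y ^ 7 ≤ b * (10 ^ 7 * X ^ 7) := Nat.mul_le_mul_left _ h1
  have h5 := pow_ge_one hX 7
  have h6 : (3 + 10 * a + 10 ^ 7 * b) * X ^ 7
      = 3 * X ^ 7 + a * (10 * X ^ 7) + b * (10 ^ 7 * X ^ 7) := by ring
  rw [h6, pow_one]
  omega

lemma arith_time {X t B C m g : ℕ} (hX : 1 ≤ X) (ht : t ≤ C * X ^ 7) (hB : B ≤ 4 * X) :
    t * (m * (1 + (B + (t + 1) * g))) ≤ C * m * (5 + (C + 1) * g) * X ^ 14 := by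
  have h5 := pow_ge_one hX 7
  have h2 : X ≤ X ^ 7 := by
    calc X = X ^ 1 := (pow_one X).symm
      _ ≤ X ^ 7 := Nat.pow_le_pow_right hX (by norm_num)
  have h3 : t + 1 ≤ (C + 1) * X ^ 7 := by
    have : (C + 1) * X ^ 7 = C * X ^ 7 + X ^ 7 := by ring
    omega
  have h4 : (t + 1) * g ≤ (C + 1) * X ^ 7 * g := Nat.mul_le_mul_right _ h3
  have h6 : 1 + (B + (t + 1) * g) ≤ (5 + (C + 1) * g) * X ^ 7 := by
    have : (5 + (C + 1) * g) * X ^ 7 = 5 * X ^ 7 + (C + 1) * X ^ 7 * g := by ring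
    omega
  calc t * (m * (1 + (B + (t + 1) * g)))
      ≤ C * X ^ 7 * (m * ((5 + (C + 1) * g) * X ^ 7)) :=
        Nat.mul_le_mul ht (Nat.mul_le_mul_left _ h6)
    _ = _ := by ring

theorem time_full : ∃ c : ℕ, ∀ (p : ℕ), 1 ≤ p → ∀ (n : ℕ) (w d : Fin n → ℕ) (K : ℕ),
    (full qA p).time (input n w d K) ≤ c * (p * inputSize n w d K) ^ 14 := by
  set C := 3 + 10 * q2.len + 10 ^ 7 * qB.len with hC
  refine ⟨9 + C * qA.nodes * (5 + (C + 1) * Nat.size qA.growth), ?_⟩
  intro p hp n w d K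
  have hex : Prog.exec (.set 1 (.const 0) (.const 0) (.const 0) (.const 0) (.const 0) (.const p))
      (input n w d K) = start n p w d K := rfl
  have e : (full qA p).time (input n w d K) =
    (1 + (1 + Nat.size 0) + (1 + Nat.size 0) + (1 + Nat.size 0) + (1 + Nat.size 0)
      + (1 + Nat.size 0) + (1 + Nat.size p)) + qA.time (start n p w d K) := rfl
  set S := inputSize n w d K with hS
  have hS1 : n + 1 ≤ S := by rw [hS]; unfold inputSize; omega
  set X := p * S with hX
  have hX1 : 1 ≤ X := Nat.mul_pos hp (by omega)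
  have hpX : p ≤ X := Nat.le_mul_of_pos_right _ (by omega)
  have hSX : S ≤ X := Nat.le_mul_of_pos_left _ hp
  have hY : (n + 3) * (2 * p + 1) + 1 ≤ 10 * X := by
    have h1 : (n + 3) * (2 * p + 1) ≤ (3 * S) * (3 * p) := Nat.mul_le_mul (by omega) (by omega)
    have h2 : (3 * S) * (3 * p) = 9 * X := by rw [hX]; ring
    omega
  have hst := (steps_bound n p w d K).trans (arith_steps (a := q2.len) (b := qB.len) hX1 hY)
  rw [← hC] at hst
  have ht := time_le qA (start n p w d K) (2 ^ (S + p)) (Nat.one_le_two_pow)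
    (mem_bound n p w d K) (C * X ^ 7) hst
  have hsz : Nat.size (2 ^ (S + p)) = S + p + 1 := Nat.size_pow
  rw [hsz] at ht
  have h3 := arith_time (X := X) (t := C * X ^ 7) (B := S + p + 1) (C := C) (m := qA.nodes)
    (g := Nat.size qA.growth) hX1 le_rfl (by omega)
  have h4 := ht.trans h3
  have hsp : Nat.size p ≤ p := Nat.size_le.mpr Nat.lt_two_pow_self
  have hX14 : X ≤ X ^ 14 := by
    calc X = X ^ 1 := (pow_one X).symm
      _ ≤ X ^ 14 := Nat.pow_le_pow_right hX1 (by norm_num)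
  have h5 : (9 + C * qA.nodes * (5 + (C + 1) * Nat.size qA.growth)) * X ^ 14
    = 9 * X ^ 14 + C * qA.nodes * (5 + (C + 1) * Nat.size qA.growth) * X ^ 14 := by ring
  rw [e, h5]
  have h0 : Nat.size 0 = 0 := Nat.size_zero
  rw [h0]
  omega

end Pool.Agent.helper80.Sched
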