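import Pool.Agent.helper80.Sched.ModelDefs

/-!
# Necessary conditions for completion times
-/

namespace Pool.Agent.helper80.Sched

open MeasureTheory Set

section Necessity

/-- Pairwise non-overlapping intervals occupy at most the length of a window. -/
lemma sum_window_le {ι : Type*} (F : Finset ι) (s e : ι → ℝ)
    (hd : ∀ a ∈ F, ∀ b ∈ F, a ≠ b → e a ≤ s b ∨ e b ≤ s a) (lo hi : ℝ) (h : lo ≤ hi) :
    ∑ a ∈ F, volume.real (Ico (s a) (e a) ∩ Ico lo hi) ≤ hi - lo := by
  classical
  have hdis : Set.PairwiseDisjoint (F : Set ι) (fun a => Ico (s a) (e a) ∩ Ico lo hi) := by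
    intro a ha b hb hab
    have := hd a ha b hb hab
    refine Set.disjoint_left.mpr ?_
    rintro x ⟨hx1, _⟩ ⟨hx2, _⟩
    rcases this with h1 | h1
    · linarith [hx1.2, hx2.1]
    · linarith [hx1.1, hx2.2]
  rw [← measureReal_biUnion_finset hdis (fun a _ => (measurableSet_Ico.inter measurableSet_Ico))
    (fun a _ => ne_of_lt (lt_of_le_of_lt (measure_mono inter_subset_right) (by simp)))]
  calc volume.real (⋃ b ∈ F, Ico (s b) (e b) ∩ Ico lo hi) ≤ volume.real (Ico lo hi) := by
        refine measureReal_mono ?_ (by simp)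
        intro x hx
        simp only [mem_iUnion] at hx
        obtain ⟨_, _, hx⟩ := hx
        exact hx.2
    _ = hi - lo := by rw [Real.volume_real_Ico_of_le h]

lemma length_split (s e u v : ℝ) (hs : 0 ≤ s) (hse : s ≤ e) (hev : e ≤ v) (hu : 0 ≤ u)
    (huv : u ≤ v) :
    e - s = volume.real (Ico s e ∩ Ico 0 u) + volume.real (Ico s e ∩ Ico u v) := by
  have hf : ∀ T : Set ℝ, volume (Ico s e ∩ T) ≠ ⊤ := fun T =>
    ne_of_lt (lt_of_le_of_lt (measure_mono inter_subset_left) (by simp))
  have hdis : Disjoint (Ico s e ∩ Ico 0 u) (Ico s e ∩ Ico u v) := by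
    refine Set.disjoint_left.mpr ?_
    rintro x ⟨_, hx1⟩ ⟨_, hx2⟩
    exact absurd hx1.2 (not_lt.mpr hx2.1)
  have h1 := measureReal_union (μ := volume) hdis (measurableSet_Ico.inter measurableSet_Ico)
    (hf _) (hf _)
  rw [← h1, ← Real.volume_real_Ico_of_le hse, ← inter_union_distrib_left, Ico_union_Ico_eq_Ico hu huv]
  have hsub : Ico s e ⊆ Ico 0 v := fun x hx => ⟨hs.trans hx.1, hx.2.trans_le hev⟩
  rw [inter_eq_left.mpr hsub]

variable {n p : ℕ} (S : Schedule n p)

lemma finite_ends (j : Fin n) : {t : ℝ | ∃ a ∈ S.pieces, a.job = j ∧ a.e = t}.Finite := by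
  classical
  refine Set.Finite.subset (S.pieces.finite_toSet.image (fun a => a.e)) ?_
  rintro t ⟨a, ha, _, rfl⟩
  exact ⟨a, ha, rfl⟩

lemma le_completion {a : Piece n} (ha : a ∈ S.pieces) : a.e ≤ S.completion a.job :=
  le_csSup (finite_ends S _).bddAbove ⟨a, ha, rfl, rfl⟩

lemma completion_nonneg (j : Fin n) : 0 ≤ S.completion j := by
  refine Real.sSup_nonneg ?_
  rintro t ⟨a, ha, _, rfl⟩
  exact (S.nonneg a ha).trans (S.pos a ha).le

/-- The total work of the jobs in `J` and of one further job `k`. -/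
lemma necessity (J : Finset (Fin n)) (k : Fin n) (hk : k ∉ J) (u v : ℝ)
    (hu : 0 ≤ u) (huv : u ≤ v) (hJ : ∀ j ∈ J, S.completion j ≤ u) (hkv : S.completion k ≤ v) :
    ((J.card : ℝ) + 1) * p ≤ u + v := by
  classical
  set F : Finset (Piece n) := S.pieces.filter (fun a => a.job ∈ insert k J) with hF
  have hev : ∀ a ∈ F, a.e ≤ v := by
    intro a ha
    rw [hF, Finset.mem_filter, Finset.mem_insert] at ha
    have h1 := le_completion S ha.1
    rcases ha.2 with h | h
    · rw [h] at h1; exact h1.trans hkv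
    · exact h1.trans ((hJ _ h).trans huv)
  -- total work
  have h1 : ∑ a ∈ F, (a.e - a.s) = ((J.card : ℝ) + 1) * p := by
    have : ∑ j ∈ insert k J, ∑ a ∈ S.pieces with a.job = j, (a.e - a.s)
        = ∑ a ∈ F, (a.e - a.s) := by
      rw [hF, ← Finset.sum_fiberwise_of_maps_to (s := S.pieces.filter (fun a => a.job ∈ insert k J))
        (t := insert k J) (g := fun a => a.job) (fun a ha => (Finset.mem_filter.mp ha).2)]
      refine Finset.sum_congr rfl fun j hj => ?_
      rw [Finset.filter_filter]
      refine Finset.sum_congr ?_ fun _ _ => rfl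
      ext a
      simp only [Finset.mem_filter]
      constructor
      · rintro ⟨h1, h2⟩; exact ⟨h1, by rw [h2]; exact hj, h2⟩
      · rintro ⟨h1, _, h2⟩; exact ⟨h1, h2⟩
    rw [← this, Finset.sum_congr rfl (fun j _ => S.total j), Finset.sum_const,
      Finset.card_insert_of_notMem hk, nsmul_eq_mul]
    push_cast
    ring
  have h2 : ∑ a ∈ F, (a.e - a.s) = ∑ a ∈ F, volume.real (Ico a.s a.e ∩ Ico 0 u)
      + ∑ a ∈ F, volume.real (Ico a.s a.e ∩ Ico u v) := by
    rw [← Finset.sum_add_distrib]
    refine Finset.sum_congr rfl fun a ha => ?_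
    have haS : a ∈ S.pieces := (Finset.mem_filter.mp ha).1
    exact length_split a.s a.e u v (S.nonneg a haS) (S.pos a haS).le (hev a ha) hu huv
  have h3 : ∑ a ∈ F, volume.real (Ico a.s a.e ∩ Ico 0 u) ≤ 2 * u := by
    have hm : ∀ m : Fin 2, ∑ a ∈ F with a.mach = m, volume.real (Ico a.s a.e ∩ Ico 0 u) ≤ u := by
      intro m
      have := sum_window_le (F.filter (fun a => a.mach = m)) (fun a => a.s) (fun a => a.e) ?_ 0 u hu
      · simpa using this
      · intro a ha b hb hab
        rw [Finset.mem_filter] at ha hb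
        exact S.disj a (Finset.mem_filter.mp ha.1).1 b (Finset.mem_filter.mp hb.1).1 hab
          (Or.inl (ha.2.trans hb.2.symm))
    rw [← Finset.sum_fiberwise (s := F) (g := fun a => a.mach), Fin.sum_univ_two]
    linarith [hm 0, hm 1]
  have h4 : ∑ a ∈ F, volume.real (Ico a.s a.e ∩ Ico u v) ≤ v - u := by
    have h5 : ∑ a ∈ F, volume.real (Ico a.s a.e ∩ Ico u v)
        = ∑ a ∈ F with a.job = k, volume.real (Ico a.s a.e ∩ Ico u v) := by
      rw [Finset.sum_filter (s := F) (p := fun a => a.job = k)]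
      refine Finset.sum_congr rfl fun a ha => ?_
      by_cases h : a.job = k
      · rw [if_pos h]
      · rw [if_neg h]
        have haJ : a.job ∈ J := by
          have := (Finset.mem_filter.mp ha).2
          rw [Finset.mem_insert] at this
          tauto
        have hae : a.e ≤ u := (le_completion S (Finset.mem_filter.mp ha).1).trans (hJ _ haJ)
        have : Ico a.s a.e ∩ Ico u v = ∅ := by
          ext x
          simp only [mem_inter_iff, mem_Ico, mem_empty_iff_false, iff_false]
          rintro ⟨⟨_, h1⟩, h2, _⟩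
          linarith
        rw [this]; simp
    rw [h5]
    refine sum_window_le (F.filter (fun a => a.job = k)) (fun a => a.s) (fun a => a.e) ?_ u v huv
    intro a ha b hb hab
    rw [Finset.mem_filter] at ha hb
    exact S.disj a (Finset.mem_filter.mp ha.1).1 b (Finset.mem_filter.mp hb.1).1 hab
      (Or.inr (ha.2.trans hb.2.symm))
  linarith

end Necessity

end Pool.Agent.helper80.Sched
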