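import Mathlib

/-!
# Preemptive two-machine equal-length weighted tardiness: the scheduling model
-/

namespace Pool.Agent.helper80.Sched

/-- One piece of a preemptive schedule of `n` jobs on two machines: the job `job` runs on the
machine `mach` from time `s` to time `e`. -/
structure Piece (n : ℕ) where
  /-- the job that runs -/
  job : Fin n
  /-- the machine on which it runs -/
  mach : Fin 2
  /-- start time -/
  s : ℝ
  /-- end time -/
  e : ℝ

/-- A preemptive schedule of `n` jobs of length `p` on two machines. -/
structure Schedule (n p : ℕ) where
  /-- the finite set of pieces -/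
  pieces : Finset (Piece n)
  /-- nothing happens before time zero -/
  nonneg : ∀ a ∈ pieces, 0 ≤ a.s
  /-- every piece is a proper interval -/
  pos : ∀ a ∈ pieces, a.s < a.e
  /-- each job is processed for a total time `p` -/
  total : ∀ j : Fin n, ∑ a ∈ pieces with a.job = j, (a.e - a.s) = p
  /-- two different pieces that share their machine or their job do not overlap in time -/
  disj : ∀ a ∈ pieces, ∀ b ∈ pieces, a ≠ b → (a.mach = b.mach ∨ a.job = b.job) →
    a.e ≤ b.s ∨ b.e ≤ a.s

/-- The completion time of job `j`: the end of its last piece. -/
noncomputable def Schedule.completion {n p : ℕ} (S : Schedule n p) (j : Fin n) : ℝ :=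
  sSup {t : ℝ | ∃ a ∈ S.pieces, a.job = j ∧ a.e = t}

/-- The total weighted tardiness `∑ w_j max (0, C_j - d_j)`. -/
noncomputable def Schedule.cost {n p : ℕ} (S : Schedule n p) (w d : Fin n → ℕ) : ℝ :=
  ∑ j, (w j : ℝ) * max 0 (S.completion j - d j)

end Pool.Agent.helper80.Sched
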