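import Pool.Agent.helper80.Sched.LogCost

/-!
# The program

Arrays: `0` number of jobs `n`, `1` processing time `p`, `2` threshold `K`, `3` weights,
`4` due dates, `5` answer, `6` twice the optimal value, `7` the number `n + 2`,
`8` the number `2 * p + 1`, `9` multiples of `p`, `10` due date limits of the states,
`11` capped doubled due dates, `12` ranks of the jobs, `13` jobs listed by rank,
`14` costs of single jobs, `15` the table of the dynamic program, `16` the number `(n + 3) * p`,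
`17`, `18`, `26` temporary registers, `19`, …, `25` loop counters.
-/

namespace Pool.Agent.helper80.Sched

/-- The constant `0`. -/
abbrev e0 : Expr := .const 0
/-- The constant `1`. -/
abbrev e1 : Expr := .const 1
/-- The register `v`. -/
abbrev rg (v : ℕ) : Expr := .get v e0 e0 e0 e0 e0
/-- One-dimensional array. -/
abbrev g1 (A : ℕ) (i : Expr) : Expr := .get A i e0 e0 e0 e0
/-- Two-dimensional array. -/
abbrev g2 (A : ℕ) (i j : Expr) : Expr := .get A i j e0 e0 e0
/-- Three-dimensional array. -/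
abbrev g3 (A : ℕ) (i j k : Expr) : Expr := .get A i j k e0 e0
/-- Assignment to a register. -/
abbrev sr (v : ℕ) (e : Expr) : Prog := .set v e0 e0 e0 e0 e0 e
/-- Assignment to a one-dimensional array. -/
abbrev s1 (A : ℕ) (i e : Expr) : Prog := .set A i e0 e0 e0 e0 e
/-- Assignment to a two-dimensional array. -/
abbrev s2 (A : ℕ) (i j e : Expr) : Prog := .set A i j e0 e0 e0 e
/-- Assignment to a three-dimensional array. -/
abbrev s3 (A : ℕ) (i j k e : Expr) : Prog := .set A i j k e0 e0 e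

/-- The auxiliary numbers `n + 2` and `2 * p + 1`. -/
def q1 : Prog := .seq (sr 7 (.add (rg 0) (.const 2))) (sr 8 (.add (.add (rg 1) (rg 1)) e1))

/-- Multiples of `p`. -/
def q2 : Prog := .loop 20 7 (s1 9 (.add (rg 20) e1) (.add (g1 9 (rg 20)) (rg 1)))

/-- The number `(n + 3) * p`. -/
def q3 : Prog := sr 16 (.add (g1 9 (rg 7)) (rg 1))

/-- Capped doubled due dates. -/
def q4 : Prog := .loop 20 0 (.ite (.add (g1 4 (rg 20)) (g1 4 (rg 20))) (g1 9 (rg 7))
  (s1 11 (rg 20) (.add (g1 4 (rg 20)) (g1 4 (rg 20)))) (s1 11 (rg 20) (g1 9 (rg 7))))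

/-- Due date limits of the states. -/
def q5 : Prog := .loop 20 7 (.loop 21 8 (.ite (rg 20) e0
  (s2 10 (rg 20) (rg 21) e0)
  (s2 10 (rg 20) (rg 21) (.add (.add (g1 9 (rg 20)) (rg 21)) e1))))

/-- Increment the rank of the current job. -/
def q6inc : Prog := s1 12 (rg 20) (.add (g1 12 (rg 20)) e1)

/-- The ranks of the jobs. -/
def q6 : Prog := .loop 20 0 (.loop 21 0 (.ite (g1 3 (rg 21)) (g1 3 (rg 20))
  (.ite (g1 3 (rg 20)) (g1 3 (rg 21)) (.ite (.add (rg 21) e1) (rg 20) q6inc .skip) .skip)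
  q6inc))

/-- The jobs listed by rank. -/
def q7 : Prog := .loop 20 0 (s1 13 (g1 12 (rg 20)) (rg 20))

/-- The costs of single jobs, by repeated addition. -/
def q8 : Prog := .loop 20 0 (.loop 21 7 (.loop 22 8 (.loop 23 16
  (.ite (.add (rg 23) e1) (.sub (.add (g1 9 (rg 21)) (rg 22)) (g1 11 (rg 20)))
    (s3 14 (rg 20) (rg 21) (rg 22) (.add (g3 14 (rg 20) (rg 21) (rg 22)) (g1 3 (rg 20))))
    .skip))))

/-- Four nested loops over pairs of states. -/
def nest (Q : Prog) : Prog := .loop 20 7 (.loop 21 8 (.loop 22 7 (.loop 23 8 Q)))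

/-- Layer zero of the table. -/
def q9 : Prog := nest (
  .ite (rg 22) (.add (rg 20) e1)
    (.ite (.add (rg 20) e1) (rg 22)
      (.ite (rg 1) (.add (rg 21) (rg 23))
        (.ite (rg 21) (.add (rg 23) (rg 1))
          (.set 15 e0 (rg 20) (rg 21) (rg 22) (rg 23) e1)
          (.set 15 e0 (rg 20) (rg 21) (rg 22) (rg 23) e0))
        (.set 15 e0 (rg 20) (rg 21) (rg 22) (rg 23) e0))
      (.set 15 e0 (rg 20) (rg 21) (rg 22) (rg 23) e0))
    (.set 15 e0 (rg 20) (rg 21) (rg 22) (rg 23) e0))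

/-- Left part of a decomposition. -/
abbrev mL : Expr := .get 15 (rg 19) (rg 20) (rg 21) (rg 24) (rg 25)
/-- Right part of a decomposition. -/
abbrev mR : Expr := .get 15 (rg 19) (rg 24) (rg 25) (rg 22) (rg 23)

/-- One candidate of the minimisation. -/
def q10cand : Prog :=
  .ite e1 mL (.ite e1 mR
    (.seq (sr 26 (.sub (.add (.add mL mR) (g3 14 (rg 18) (rg 24) (rg 25))) e1))
      (.ite e1 (rg 17) (.ite (rg 17) (rg 26) .skip (sr 17 (rg 26))) (sr 17 (rg 26))))
    .skip) .skip

/-- The minimisation over all decompositions. -/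
def q10min : Prog := .seq (sr 17 e0) (.loop 24 7 (.loop 25 8 q10cand))

/-- Copy a table entry from the previous layer. -/
def q10copy : Prog := .set 15 (.add (rg 19) e1) (rg 20) (rg 21) (rg 22) (rg 23)
  (.get 15 (rg 19) (rg 20) (rg 21) (rg 22) (rg 23))

/-- One table entry. -/
def q10cell : Prog :=
  .ite (g2 10 (rg 20) (rg 21)) (g1 11 (rg 18))
    (.ite (.add (g1 11 (rg 18)) e1) (g2 10 (rg 22) (rg 23))
      (.seq q10min (.set 15 (.add (rg 19) e1) (rg 20) (rg 21) (rg 22) (rg 23) (rg 17)))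
      q10copy)
    q10copy

/-- The dynamic program. -/
def q10 : Prog := .loop 19 0 (.seq (sr 18 (g1 13 (rg 19))) (nest q10cell))

/-- The output. -/
def q11 : Prog := .seq
  (sr 6 (.sub (.get 15 (rg 0) e0 e0 (.add (rg 0) e1) (.add (rg 1) (rg 1))) e1))
  (.ite (rg 6) (.add (rg 2) (rg 2)) (sr 5 e1) (sr 5 e0))

/-- The second part of the program. -/
def qB : Prog := .seq q4 (.seq q5 (.seq q6 (.seq q7 (.seq q8 (.seq q9 (.seq q10 q11))))))

/-- The program. -/
def qA : Prog := .seq q1 (.seq q2 (.seq q3 qB))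

example : Disjoint qB.bounds qB.writes := by decide
example : Disjoint q2.bounds q2.writes := by decide
example : qB.depth = 7 := by decide

/-! ### Elementary stages -/

@[simp] lemma reg_write_eq (μ : Mem) (v x : ℕ) : reg (write μ v (0, 0, 0, 0, 0) x) v = x := by
  simp [write]

lemma q1_spec {μ : Mem} {n p : ℕ} (h0 : reg μ 0 = n) (h1 : reg μ 1 = p) :
    reg (q1.exec μ) 7 = n + 2 ∧ reg (q1.exec μ) 8 = 2 * p + 1 := by
  simp only [reg] at h0 h1
  constructor
  · simp [q1, Prog.exec, Expr.eval, write, h0]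
  · simp [q1, Prog.exec, Expr.eval, write, h1]
    omega

lemma q2_spec {μ : Mem} {N p : ℕ} (h7 : reg μ 7 = N) (h1 : reg μ 1 = p)
    (h9 : ∀ c, μ 9 c = 0) : ∀ r ≤ N, q2.exec μ 9 (r, 0, 0, 0, 0) = r * p := by
  refine loop_inv h7 (fun k ν => ∀ r ≤ k, ν 9 (r, 0, 0, 0, 0) = r * p) ?_ ?_
  · intro r hr
    have : r = 0 := by omega
    subst this
    rw [h9]; simp
  · intro i hi ν hν hI r hr
    have hp : ν 1 (0, 0, 0, 0, 0) = p := by rw [hν 1 (by decide) (by decide)]; exact h1
    simp only [Prog.exec, Expr.eval, write]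
    simp
    by_cases h : r = i + 1
    · subst h
      simp [hI i le_rfl, hp]
      ring
    · simp [h]
      exact hI r (by omega)

lemma q3_spec {μ : Mem} {N p : ℕ} (h7 : reg μ 7 = N) (h1 : reg μ 1 = p)
    (h9 : μ 9 (N, 0, 0, 0, 0) = N * p) : reg (q3.exec μ) 16 = (N + 1) * p := by
  simp only [reg] at h7 h1
  simp [q3, Prog.exec, Expr.eval, h7, h1, h9]
  ring

lemma ite_pos {e f : Expr} {P Q : Prog} {μ : Mem} (h : e.eval μ ≤ f.eval μ) :
    (Prog.ite e f P Q).exec μ = P.exec μ := if_pos h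

lemma ite_neg {e f : Expr} {P Q : Prog} {μ : Mem} (h : ¬ e.eval μ ≤ f.eval μ) :
    (Prog.ite e f P Q).exec μ = Q.exec μ := if_neg h

lemma q4_spec {μ : Mem} {n N : ℕ} {d : ℕ → ℕ} (h0 : reg μ 0 = n) (h7 : reg μ 7 = N) (T : ℕ)
    (h9 : μ 9 (N, 0, 0, 0, 0) = T) (h4 : ∀ j < n, μ 4 (j, 0, 0, 0, 0) = d j) :
    ∀ j < n, q4.exec μ 11 (j, 0, 0, 0, 0) = min (2 * d j) T := by
  refine loop_inv h0 (fun k ν => ∀ j < k, ν 11 (j, 0, 0, 0, 0) = min (2 * d j) T) ?_ ?_
  · intro j hj; omega
  · intro i hi ν hν hI j hj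
    have h7' : ν 7 (0, 0, 0, 0, 0) = N := by rw [hν 7 (by decide) (by decide)]; exact h7
    have h9' : ν 9 (N, 0, 0, 0, 0) = T := by rw [hν 9 (by decide) (by decide)]; exact h9
    have h4' : ∀ j < n, ν 4 (j, 0, 0, 0, 0) = d j := by
      intro j hj; rw [hν 4 (by decide) (by decide)]; exact h4 j hj
    by_cases h : 2 * d i ≤ T
    · rw [ite_pos (by simp [Expr.eval, write, h7', h9', h4' i hi]; omega)]
      simp only [Prog.exec, Expr.eval, write]
      simp [h4' i hi]
      by_cases h' : j = i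
      · subst h'; simp; omega
      · simp [h']; exact hI j (by omega)
    · rw [ite_neg (by simp [Expr.eval, write, h7', h9', h4' i hi]; omega)]
      simp only [Prog.exec, Expr.eval, write]
      simp [h7', h9']
      by_cases h' : j = i
      · subst h'; simp; omega
      · simp [h']; exact hI j (by omega)

end Pool.Agent.helper80.Sched
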