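import Pool.Agent.helper80.Sched.Decomp

/-!
# The recurrence of the dynamic program
-/

namespace Pool.Agent.helper80.Sched

open Finset

/-- The `s` heaviest jobs. -/
def hv (J : ℕ → ℕ) (s : ℕ) : Finset ℕ := (range s).image J

/-- Due date threshold of a state. -/
def lim (p a x : ℕ) : ℕ := if a = 0 then 0 else a * p + x + 1

/-- The jobs of a subproblem. -/
def sub (p : ℕ) (δ J : ℕ → ℕ) (s a x b y : ℕ) : Finset ℕ :=
  (hv J s).filter (fun j => lim p a x < δ j + 1 ∧ δ j + 1 ≤ lim p b y)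

/-- The costs of the solutions of a subproblem. -/
def costs (p : ℕ) (w δ J : ℕ → ℕ) (s a x b y : ℕ) : Set ℕ :=
  {c | ∃ σ X, Feas p (sub p δ J s a x b y) a x b y σ X ∧
    cost p w δ (sub p δ J s a x b y) σ X = c}

lemma Feas.time_mono {p : ℕ} {S : Finset ℕ} {a x b y : ℕ} {σ X : ℕ → ℕ}
    (h : Feas p S a x b y σ X) : ∀ s t, a ≤ s → s ≤ t → t ≤ b → s * p + X s ≤ t * p + X t := by
  intro s t hs hst
  induction t, hst using Nat.le_induction with
  | base => intro _; exact le_rfl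
  | succ t hst ih =>
    intro htb
    have h1 := ih (by omega)
    have h2 := (h.step t (by omega) (by omega)).2
    have : (t + 1) * p = t * p + p := by ring
    omega

lemma Feas.lim_le {p : ℕ} {S : Finset ℕ} {a x b y : ℕ} {σ X : ℕ → ℕ}
    (h : Feas p S a x b y σ X) : lim p a x ≤ lim p b y := by
  have h1 := h.time_mono a b le_rfl h.lt.le le_rfl
  have h2 := h.lt
  rw [h.Xa, h.Xb] at h1
  unfold lim
  split_ifs <;> omega

lemma costs_zero (p : ℕ) (w δ J : ℕ → ℕ) (a x b y : ℕ) (hx : x ≤ 2 * p) (hy : y ≤ 2 * p) :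
    costs p w δ J 0 a x b y = if b = a + 1 ∧ OK p x y then {0} else ∅ := by
  have hS : sub p δ J 0 a x b y = ∅ := by simp [sub, hv]
  ext c
  unfold costs
  rw [hS]
  simp only [Set.mem_setOf_eq]
  constructor
  · rintro ⟨σ, X, h, rfl⟩
    have h1 := h.lt
    have h2 : b = a + 1 := by
      by_contra h3
      have h4 : a + 1 ∈ Set.Ioo a b := by rw [Set.mem_Ioo]; omega
      obtain ⟨j, hj, _⟩ := h.bij.2.2 h4
      simp at hj
    subst h2
    have h5 := h.step a le_rfl (by omega)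
    rw [h.Xa, h.Xb] at h5
    rw [if_pos ⟨rfl, h5⟩]
    simp [cost]
  · intro h
    split_ifs at h with h1
    · obtain ⟨rfl, h2⟩ := h1
      rw [Set.mem_singleton_iff] at h
      subst h
      refine ⟨fun _ => 0, fun r => if r = a then x else y, ⟨by omega, by simp, by simp, ?_, ?_, ?_⟩,
        by simp [cost]⟩
      · intro r h3 h4
        have : r = a := by omega
        subst this
        simpa using h2
      · intro r h3 h4
        show (if r = a then x else y) ≤ 2 * p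
        split_ifs <;> assumption
      · have : Set.Ioo a (a + 1) = ∅ := by
          ext r; simp only [Set.mem_Ioo, Set.mem_empty_iff_false, iff_false]; omega
        rw [this]
        simp
    · exact absurd h (Set.notMem_empty _)

lemma hv_succ (J : ℕ → ℕ) (s : ℕ) : hv J (s + 1) = insert (J s) (hv J s) := by
  unfold hv
  rw [range_add_one, image_insert]

lemma notMem_hv {J : ℕ → ℕ} {n s : ℕ} (hJ : Set.InjOn J (range n : Set ℕ)) (hs : s < n) :
    J s ∉ hv J s := by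
  unfold hv
  rw [mem_image]
  rintro ⟨t, ht, h⟩
  rw [mem_range] at ht
  have := hJ (by simp; omega) (by simpa using hs) h
  omega

lemma costs_skip (p : ℕ) (w δ J : ℕ → ℕ) (s a x b y : ℕ)
    (h : ¬ (lim p a x < δ (J s) + 1 ∧ δ (J s) + 1 ≤ lim p b y)) :
    costs p w δ J (s + 1) a x b y = costs p w δ J s a x b y := by
  have hS : sub p δ J (s + 1) a x b y = sub p δ J s a x b y := by
    unfold sub
    rw [hv_succ, filter_insert, if_neg h]
  unfold costs
  rw [hS]

lemma sub_succ (p : ℕ) (δ J : ℕ → ℕ) (s a x b y : ℕ)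
    (h : lim p a x < δ (J s) + 1 ∧ δ (J s) + 1 ≤ lim p b y) :
    sub p δ J (s + 1) a x b y = insert (J s) (sub p δ J s a x b y) := by
  unfold sub
  rw [hv_succ, filter_insert, if_pos h]

/-- Soundness of the recurrence. -/
lemma costs_join {p n : ℕ} {w δ J : ℕ → ℕ} (hJ : Set.InjOn J (range n : Set ℕ))
    {s a x b y r z c₁ c₂ : ℕ} (hs : s < n)
    (h : lim p a x < δ (J s) + 1 ∧ δ (J s) + 1 ≤ lim p b y)
    (h₁ : c₁ ∈ costs p w δ J s a x r z) (h₂ : c₂ ∈ costs p w δ J s r z b y) :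
    c₁ + c₂ + w (J s) * ((r * p + z) - δ (J s)) ∈ costs p w δ J (s + 1) a x b y := by
  classical
  obtain ⟨σ₁, X₁, F₁, rfl⟩ := h₁
  obtain ⟨σ₂, X₂, F₂, rfl⟩ := h₂
  have hk := notMem_hv hJ hs
  set k := J s with hkdef
  set S₁ := sub p δ J s a x r z with hS₁
  set S₂ := sub p δ J s r z b y with hS₂
  have hk1 : k ∉ S₁ := fun h => hk (mem_filter.mp h).1
  have hk2 : k ∉ S₂ := fun h => hk (mem_filter.mp h).1
  have hl1 := F₁.lim_le
  have hl2 := F₂.lim_le
  have har := F₁.lt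
  have hrb := F₂.lt
  have hdis : Disjoint S₁ S₂ := by
    rw [Finset.disjoint_left]
    intro j h1 h2
    rw [hS₁, sub, mem_filter] at h1
    rw [hS₂, sub, mem_filter] at h2
    omega
  have hU : sub p δ J (s + 1) a x b y = insert k (S₁ ∪ S₂) := by
    rw [sub_succ p δ J s a x b y h]
    congr 1
    ext j
    rw [hS₁, hS₂, mem_union]
    unfold sub
    simp only [mem_filter]
    constructor
    · rintro ⟨h1, h2, h3⟩
      rcases Nat.lt_or_ge (lim p r z) (δ j + 1) with h4 | h4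
      · exact Or.inr ⟨h1, h4, h3⟩
      · exact Or.inl ⟨h1, h2, h4⟩
    · rintro (⟨h1, h2, h3⟩ | ⟨h1, h2, h3⟩)
      · exact ⟨h1, h2, h3.trans hl2⟩
      · exact ⟨h1, lt_of_le_of_lt hl1 h2, h3⟩
  set X : ℕ → ℕ := fun t => if t ≤ r then X₁ t else X₂ t with hX
  set σ : ℕ → ℕ := fun j => if j = k then r else if j ∈ S₁ then σ₁ j else σ₂ j with hσ
  have hXr : X₁ r = z := F₁.Xb
  have hXr2 : X₂ r = z := F₂.Xa
  have hX2 : ∀ t, r ≤ t → X t = X₂ t := by
    intro t ht
    simp only [hX]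
    split_ifs with h1
    · have : t = r := by omega
      rw [this, hXr, hXr2]
    · rfl
  have hX1 : ∀ t, t ≤ r → X t = X₁ t := by
    intro t ht
    simp only [hX, if_pos ht]
  have hσk : σ k = r := by simp [hσ]
  have hσ1 : ∀ j ∈ S₁, σ j = σ₁ j := by
    intro j hj
    have : j ≠ k := fun h => hk1 (h ▸ hj)
    simp only [hσ, if_neg this, if_pos hj]
  have hσ2 : ∀ j ∈ S₂, σ j = σ₂ j := by
    intro j hj
    have h1 : j ≠ k := fun h => hk2 (h ▸ hj)
    have h2 : j ∉ S₁ := fun h => (Finset.disjoint_left.mp hdis) h hj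
    simp only [hσ, if_neg h1, if_neg h2]
  have hr1 : ∀ j ∈ S₁, a < σ j ∧ σ j < r := by
    intro j hj
    rw [hσ1 j hj]
    exact F₁.bij.1 hj
  have hr2 : ∀ j ∈ S₂, r < σ j ∧ σ j < b := by
    intro j hj
    rw [hσ2 j hj]
    exact F₂.bij.1 hj
  refine ⟨σ, X, ⟨by omega, ?_, ?_, ?_, ?_, ?_⟩, ?_⟩
  · rw [hX1 a har.le]; exact F₁.Xa
  · rw [hX2 b hrb.le]; exact F₂.Xb
  · intro t h1 h2
    rcases Nat.lt_or_ge t r with h3 | h3
    · rw [hX1 t h3.le, hX1 (t + 1) h3]; exact F₁.step t h1 h3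
    · rw [hX2 t h3, hX2 (t + 1) (by omega)]; exact F₂.step t h3 h2
  · intro t h1 h2
    rcases Nat.lt_or_ge t r with h3 | h3
    · rw [hX1 t h3.le]; exact F₁.cap t h1 h3.le
    · rw [hX2 t h3]; exact F₂.cap t h3 h2
  · rw [hU]
    refine ⟨?_, ?_, ?_⟩
    · intro j hj
      rw [mem_coe, mem_insert, mem_union] at hj
      rw [Set.mem_Ioo]
      rcases hj with rfl | hj | hj
      · rw [hσk]; omega
      · have := hr1 j hj; omega
      · have := hr2 j hj; omega
    · intro i hi j hj hij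
      rw [mem_coe, mem_insert, mem_union] at hi hj
      rcases hi with hi | hi | hi <;> rcases hj with hj | hj | hj
      · rw [hi, hj]
      · rw [hi, hσk] at hij; have := hr1 j hj; omega
      · rw [hi, hσk] at hij; have := hr2 j hj; omega
      · rw [hj, hσk] at hij; have := hr1 i hi; omega
      · rw [hσ1 i hi, hσ1 j hj] at hij; exact F₁.bij.2.1 hi hj hij
      · have := hr1 i hi; have := hr2 j hj; omega
      · rw [hj, hσk] at hij; have := hr2 i hi; omega
      · have := hr1 j hj; have := hr2 i hi; omega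
      · rw [hσ2 i hi, hσ2 j hj] at hij; exact F₂.bij.2.1 hi hj hij
    · intro t ht
      rw [Set.mem_Ioo] at ht
      rcases lt_trichotomy t r with h3 | h3 | h3
      · obtain ⟨j, hj, hj2⟩ := F₁.bij.2.2 (Set.mem_Ioo.mpr ⟨ht.1, h3⟩)
        exact ⟨j, by rw [mem_coe, mem_insert, mem_union]; exact Or.inr (Or.inl hj),
          by rw [hσ1 j hj]; exact hj2⟩
      · exact ⟨k, by simp, by rw [hσk, h3]⟩
      · obtain ⟨j, hj, hj2⟩ := F₂.bij.2.2 (Set.mem_Ioo.mpr ⟨h3, ht.2⟩)
        exact ⟨j, by rw [mem_coe, mem_insert, mem_union]; exact Or.inr (Or.inr hj),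
          by rw [hσ2 j hj]; exact hj2⟩
  · rw [hU]
    unfold cost
    rw [sum_insert (by rw [mem_union]; tauto), sum_union hdis, hσk, hX1 r le_rfl, hXr]
    have e1 : ∑ j ∈ S₁, w j * ((σ j * p + X (σ j)) - δ j)
        = ∑ j ∈ S₁, w j * ((σ₁ j * p + X₁ (σ₁ j)) - δ j) := by
      refine sum_congr rfl fun j hj => ?_
      have := hr1 j hj
      rw [hX1 _ this.2.le, hσ1 j hj]
    have e2 : ∑ j ∈ S₂, w j * ((σ j * p + X (σ j)) - δ j)
        = ∑ j ∈ S₂, w j * ((σ₂ j * p + X₂ (σ₂ j)) - δ j) := by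
      refine sum_congr rfl fun j hj => ?_
      have := hr2 j hj
      rw [hX2 _ this.1.le, hσ2 j hj]
    rw [e1, e2]
    ring

/-- Completeness of the recurrence. -/
lemma costs_split {p n : ℕ} {w δ J : ℕ → ℕ} (hJ : Set.InjOn J (range n : Set ℕ))
    (hw : ∀ s t, s ≤ t → t < n → w (J t) ≤ w (J s))
    {s a x b y c : ℕ} (hs : s < n)
    (h : lim p a x < δ (J s) + 1 ∧ δ (J s) + 1 ≤ lim p b y)
    (hc : c ∈ costs p w δ J (s + 1) a x b y) :
    ∃ r z c₁ c₂, a < r ∧ r < b ∧ z ≤ 2 * p ∧ c₁ ∈ costs p w δ J s a x r z ∧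
      c₂ ∈ costs p w δ J s r z b y ∧ c₁ + c₂ + w (J s) * ((r * p + z) - δ (J s)) ≤ c := by
  classical
  obtain ⟨σ₀, X, F, rfl⟩ := hc
  have hk := notMem_hv hJ hs
  have hSs := sub_succ p δ J s a x b y h
  set k := J s with hkdef
  set S := sub p δ J (s + 1) a x b y with hS
  set S' := sub p δ J s a x b y with hS'
  have hkS' : k ∉ S' := fun h => hk (mem_filter.mp h).1
  have hkS : k ∈ S := by rw [hSs]; exact mem_insert_self _ _
  have hwk : ∀ j ∈ S, w k ≤ w j := by
    intro j hj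
    rw [hSs, mem_insert] at hj
    rcases hj with rfl | hj
    · exact le_rfl
    · rw [hS', sub, mem_filter, hv, mem_image] at hj
      obtain ⟨⟨t, ht, rfl⟩, _⟩ := hj
      rw [mem_range] at ht
      exact hw t s ht.le hs
  obtain ⟨σ, hσ, hle, hsep⟩ := decomp S w δ (fun t => t * p + X t) a b k hkS hwk (by
    intro s' t' h1 h2 h3
    exact F.time_mono s' t' h1.le h2 h3.le) σ₀ F.bij
  have hσk : σ k ∈ Set.Ioo a b := hσ.1 hkS
  rw [Set.mem_Ioo] at hσk
  set r := σ k with hr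
  set z := X r with hz
  have hzc : z ≤ 2 * p := F.cap r (by omega) (by omega)
  set S₁ := sub p δ J s a x r z with hS₁
  set S₂ := sub p δ J s r z b y with hS₂
  have hlr : lim p r z = r * p + z + 1 := by
    unfold lim; rw [if_neg (by omega)]
  have hlb : lim p r z ≤ lim p b y := by
    have h1 := F.time_mono r b (by omega) (by omega) le_rfl
    rw [F.Xb] at h1
    rw [hlr]
    unfold lim
    rw [if_neg (by omega)]
    omega
  have hla : lim p a x ≤ lim p r z := by
    have h1 := F.time_mono a r le_rfl (by omega) (by omega)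
    rw [F.Xa] at h1
    rw [hlr]
    unfold lim
    split_ifs <;> omega
  have hm1 : ∀ j, j ∈ S₁ ↔ j ∈ S ∧ j ≠ k ∧ δ j ≤ r * p + z := by
    intro j
    rw [hSs, hS₁, hS', sub, sub, mem_filter, mem_insert, mem_filter, hlr]
    constructor
    · rintro ⟨h1, h2, h3⟩
      refine ⟨Or.inr ⟨h1, h2, ?_⟩, ?_, by omega⟩
      · rw [hlr] at hlb; omega
      · rintro rfl; exact hk h1
    · rintro ⟨h1 | ⟨h1, h2, h3⟩, h4, h5⟩
      · exact absurd h1 h4
      · exact ⟨h1, h2, by omega⟩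
  have hm2 : ∀ j, j ∈ S₂ ↔ j ∈ S ∧ j ≠ k ∧ r * p + z < δ j := by
    intro j
    rw [hSs, hS₂, hS', sub, sub, mem_filter, mem_insert, mem_filter, hlr]
    constructor
    · rintro ⟨h1, h2, h3⟩
      refine ⟨Or.inr ⟨h1, ?_, h3⟩, ?_, by omega⟩
      · rw [hlr] at hla; omega
      · rintro rfl; exact hk h1
    · rintro ⟨h1 | ⟨h1, h2, h3⟩, h4, h5⟩
      · exact absurd h1 h4
      · exact ⟨h1, by omega, h3⟩
  have hdis : Disjoint S₁ S₂ := by
    rw [Finset.disjoint_left]
    intro j h1 h2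
    rw [hm1] at h1
    rw [hm2] at h2
    omega
  have hU : S = insert k (S₁ ∪ S₂) := by
    ext j
    rw [mem_insert, mem_union, hm1, hm2]
    constructor
    · intro h1
      by_cases h2 : j = k
      · exact Or.inl h2
      · rcases Nat.lt_or_ge (r * p + z) (δ j) with h3 | h3
        · exact Or.inr (Or.inr ⟨h1, h2, h3⟩)
        · exact Or.inr (Or.inl ⟨h1, h2, h3⟩)
    · rintro (h1 | h1 | h1)
      · rw [h1]; exact hkS
      · exact h1.1
      · exact h1.1
  have hb1 : Set.BijOn σ (S₁ : Set ℕ) (Set.Ioo a r) := by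
    refine ⟨?_, ?_, ?_⟩
    · intro j hj
      rw [mem_coe, hm1] at hj
      rw [Set.mem_Ioo]
      have h1 := hσ.1 (mem_coe.mpr hj.1)
      rw [Set.mem_Ioo] at h1
      exact ⟨h1.1, (hsep j hj.1 hj.2.1).1 hj.2.2⟩
    · intro i hi j hj hij
      rw [mem_coe, hm1] at hi hj
      exact hσ.2.1 (mem_coe.mpr hi.1) (mem_coe.mpr hj.1) hij
    · intro t ht
      rw [Set.mem_Ioo] at ht
      obtain ⟨j, hj, rfl⟩ := hσ.2.2 (Set.mem_Ioo.mpr ⟨ht.1, by omega⟩)
      have hjk : j ≠ k := by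
        rintro rfl
        omega
      refine ⟨j, ?_, rfl⟩
      rw [mem_coe, hm1]
      refine ⟨hj, hjk, ?_⟩
      by_contra h1
      have := (hsep j hj hjk).2 (not_le.mp h1)
      omega
  have hb2 : Set.BijOn σ (S₂ : Set ℕ) (Set.Ioo r b) := by
    refine ⟨?_, ?_, ?_⟩
    · intro j hj
      rw [mem_coe, hm2] at hj
      rw [Set.mem_Ioo]
      have h1 := hσ.1 (mem_coe.mpr hj.1)
      rw [Set.mem_Ioo] at h1
      exact ⟨(hsep j hj.1 hj.2.1).2 hj.2.2, h1.2⟩
    · intro i hi j hj hij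
      rw [mem_coe, hm2] at hi hj
      exact hσ.2.1 (mem_coe.mpr hi.1) (mem_coe.mpr hj.1) hij
    · intro t ht
      rw [Set.mem_Ioo] at ht
      obtain ⟨j, hj, rfl⟩ := hσ.2.2 (Set.mem_Ioo.mpr ⟨by omega, ht.2⟩)
      have hjk : j ≠ k := by
        rintro rfl
        omega
      refine ⟨j, ?_, rfl⟩
      rw [mem_coe, hm2]
      refine ⟨hj, hjk, ?_⟩
      by_contra h1
      have := (hsep j hj hjk).1 (not_lt.mp h1)
      omega
  refine ⟨r, z, cost p w δ S₁ σ X, cost p w δ S₂ σ X, hσk.1, hσk.2, hzc,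
    ⟨σ, X, ⟨hσk.1, F.Xa, rfl, fun t h1 h2 => F.step t h1 (by omega),
      fun t h1 h2 => F.cap t h1 (by omega), hb1⟩, rfl⟩,
    ⟨σ, X, ⟨hσk.2, rfl, F.Xb, fun t h1 h2 => F.step t (by omega) h2,
      fun t h1 h2 => F.cap t (by omega) h2, hb2⟩, rfl⟩, ?_⟩
  have hcost : cost p w δ S₁ σ X + cost p w δ S₂ σ X + w k * ((r * p + z) - δ k)
      = ∑ j ∈ S, w j * ((σ j * p + X (σ j)) - δ j) := by
    rw [hU]
    unfold cost
    rw [sum_insert (by
      rw [mem_union, hm1, hm2]; tauto), sum_union hdis]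
    ring
  rw [hcost]
  exact hle

end Pool.Agent.helper80.Sched
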