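import Pool.Agent.helper80.Sched.Model
import Pool.Agent.helper80.Sched.Feas

/-!
# From schedules to half-integral completion times
-/

namespace Pool.Agent.helper80.Sched

open MeasureTheory Set

lemma floor_eq_on (y θ : ℝ) (h0 : 0 ≤ θ) (h1 : θ < 1) :
    (⌊y + θ⌋ : ℝ) = ⌊y⌋ + (Ici (1 - Int.fract y)).indicator (fun _ => (1 : ℝ)) θ := by
  have hy := Int.floor_add_fract y
  have hf0 := Int.fract_nonneg y
  have hf1 := Int.fract_lt_one y
  by_cases h : θ ∈ Ici (1 - Int.fract y)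
  · rw [indicator_of_mem h]
    have h' : 1 - Int.fract y ≤ θ := h
    have : ⌊y + θ⌋ = ⌊y⌋ + 1 := by
      rw [Int.floor_eq_iff]
      push_cast
      constructor <;> linarith
    rw [this]; push_cast; ring
  · rw [indicator_of_notMem h]
    have h' : θ < 1 - Int.fract y := not_le.mp h
    have : ⌊y + θ⌋ = ⌊y⌋ := by
      rw [Int.floor_eq_iff]
      constructor <;> linarith
    rw [this]; ring

lemma integrableOn_floor (y : ℝ) :
    IntegrableOn (fun θ : ℝ => (⌊y + θ⌋ : ℝ)) (Ico 0 1) := by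
  have : IntegrableOn (fun θ : ℝ => (⌊y⌋ : ℝ) +
      (Ici (1 - Int.fract y)).indicator (fun _ => (1 : ℝ)) θ) (Ico 0 1) := by
    refine Integrable.add (integrableOn_const (by simp)) ?_
    exact (integrableOn_const (by simp)).indicator measurableSet_Ici
  refine this.congr_fun ?_ measurableSet_Ico
  intro θ hθ
  exact (floor_eq_on y θ hθ.1 hθ.2).symm

lemma integral_floor (y : ℝ) : ∫ θ in Ico (0 : ℝ) 1, (⌊y + θ⌋ : ℝ) = y := by
  rw [setIntegral_congr_fun measurableSet_Ico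
    (fun θ (hθ : θ ∈ Ico (0:ℝ) 1) => floor_eq_on y θ hθ.1 hθ.2)]
  have hf0 := Int.fract_nonneg y
  have hf1 := Int.fract_lt_one y
  have hadd := integral_add (μ := volume.restrict (Ico (0:ℝ) 1)) (f := fun _ : ℝ => (⌊y⌋ : ℝ))
    (g := (Ici (1 - Int.fract y)).indicator (fun _ => (1 : ℝ))) (integrable_const _)
    ((integrable_const _).indicator measurableSet_Ici)
  rw [hadd, integral_indicator measurableSet_Ici, Measure.restrict_restrict measurableSet_Ici]
  have : Ici (1 - Int.fract y) ∩ Ico 0 1 = Ico (1 - Int.fract y) 1 := by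
    ext θ
    simp only [mem_inter_iff, mem_Ici, mem_Ico]
    constructor
    · rintro ⟨h1, h2, h3⟩; exact ⟨h1, h3⟩
    · rintro ⟨h1, h2⟩; exact ⟨h1, by linarith, h2⟩
  rw [this]
  simp only [integral_const, MeasurableSet.univ, measureReal_restrict_apply, univ_inter,
    smul_eq_mul, mul_one]
  rw [Real.volume_real_Ico_of_le (by norm_num), Real.volume_real_Ico_of_le (by linarith)]
  have hy := Int.floor_add_fract y
  linarith

lemma posFloor (x : ℝ) (d : ℤ) :
    IntegrableOn (fun θ : ℝ => max 0 ((⌊x + θ⌋ : ℝ) - d)) (Ico 0 1) ∧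
    ∫ θ in Ico (0 : ℝ) 1, max 0 ((⌊x + θ⌋ : ℝ) - d) = max 0 (x - d) := by
  rcases lt_or_ge x d with h | h
  · have h0 : ∀ θ ∈ Ico (0:ℝ) 1, max 0 ((⌊x + θ⌋ : ℝ) - d) = 0 := by
      intro θ hθ
      apply max_eq_left
      have : ⌊x + θ⌋ < d + 1 := by
        rw [Int.floor_lt]; push_cast; linarith [hθ.2]
      have : ⌊x + θ⌋ ≤ d := by omega
      have : (⌊x + θ⌋ : ℝ) ≤ d := by exact_mod_cast this
      linarith
    constructor
    · exact (integrableOn_zero).congr_fun (fun θ hθ => (h0 θ hθ).symm) measurableSet_Ico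
    · rw [setIntegral_congr_fun measurableSet_Ico h0, max_eq_left (by linarith)]
      simp
  · have h0 : ∀ θ ∈ Ico (0:ℝ) 1, max 0 ((⌊x + θ⌋ : ℝ) - d) = (⌊x + θ⌋ : ℝ) - d := by
      intro θ hθ
      apply max_eq_right
      have : d ≤ ⌊x + θ⌋ := by
        rw [Int.le_floor]; linarith [hθ.1]
      have : (d : ℝ) ≤ (⌊x + θ⌋ : ℝ) := by exact_mod_cast this
      linarith
    constructor
    · refine IntegrableOn.congr_fun (f := fun θ => (⌊x + θ⌋ : ℝ) - d) ?_
        (fun θ hθ => (h0 θ hθ).symm) measurableSet_Ico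
      exact Integrable.sub (integrableOn_floor x) (integrableOn_const (by simp))
    · rw [setIntegral_congr_fun measurableSet_Ico h0, max_eq_right (by linarith),
        integral_sub (integrableOn_floor x) (integrableOn_const (by simp)), integral_floor]
      simp

lemma posCeil (x : ℝ) (d : ℤ) :
    IntegrableOn (fun θ : ℝ => max 0 ((⌈x - θ⌉ : ℝ) - d)) (Ico 0 1) ∧
    ∫ θ in Ico (0 : ℝ) 1, max 0 ((⌈x - θ⌉ : ℝ) - d) = max 0 (x - d) := by
  have key : ∀ θ : ℝ, (⌈x - θ⌉ : ℝ) = -(⌊-x + θ⌋ : ℝ) := by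
    intro θ
    have : ⌈x - θ⌉ = -⌊-x + θ⌋ := by
      rw [← Int.ceil_neg]; congr 1; ring
    rw [this]; push_cast; ring
  have hI : IntegrableOn (fun θ : ℝ => (⌈x - θ⌉ : ℝ)) (Ico 0 1) := by
    simp_rw [key]
    exact (integrableOn_floor (-x)).neg
  have hV : ∫ θ in Ico (0 : ℝ) 1, (⌈x - θ⌉ : ℝ) = x := by
    simp_rw [key]
    rw [integral_neg, integral_floor]; ring
  rcases lt_or_ge x d with h | h
  · have h0 : ∀ θ ∈ Ico (0:ℝ) 1, max 0 ((⌈x - θ⌉ : ℝ) - d) = 0 := by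
      intro θ hθ
      apply max_eq_left
      have : ⌈x - θ⌉ ≤ d := by
        rw [Int.ceil_le]; linarith [hθ.1]
      have : (⌈x - θ⌉ : ℝ) ≤ d := by exact_mod_cast this
      linarith
    constructor
    · exact (integrableOn_zero).congr_fun (fun θ hθ => (h0 θ hθ).symm) measurableSet_Ico
    · rw [setIntegral_congr_fun measurableSet_Ico h0, max_eq_left (by linarith)]
      simp
  · have h0 : ∀ θ ∈ Ico (0:ℝ) 1, max 0 ((⌈x - θ⌉ : ℝ) - d) = (⌈x - θ⌉ : ℝ) - d := by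
      intro θ hθ
      apply max_eq_right
      have : d - 1 < ⌈x - θ⌉ := by
        rw [Int.lt_ceil]; push_cast; linarith [hθ.2]
      have : d ≤ ⌈x - θ⌉ := by omega
      have : (d : ℝ) ≤ (⌈x - θ⌉ : ℝ) := by exact_mod_cast this
      linarith
    constructor
    · refine IntegrableOn.congr_fun (f := fun θ => (⌈x - θ⌉ : ℝ) - d) ?_
        (fun θ hθ => (h0 θ hθ).symm) measurableSet_Ico
      exact Integrable.sub hI (integrableOn_const (by simp))
    · rw [setIntegral_congr_fun measurableSet_Ico h0, max_eq_right (by linarith),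
        integral_sub hI (integrableOn_const (by simp)), hV]
      simp

/-- The rounding map. -/
noncomputable def rnd (θ x : ℝ) : ℤ := ⌊x + θ⌋ + ⌈x - θ⌉

lemma exists_theta {ι : Type*} (F : Finset ι) (w : ι → ℝ) (hw : ∀ i ∈ F, 0 ≤ w i) (x : ι → ℝ)
    (d : ι → ℤ) :
    ∃ θ : ℝ, 0 ≤ θ ∧ θ < 1 ∧
      ∑ i ∈ F, w i * max 0 ((rnd θ (x i) : ℝ) - 2 * d i)
        ≤ 2 * ∑ i ∈ F, w i * max 0 (x i - d i) := by
  set g : ℝ → ℝ := fun θ => ∑ i ∈ F, w i * (max 0 ((⌊x i + θ⌋ : ℝ) - d i) +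
    max 0 ((⌈x i - θ⌉ : ℝ) - d i)) with hg
  have hint : ∀ i, IntegrableOn (fun θ : ℝ => w i * (max 0 ((⌊x i + θ⌋ : ℝ) - d i) +
    max 0 ((⌈x i - θ⌉ : ℝ) - d i))) (Ico 0 1) := fun i =>
    (Integrable.add (posFloor (x i) (d i)).1 (posCeil (x i) (d i)).1).const_mul (w i)
  have hgi : IntegrableOn g (Ico 0 1) := integrable_finsetSum _ (fun i _ => hint i)
  have hgv : ∫ θ in Ico (0:ℝ) 1, g θ = 2 * ∑ i ∈ F, w i * max 0 (x i - d i) := by
    rw [hg, integral_finsetSum _ (fun i _ => hint i), Finset.mul_sum]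
    refine Finset.sum_congr rfl fun i _ => ?_
    rw [integral_const_mul, integral_add (posFloor (x i) (d i)).1 (posCeil (x i) (d i)).1,
      (posFloor (x i) (d i)).2, (posCeil (x i) (d i)).2]
    ring
  have : IsProbabilityMeasure (volume.restrict (Ico (0:ℝ) 1)) := ⟨by simp⟩
  obtain ⟨θ, hθ, hle⟩ := exists_notMem_null_le_integral (μ := volume.restrict (Ico (0:ℝ) 1))
    (f := g) (N := (Ico (0:ℝ) 1)ᶜ) hgi (by
      rw [Measure.restrict_apply measurableSet_Ico.compl]; simp)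
  rw [mem_compl_iff, not_not] at hθ
  refine ⟨θ, hθ.1, hθ.2, ?_⟩
  rw [← hgv]
  refine le_trans ?_ hle
  rw [hg]
  refine Finset.sum_le_sum fun i hi => mul_le_mul_of_nonneg_left ?_ (hw i hi)
  unfold rnd
  push_cast
  rcases le_total 0 ((⌊x i + θ⌋ : ℝ) - d i) with h1 | h1 <;>
  rcases le_total 0 ((⌈x i - θ⌉ : ℝ) - d i) with h2 | h2
  · rw [max_eq_right h1, max_eq_right h2]
    exact max_le (by linarith) (by linarith)
  · rw [max_eq_right h1, max_eq_left h2]
    exact max_le (by linarith) (by linarith)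
  · rw [max_eq_left h1, max_eq_right h2]
    exact max_le (by linarith) (by linarith)
  · rw [max_eq_left h1, max_eq_left h2]
    exact max_le (by linarith) (by linarith)

lemma rnd_mono (θ : ℝ) {x y : ℝ} (h : x ≤ y) : rnd θ x ≤ rnd θ y :=
  add_le_add (Int.floor_le_floor (by linarith)) (Int.ceil_le_ceil (by linarith))

lemma rnd_zero (θ : ℝ) (h0 : 0 ≤ θ) (h1 : θ < 1) : rnd θ 0 = 0 := by
  unfold rnd
  have e1 : ⌊(0:ℝ) + θ⌋ = 0 := by rw [Int.floor_eq_iff]; push_cast; constructor <;> linarith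
  have e2 : ⌈(0:ℝ) - θ⌉ = 0 := by rw [Int.ceil_eq_iff]; push_cast; constructor <;> linarith
  rw [e1, e2]; rfl

lemma rnd_refl (θ : ℝ) (m : ℤ) (x : ℝ) : rnd θ ((m : ℝ) - x) = 2 * m - rnd θ x := by
  unfold rnd
  have e1 : ⌊(m:ℝ) - x + θ⌋ = m - ⌈x - θ⌉ := by
    have : (m:ℝ) - x + θ = -(x - θ) + m := by ring
    rw [this, Int.floor_add_intCast, Int.floor_neg]; ring
  have e2 : ⌈(m:ℝ) - x - θ⌉ = m - ⌊x + θ⌋ := by
    have : (m:ℝ) - x - θ = -(x + θ) + m := by ring
    rw [this, Int.ceil_add_intCast, Int.ceil_neg]; ring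
  rw [e1, e2]; ring

lemma rnd_add_ge (θ : ℝ) (m : ℤ) (x y : ℝ) (h : (m : ℝ) ≤ x + y) :
    2 * m ≤ rnd θ x + rnd θ y := by
  have := rnd_mono θ (show (m:ℝ) - x ≤ y by linarith)
  rw [rnd_refl] at this
  linarith

end Pool.Agent.helper80.Sched
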