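import Pool.Agent.helper80.Sched.Program
import Pool.Agent.helper80.Sched.Recur

/-!
# Correctness of the preparatory stages
-/

namespace Pool.Agent.helper80.Sched

open Finset

lemma q5_spec {μ : Mem} {N M p : ℕ} (h7 : reg μ 7 = N) (h8 : reg μ 8 = M)
    (h9 : ∀ a < N, μ 9 (a, 0, 0, 0, 0) = a * p) :
    ∀ a < N, ∀ x < M, q5.exec μ 10 (a, x, 0, 0, 0) = lim p a x := by
  have key := loop_fill (v := 20) (r := 7) (P := .loop 21 8 (.ite (rg 20) e0
    (s2 10 (rg 20) (rg 21) e0)
    (s2 10 (rg 20) (rg 21) (.add (.add (g1 9 (rg 20)) (rg 21)) e1)))) (μ := μ) h7 10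
    (fun a c => ∃ x < M, c = (a, x, 0, 0, 0)) (fun c => lim p c.1 c.2.1) ?_
  · intro a ha x hx
    have h := congrFun key (a, x, 0, 0, 0)
    unfold q5
    rw [h, fill_pos ⟨a, ha, x, hx, rfl⟩]
  · intro a ha ν hν _
    set ν' := write ν 20 (0, 0, 0, 0, 0) a with hν'
    have h20 : reg ν' 20 = a := by simp [hν']
    have h8' : reg ν' 8 = M := by
      rw [← h8]; show ν' 8 _ = μ 8 _
      rw [hν', write_ne (by decide), hν 8 (by decide) (by decide)]
    have h9' : ν' 9 (a, 0, 0, 0, 0) = a * p := by
      rw [hν', write_ne (by decide), hν 9 (by decide) (by decide)]; exact h9 a ha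
    have h10 : ν' 10 = ν 10 := by rw [hν', write_ne (by decide)]
    rw [← h10]
    refine loop_fill h8' 10 (fun x c => c = (a, x, 0, 0, 0)) _ ?_
    intro x hx η hη _
    set η' := write η 21 (0, 0, 0, 0, 0) x with hη'
    have k20 : η' 20 (0, 0, 0, 0, 0) = a := by
      rw [hη', write_ne (by decide), hη 20 (by decide) (by decide)]; exact h20
    have k21 : η' 21 (0, 0, 0, 0, 0) = x := by simp [hη']
    have k9 : η' 9 (a, 0, 0, 0, 0) = a * p := by
      rw [hη', write_ne (by decide), hη 9 (by decide) (by decide)]; exact h9'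
    have k10 : η' 10 = η 10 := by rw [hη', write_ne (by decide)]
    rw [← k10]
    by_cases h : a = 0
    · rw [ite_pos (by simp [Expr.eval, k20, h])]
      simp only [Prog.exec, Expr.eval, k20, k21, write_eq]
      exact fill_single _ _ _ _ (by simp [lim, h])
    · rw [ite_neg (by simp [Expr.eval, k20, h])]
      simp only [Prog.exec, Expr.eval, k20, k21, write_eq]
      exact fill_single _ _ _ _ (by simp [lim, h, k9])

/-! ### Ranks -/

/-- Job `i` comes before job `j` in the order of decreasing weights. -/
def above (w : ℕ → ℕ) (i j : ℕ) : Prop := w j < w i ∨ (w i = w j ∧ i < j)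

instance (w : ℕ → ℕ) (i j : ℕ) : Decidable (above w i j) := by unfold above; infer_instance

/-- The rank of a job. -/
def rank (n : ℕ) (w : ℕ → ℕ) (j : ℕ) : ℕ := ((range n).filter (fun i => above w i j)).card

lemma above_irrefl (w : ℕ → ℕ) (i : ℕ) : ¬ above w i i := by unfold above; omega

lemma above_trans {w : ℕ → ℕ} {i j k : ℕ} (h1 : above w i j) (h2 : above w j k) :
    above w i k := by
  unfold above at *; omega

lemma above_total (w : ℕ → ℕ) {i j : ℕ} (h : i ≠ j) : above w i j ∨ above w j i := by
  unfold above; omega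

lemma rank_lt {n : ℕ} {w : ℕ → ℕ} {i j : ℕ} (hi : i < n) (h : above w i j) :
    rank n w i < rank n w j := by
  unfold rank
  refine card_lt_card ?_
  rw [Finset.ssubset_iff_of_subset]
  · refine ⟨i, ?_, ?_⟩
    · rw [mem_filter, mem_range]; exact ⟨hi, h⟩
    · rw [mem_filter]; exact fun h => above_irrefl w i h.2
  · intro k hk
    rw [mem_filter] at hk ⊢
    exact ⟨hk.1, above_trans hk.2 h⟩

lemma rank_lt_n {n : ℕ} {w : ℕ → ℕ} {j : ℕ} (hj : j < n) : rank n w j < n := by
  unfold rank
  have : ((range n).filter (fun i => above w i j)).card < (range n).card := by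
    refine card_lt_card ?_
    rw [Finset.ssubset_iff_of_subset (filter_subset _ _)]
    refine ⟨j, mem_range.mpr hj, ?_⟩
    rw [mem_filter]; exact fun h => above_irrefl w j h.2
  rwa [card_range] at this

lemma rank_inj {n : ℕ} {w : ℕ → ℕ} {i j : ℕ} (hi : i < n) (hj : j < n)
    (h : rank n w i = rank n w j) : i = j := by
  by_contra hne
  rcases above_total w hne with h1 | h1
  · have := rank_lt hi h1; omega
  · have := rank_lt hj h1; omega

lemma rank_surj {n : ℕ} {w : ℕ → ℕ} {s : ℕ} (hs : s < n) : ∃ j < n, rank n w j = s := by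
  have h1 : (range n).image (rank n w) = range n := by
    refine eq_of_subset_of_card_le ?_ ?_
    · intro s hs
      rw [mem_image] at hs
      obtain ⟨j, hj, rfl⟩ := hs
      exact mem_range.mpr (rank_lt_n (mem_range.mp hj))
    · rw [card_image_of_injOn]
      intro i hi j hj h
      rw [mem_coe, mem_range] at hi hj
      exact rank_inj hi hj h
  have h2 : s ∈ (range n).image (rank n w) := by rw [h1]; exact mem_range.mpr hs
  rw [mem_image] at h2
  obtain ⟨j, hj, h⟩ := h2
  exact ⟨j, mem_range.mp hj, h⟩

open Classical in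
/-- The job of rank `s`. -/
noncomputable def jobAt (n : ℕ) (w : ℕ → ℕ) (s : ℕ) : ℕ :=
  if h : ∃ j < n, rank n w j = s then h.choose else n

lemma jobAt_spec {n : ℕ} {w : ℕ → ℕ} {s : ℕ} (hs : s < n) :
    jobAt n w s < n ∧ rank n w (jobAt n w s) = s := by
  have h := rank_surj (w := w) hs
  unfold jobAt
  rw [dif_pos h]
  exact h.choose_spec

lemma jobAt_rank {n : ℕ} {w : ℕ → ℕ} {j : ℕ} (hj : j < n) : jobAt n w (rank n w j) = j := by
  have h := jobAt_spec (w := w) (rank_lt_n (w := w) hj)
  exact rank_inj h.1 hj h.2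

lemma jobAt_injOn (n : ℕ) (w : ℕ → ℕ) : Set.InjOn (jobAt n w) (range n : Set ℕ) := by
  intro s hs t ht h
  rw [mem_coe, mem_range] at hs ht
  rw [← (jobAt_spec (w := w) hs).2, ← (jobAt_spec (w := w) ht).2, h]

lemma jobAt_mono {n : ℕ} {w : ℕ → ℕ} (s t : ℕ) (hst : s ≤ t) (ht : t < n) :
    w (jobAt n w t) ≤ w (jobAt n w s) := by
  by_contra h
  have h1 : above w (jobAt n w t) (jobAt n w s) := Or.inl (not_le.mp h)
  have h2 := rank_lt (jobAt_spec (w := w) ht).1 h1
  rw [(jobAt_spec ht).2, (jobAt_spec (by omega)).2] at h2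
  omega

lemma hv_jobAt (n : ℕ) (w : ℕ → ℕ) : hv (jobAt n w) n = range n := by
  ext j
  unfold hv
  rw [mem_image, mem_range]
  constructor
  · rintro ⟨s, hs, rfl⟩
    exact (jobAt_spec (mem_range.mp hs)).1
  · intro hj
    exact ⟨rank n w j, mem_range.mpr (rank_lt_n hj), jobAt_rank hj⟩

lemma count_succ (w : ℕ → ℕ) (k j : ℕ) :
    ((range (k + 1)).filter (fun i => above w i j)).card
      = ((range k).filter (fun i => above w i j)).card + if above w k j then 1 else 0 := by
  rw [range_add_one, filter_insert]
  split_ifs with h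
  · rw [card_insert_of_notMem (by simp)]
  · rfl

lemma q6_spec {μ : Mem} {n : ℕ} {w : ℕ → ℕ} (h0 : reg μ 0 = n)
    (h3 : ∀ j < n, μ 3 (j, 0, 0, 0, 0) = w j) (h12 : ∀ c, μ 12 c = 0) :
    ∀ j < n, q6.exec μ 12 (j, 0, 0, 0, 0) = rank n w j := by
  have key : (∀ j < n, q6.exec μ 12 (j, 0, 0, 0, 0) = rank n w j) ∧
      ∀ j ≥ n, q6.exec μ 12 (j, 0, 0, 0, 0) = 0 := by
    refine loop_inv h0 (fun k ν => (∀ j < k, ν 12 (j, 0, 0, 0, 0) = rank n w j) ∧
      ∀ j ≥ k, ν 12 (j, 0, 0, 0, 0) = 0) ?_ ?_
    · exact ⟨fun j hj => by omega, fun j _ => h12 _⟩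
    · intro j hj ν hν hI
      set ν' := write ν 20 (0, 0, 0, 0, 0) j with hν'
      have h20 : reg ν' 20 = j := by simp [hν']
      have h0' : reg ν' 0 = n := by
        rw [← h0]; show ν' 0 _ = μ 0 _
        rw [hν', write_ne (by decide), hν 0 (by decide) (by decide)]
      have h3' : ∀ j < n, ν' 3 (j, 0, 0, 0, 0) = w j := by
        intro j hj
        rw [hν', write_ne (by decide), hν 3 (by decide) (by decide)]; exact h3 j hj
      have h12' : ν' 12 = ν 12 := by rw [hν', write_ne (by decide)]
      have inner : Prog.exec (.loop 21 0 (.ite (g1 3 (rg 21)) (g1 3 (rg 20))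
        (.ite (g1 3 (rg 20)) (g1 3 (rg 21)) (.ite (.add (rg 21) e1) (rg 20) q6inc .skip) .skip)
        q6inc)) ν' 12 = fun c => if c = (j, 0, 0, 0, 0) then
          ((range n).filter (fun i => above w i j)).card else ν 12 c := by
        refine loop_inv h0' (fun k η => η 12 = fun c => if c = (j, 0, 0, 0, 0) then
          ((range k).filter (fun i => above w i j)).card else ν 12 c) ?_ ?_
        · rw [h12']
          funext c
          by_cases hc : c = (j, 0, 0, 0, 0)
          · subst hc; simp [hI.2 j le_rfl]
          · simp [hc]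
        · intro i hi η hη hJ
          set η' := write η 21 (0, 0, 0, 0, 0) i with hη'
          have k20 : η' 20 (0, 0, 0, 0, 0) = j := by
            rw [hη', write_ne (by decide), hη 20 (by decide) (by decide)]; exact h20
          have k21 : η' 21 (0, 0, 0, 0, 0) = i := by simp [hη']
          have k3 : ∀ j < n, η' 3 (j, 0, 0, 0, 0) = w j := by
            intro j hj
            rw [hη', write_ne (by decide), hη 3 (by decide) (by decide)]; exact h3' j hj
          have k12 : η' 12 = η 12 := by rw [hη', write_ne (by decide)]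
          have hinc : above w i j → q6inc.exec η' 12 = fun c => if c = (j, 0, 0, 0, 0) then
              ((range (i + 1)).filter (fun i => above w i j)).card else ν 12 c := by
            intro ha
            funext c
            simp only [q6inc, Prog.exec, Expr.eval, k20, write_eq, k12, hJ]
            by_cases hc : c = (j, 0, 0, 0, 0)
            · subst hc; simp only [if_true]; rw [count_succ, if_pos ha]
            · simp only [hc, if_false]
          have hskip : ¬ above w i j → η' 12 = fun c => if c = (j, 0, 0, 0, 0) then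
              ((range (i + 1)).filter (fun i => above w i j)).card else ν 12 c := by
            intro ha
            rw [k12, hJ, count_succ, if_neg ha, Nat.add_zero]
          have ev1 : (g1 3 (rg 21)).eval η' = w i := by
            simp only [Expr.eval, k21]; exact k3 i hi
          have ev2 : (g1 3 (rg 20)).eval η' = w j := by
            simp only [Expr.eval, k20]; exact k3 j hj
          have ev3 : (Expr.add (rg 21) e1).eval η' = i + 1 := by
            simp only [Expr.eval, k21]
          have ev4 : (rg 20).eval η' = j := by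
            simp only [Expr.eval, k20]
          by_cases c1 : w i ≤ w j
          · rw [ite_pos (by rw [ev1, ev2]; exact c1)]
            by_cases c2 : w j ≤ w i
            · rw [ite_pos (by rw [ev1, ev2]; exact c2)]
              by_cases c3 : i + 1 ≤ j
              · rw [ite_pos (by rw [ev3, ev4]; exact c3)]
                exact hinc (Or.inr ⟨by omega, by omega⟩)
              · rw [ite_neg (by rw [ev3, ev4]; exact c3)]
                exact hskip (by unfold above; omega)
            · rw [ite_neg (by rw [ev1, ev2]; exact c2)]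
              exact hskip (by unfold above; omega)
          · rw [ite_neg (by rw [ev1, ev2]; exact c1)]
            exact hinc (Or.inl (by omega))
      constructor
      · intro j' hj'
        rw [congrFun inner (j', 0, 0, 0, 0)]
        by_cases h : j' = j
        · subst h; simp [rank]
        · simp [h]; exact hI.1 j' (by omega)
      · intro j' hj'
        rw [congrFun inner (j', 0, 0, 0, 0)]
        have h : j' ≠ j := by omega
        simp [h]; exact hI.2 j' (by omega)
  exact key.1

lemma q7_spec {μ : Mem} {n : ℕ} {w : ℕ → ℕ} (h0 : reg μ 0 = n)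
    (h12 : ∀ j < n, μ 12 (j, 0, 0, 0, 0) = rank n w j) :
    ∀ s < n, q7.exec μ 13 (s, 0, 0, 0, 0) = jobAt n w s := by
  have key : ∀ j < n, q7.exec μ 13 (rank n w j, 0, 0, 0, 0) = j := by
    refine loop_inv h0 (fun k ν => ∀ j < k, ν 13 (rank n w j, 0, 0, 0, 0) = j) ?_ ?_
    · intro j hj; omega
    · intro i hi ν hν hI j hj
      have h12' : ν 12 (i, 0, 0, 0, 0) = rank n w i := by
        rw [hν 12 (by decide) (by decide)]; exact h12 i hi
      simp only [Prog.exec, Expr.eval, write]
      simp [h12']
      by_cases h : j = i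
      · subst h; simp
      · have : rank n w j ≠ rank n w i := fun h' => h (rank_inj (by omega) hi h')
        simp [this]
        exact hI j (by omega)
  intro s hs
  have h := jobAt_spec (w := w) hs
  have := key _ h.1
  rw [h.2] at this
  exact this

/-! ### Costs of single jobs -/

lemma q8_spec {μ : Mem} {n N M T p : ℕ} {w δ : ℕ → ℕ} (h0 : reg μ 0 = n) (h7 : reg μ 7 = N)
    (h8 : reg μ 8 = M) (h16 : reg μ 16 = T)
    (h3 : ∀ j < n, μ 3 (j, 0, 0, 0, 0) = w j) (h11 : ∀ j < n, μ 11 (j, 0, 0, 0, 0) = δ j)
    (h9 : ∀ a < N, μ 9 (a, 0, 0, 0, 0) = a * p) (h14 : ∀ c, μ 14 c = 0)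
    (hT : ∀ r < N, ∀ z < M, r * p + z ≤ T) :
    ∀ j < n, ∀ r < N, ∀ z < M,
      q8.exec μ 14 (j, r, z, 0, 0) = w j * ((r * p + z) - δ j) := by
  have key := loop_fill (v := 20) (r := 0) (P := .loop 21 7 (.loop 22 8 (.loop 23 16
  (.ite (.add (rg 23) e1) (.sub (.add (g1 9 (rg 21)) (rg 22)) (g1 11 (rg 20)))
    (s3 14 (rg 20) (rg 21) (rg 22) (.add (g3 14 (rg 20) (rg 21) (rg 22)) (g1 3 (rg 20))))
    .skip)))) (μ := μ) h0 14
    (fun j c => ∃ r < N, ∃ z < M, c = (j, r, z, 0, 0))
    (fun c => w c.1 * ((c.2.1 * p + c.2.2.1) - δ c.1)) ?_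
  · intro j hj r hr z hz
    have h := congrFun key (j, r, z, 0, 0)
    unfold q8
    rw [h, fill_pos ⟨j, hj, r, hr, z, hz, rfl⟩]
  · intro j hj ν hν hνA
    set ν' := write ν 20 (0, 0, 0, 0, 0) j with hν'
    have a20 : ν' 20 (0, 0, 0, 0, 0) = j := by simp [hν']
    have aB : ∀ B, B ≠ 20 → B ∉ Prog.writes (.loop 21 7 (.loop 22 8 (.loop 23 16
      (.ite (.add (rg 23) e1) (.sub (.add (g1 9 (rg 21)) (rg 22)) (g1 11 (rg 20)))
      (s3 14 (rg 20) (rg 21) (rg 22) (.add (g3 14 (rg 20) (rg 21) (rg 22)) (g1 3 (rg 20))))
      .skip)))) → ν' B = μ B := by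
      intro B h1 h2
      rw [hν', write_ne h1, hν B h1 h2]
    have a14 : ν' 14 = ν 14 := by rw [hν', write_ne (by decide)]
    have a7 : reg ν' 7 = N := by
      show ν' 7 _ = N
      rw [aB 7 (by decide) (by decide)]; exact h7
    rw [← a14]
    refine loop_fill a7 14 (fun r c => ∃ z < M, c = (j, r, z, 0, 0)) _ ?_
    intro r hr η hη hηA
    set η' := write η 21 (0, 0, 0, 0, 0) r with hη'
    have b21 : η' 21 (0, 0, 0, 0, 0) = r := by simp [hη']
    have b14 : η' 14 = η 14 := by rw [hη', write_ne (by decide)]
    have b20 : η' 20 (0, 0, 0, 0, 0) = j := by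
      rw [hη', write_ne (by decide), hη 20 (by decide) (by decide)]; exact a20
    have b8 : reg η' 8 = M := by
      show η' 8 _ = M
      rw [hη', write_ne (by decide), hη 8 (by decide) (by decide), aB 8 (by decide) (by decide)]
      exact h8
    rw [← b14]
    refine loop_fill b8 14 (fun z c => c = (j, r, z, 0, 0)) _ ?_
    intro z hz ζ hζ hζA
    set ζ' := write ζ 22 (0, 0, 0, 0, 0) z with hζ'
    have c22 : ζ' 22 (0, 0, 0, 0, 0) = z := by simp [hζ']
    have c14 : ζ' 14 = ζ 14 := by rw [hζ', write_ne (by decide)]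
    have c21 : ζ' 21 (0, 0, 0, 0, 0) = r := by
      rw [hζ', write_ne (by decide), hζ 21 (by decide) (by decide)]; exact b21
    have c20 : ζ' 20 (0, 0, 0, 0, 0) = j := by
      rw [hζ', write_ne (by decide), hζ 20 (by decide) (by decide)]; exact b20
    have c16 : reg ζ' 16 = T := by
      show ζ' 16 _ = T
      rw [hζ', write_ne (by decide), hζ 16 (by decide) (by decide), hη', write_ne (by decide),
        hη 16 (by decide) (by decide), aB 16 (by decide) (by decide)]
      exact h16
    have c9 : ζ' 9 (r, 0, 0, 0, 0) = r * p := by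
      rw [hζ', write_ne (by decide), hζ 9 (by decide) (by decide), hη', write_ne (by decide),
        hη 9 (by decide) (by decide), aB 9 (by decide) (by decide)]
      exact h9 r hr
    have c3 : ζ' 3 (j, 0, 0, 0, 0) = w j := by
      rw [hζ', write_ne (by decide), hζ 3 (by decide) (by decide), hη', write_ne (by decide),
        hη 3 (by decide) (by decide), aB 3 (by decide) (by decide)]
      exact h3 j hj
    have c11 : ζ' 11 (j, 0, 0, 0, 0) = δ j := by
      rw [hζ', write_ne (by decide), hζ 11 (by decide) (by decide), hη', write_ne (by decide),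
        hη 11 (by decide) (by decide), aB 11 (by decide) (by decide)]
      exact h11 j hj
    have cz : ζ' 14 (j, r, z, 0, 0) = 0 := by
      rw [c14, hζA _ (by
        intro z' hz' h
        simp only [Prod.mk.injEq] at h
        omega), b14, hηA _ (by
        rintro r' hr' ⟨z', _, h⟩
        simp only [Prod.mk.injEq] at h
        omega), a14, hνA _ (by
        rintro j' hj' ⟨r', _, z', _, h⟩
        simp only [Prod.mk.injEq] at h
        omega), h14]
    rw [← c14]
    have inner : Prog.exec (.loop 23 16
      (.ite (.add (rg 23) e1) (.sub (.add (g1 9 (rg 21)) (rg 22)) (g1 11 (rg 20)))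
        (s3 14 (rg 20) (rg 21) (rg 22) (.add (g3 14 (rg 20) (rg 21) (rg 22)) (g1 3 (rg 20))))
        .skip)) ζ' 14 = fun c => if c = (j, r, z, 0, 0) then
          w j * min T ((r * p + z) - δ j) else ζ' 14 c := by
      refine loop_inv c16 (fun k θ => θ 14 = fun c => if c = (j, r, z, 0, 0) then
          w j * min k ((r * p + z) - δ j) else ζ' 14 c) ?_ ?_
      · funext c
        by_cases hc : c = (j, r, z, 0, 0)
        · subst hc; simp [cz]
        · simp [hc]
      · intro u hu θ hθ hI
        set θ' := write θ 23 (0, 0, 0, 0, 0) u with hθ'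
        have d23 : θ' 23 (0, 0, 0, 0, 0) = u := by simp [hθ']
        have d22 : θ' 22 (0, 0, 0, 0, 0) = z := by
          rw [hθ', write_ne (by decide), hθ 22 (by decide) (by decide)]; exact c22
        have d21 : θ' 21 (0, 0, 0, 0, 0) = r := by
          rw [hθ', write_ne (by decide), hθ 21 (by decide) (by decide)]; exact c21
        have d20 : θ' 20 (0, 0, 0, 0, 0) = j := by
          rw [hθ', write_ne (by decide), hθ 20 (by decide) (by decide)]; exact c20
        have d9 : θ' 9 (r, 0, 0, 0, 0) = r * p := by
          rw [hθ', write_ne (by decide), hθ 9 (by decide) (by decide)]; exact c9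
        have d3 : θ' 3 (j, 0, 0, 0, 0) = w j := by
          rw [hθ', write_ne (by decide), hθ 3 (by decide) (by decide)]; exact c3
        have d11 : θ' 11 (j, 0, 0, 0, 0) = δ j := by
          rw [hθ', write_ne (by decide), hθ 11 (by decide) (by decide)]; exact c11
        have d14 : θ' 14 = θ 14 := by rw [hθ', write_ne (by decide)]
        by_cases h : u + 1 ≤ (r * p + z) - δ j
        · rw [ite_pos (by simp only [Expr.eval, d23, d22, d21, d20, d9, d11]; exact h)]
          funext c
          simp only [Prog.exec, Expr.eval, d20, d21, d22, d3, write_eq, d14, hI]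
          by_cases hc : c = (j, r, z, 0, 0)
          · subst hc
            simp only [if_true]
            rw [min_eq_left (by omega), min_eq_left (by omega)]
            ring
          · simp only [hc, if_false]
        · rw [ite_neg (by simp only [Expr.eval, d23, d22, d21, d20, d9, d11]; exact h)]
          simp only [Prog.exec]
          rw [d14, hI]
          funext c
          by_cases hc : c = (j, r, z, 0, 0)
          · subst hc
            simp only [if_true]
            rw [min_eq_right (by omega), min_eq_right (by omega)]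
          · simp only [hc, if_false]
    rw [inner]
    refine fill_single _ _ _ _ ?_
    rw [min_eq_right]
    have := hT r hr z hz
    omega

end Pool.Agent.helper80.Sched
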