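import Pool.Agent.helper80.Sched.Spec1

/-!
# Correctness of the dynamic program
-/

namespace Pool.Agent.helper80.Sched

open Finset

open Classical in
/-- One plus the least element of a set of numbers, zero for the empty set. -/
noncomputable def optv (A : Set ℕ) : ℕ := if A.Nonempty then sInf A + 1 else 0

lemma optv_empty : optv ∅ = 0 := if_neg Set.not_nonempty_empty

lemma optv_eq {A : Set ℕ} {c : ℕ} (h : IsLeast A c) : optv A = c + 1 := by
  unfold optv
  rw [if_pos ⟨c, h.1⟩]
  have : sInf A = c := le_antisymm (Nat.sInf_le h.1) (h.2 (Nat.sInf_mem ⟨c, h.1⟩))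
  rw [this]

lemma optv_spec {A : Set ℕ} (h : 1 ≤ optv A) : IsLeast A (optv A - 1) := by
  unfold optv at *
  split_ifs at h ⊢ with h1
  · rw [Nat.add_sub_cancel]
    exact ⟨Nat.sInf_mem h1, fun c hc => Nat.sInf_le hc⟩
  · omega

lemma optv_pos {A : Set ℕ} {c : ℕ} (h : c ∈ A) : 1 ≤ optv A ∧ optv A ≤ c + 1 := by
  unfold optv
  rw [if_pos ⟨c, h⟩]
  have := Nat.sInf_le h
  omega

/-- The table of the dynamic program as a function of the address. -/
noncomputable def tab (p : ℕ) (w δ J : ℕ → ℕ) (c : Addr) : ℕ :=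
  optv (costs p w δ J c.1 c.2.1 c.2.2.1 c.2.2.2.1 c.2.2.2.2)

/-- `cur` is the least element of `V`, or zero if `V` is empty. -/
def Best (cur : ℕ) (V : Set ℕ) : Prop := (cur = 0 ∧ V = ∅) ∨ (1 ≤ cur ∧ IsLeast V cur)

/-- The values of the candidates. -/
def vals (F : ℕ → ℕ → ℕ) (R : ℕ → ℕ → Prop) : Set ℕ :=
  {v | 1 ≤ v ∧ ∃ r z, R r z ∧ F r z = v}

lemma best_step {cur v : ℕ} {V V' : Set ℕ} (h : Best cur V) (hV : ∀ x, x ∈ V' ↔ x ∈ V ∨ (1 ≤ x ∧ x = v)) :
    Best (if v = 0 then cur else if cur = 0 then v else min cur v) V' := by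
  by_cases hv : v = 0
  · rw [if_pos hv]
    have : V' = V := by
      ext x; rw [hV]; constructor
      · rintro (h | h)
        · exact h
        · omega
      · exact Or.inl
    rw [this]; exact h
  · rw [if_neg hv]
    rcases h with ⟨h1, h2⟩ | ⟨h1, h2⟩
    · rw [if_pos h1]
      refine Or.inr ⟨by omega, (hV v).mpr (Or.inr ⟨by omega, rfl⟩), ?_⟩
      intro x hx
      rw [hV, h2] at hx
      rcases hx with hx | hx
      · exact absurd hx (Set.notMem_empty x)
      · omega
    · rw [if_neg (by omega)]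
      refine Or.inr ⟨by omega, ?_, ?_⟩
      · rw [hV]
        rcases le_total cur v with h | h
        · rw [min_eq_left h]; exact Or.inl h2.1
        · rw [min_eq_right h]; exact Or.inr ⟨by omega, rfl⟩
      · intro x hx
        rw [hV] at hx
        rcases hx with hx | hx
        · exact (min_le_left _ _).trans (h2.2 hx)
        · rw [hx.2]; exact min_le_right _ _

/-- The value of a candidate. -/
def candv (m1 m2 g : ℕ) : ℕ := if 1 ≤ m1 ∧ 1 ≤ m2 then m1 + m2 + g - 1 else 0

lemma q10cand_spec {μ : Mem} {s a x b y r z k m1 m2 g : ℕ}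
    (h19 : reg μ 19 = s) (h20 : reg μ 20 = a) (h21 : reg μ 21 = x) (h22 : reg μ 22 = b)
    (h23 : reg μ 23 = y) (h24 : reg μ 24 = r) (h25 : reg μ 25 = z) (h18 : reg μ 18 = k)
    (hm1 : μ 15 (s, a, x, r, z) = m1) (hm2 : μ 15 (s, r, z, b, y) = m2)
    (hg : μ 14 (k, r, z, 0, 0) = g) :
    reg (q10cand.exec μ) 17 = if candv m1 m2 g = 0 then reg μ 17 else
      if reg μ 17 = 0 then candv m1 m2 g else min (reg μ 17) (candv m1 m2 g) := by
  simp only [reg] at h19 h20 h21 h22 h23 h24 h25 h18
  have ev1 : mL.eval μ = m1 := by simp only [Expr.eval, h19, h20, h21, h24, h25, hm1]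
  have ev2 : mR.eval μ = m2 := by simp only [Expr.eval, h19, h22, h23, h24, h25, hm2]
  have evc : e1.eval μ = 1 := rfl
  unfold q10cand
  by_cases c1 : 1 ≤ m1
  · rw [ite_pos (by rw [ev1, evc]; exact c1)]
    by_cases c2 : 1 ≤ m2
    · rw [ite_pos (by rw [ev2, evc]; exact c2)]
      have hv : candv m1 m2 g = m1 + m2 + g - 1 := by unfold candv; rw [if_pos ⟨c1, c2⟩]
      rw [if_neg (by omega : ¬ candv m1 m2 g = 0)]
      show reg (Prog.exec _ (Prog.exec (sr 26 _) μ)) 17 = _
      set μ' := Prog.exec (sr 26 (.sub (.add (.add mL mR) (g3 14 (rg 18) (rg 24) (rg 25))) e1)) μ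
        with hμ'
      have k26 : reg μ' 26 = candv m1 m2 g := by
        rw [hμ', hv]
        show write _ _ _ _ _ _ = _
        simp only [write]
        have : (Expr.sub (.add (.add mL mR) (g3 14 (rg 18) (rg 24) (rg 25))) e1).eval μ
            = m1 + m2 + g - 1 := by
          simp only [Expr.eval, h19, h20, h21, h24, h25, hm1, h22, h23, hm2, h18, hg]
        rw [this]
        simp [Expr.eval]
      have k17 : reg μ' 17 = reg μ 17 := by
        show Prog.exec _ μ 17 _ = μ 17 _
        rw [frame _ _ _ (by decide)]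
      have ev3 : (rg 17).eval μ' = reg μ 17 := by
        rw [← k17]; rfl
      have ev4 : (rg 26).eval μ' = candv m1 m2 g := by
        rw [← k26]; rfl
      have evs : reg (Prog.exec (sr 17 (rg 26)) μ') 17 = candv m1 m2 g := by
        show write _ _ _ _ _ _ = _
        simp only [write, ev4]
        simp [Expr.eval]
      by_cases c3 : 1 ≤ reg μ 17
      · rw [ite_pos (by rw [ev3]; exact c3), if_neg (by omega)]
        by_cases c4 : reg μ 17 ≤ candv m1 m2 g
        · rw [ite_pos (by rw [ev3, ev4]; exact c4), min_eq_left c4]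
          exact k17
        · rw [ite_neg (by rw [ev3, ev4]; exact c4), min_eq_right (by omega)]
          exact evs
      · rw [ite_neg (by rw [ev3]; exact c3), if_pos (by omega)]
        exact evs
    · rw [ite_neg (by rw [ev2, evc]; exact c2)]
      have hv : candv m1 m2 g = 0 := by unfold candv; rw [if_neg]; tauto
      rw [if_pos hv]; rfl
  · rw [ite_neg (by rw [ev1, evc]; exact c1)]
    have hv : candv m1 m2 g = 0 := by unfold candv; rw [if_neg]; tauto
    rw [if_pos hv]; rfl

lemma q10min_spec {μ : Mem} {N M s a x b y k : ℕ} {m1 m2 g : ℕ → ℕ → ℕ}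
    (h7 : reg μ 7 = N) (h8 : reg μ 8 = M)
    (h19 : reg μ 19 = s) (h20 : reg μ 20 = a) (h21 : reg μ 21 = x) (h22 : reg μ 22 = b)
    (h23 : reg μ 23 = y) (h18 : reg μ 18 = k)
    (hm1 : ∀ r < N, ∀ z < M, μ 15 (s, a, x, r, z) = m1 r z)
    (hm2 : ∀ r < N, ∀ z < M, μ 15 (s, r, z, b, y) = m2 r z)
    (hg : ∀ r < N, ∀ z < M, μ 14 (k, r, z, 0, 0) = g r z) :
    Best (reg (q10min.exec μ) 17)
      (vals (fun r z => candv (m1 r z) (m2 r z) (g r z)) (fun r z => r < N ∧ z < M)) := by
  simp only [reg] at h19 h20 h21 h22 h23 h18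
  show Best (reg (Prog.exec _ (Prog.exec (sr 17 e0) μ)) 17) _
  set μ' := Prog.exec (sr 17 e0) μ with hμ'
  have k17 : reg μ' 17 = 0 := by
    show write _ _ _ _ _ _ = _
    simp [write, Expr.eval]
  have fr : ∀ B, B ≠ 17 → μ' B = μ B := by
    intro B hB
    rw [hμ']
    exact write_ne hB _ _
  have k7 : reg μ' 7 = N := by show μ' 7 _ = N; rw [fr 7 (by decide)]; exact h7
  refine loop_inv k7 (fun i ν => Best (reg ν 17)
    (vals (fun r z => candv (m1 r z) (m2 r z) (g r z)) (fun r z => r < i ∧ z < M))) ?_ ?_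
  · left
    refine ⟨k17, ?_⟩
    ext v
    simp [vals]
  · intro r hr ν hν hI
    set ν' := write ν 24 (0, 0, 0, 0, 0) r with hν'
    have frν : ∀ B, B ≠ 24 → B ∉ Prog.writes (.loop 25 8 q10cand) → ν' B = μ' B := by
      intro B h1 h2
      rw [hν', write_ne h1, hν B h1 h2]
    have l17 : reg ν' 17 = reg ν 17 := by
      show write _ _ _ _ _ _ = _
      rw [write_ne (by decide)]
    have l8 : reg ν' 8 = M := by
      show ν' 8 _ = M
      rw [frν 8 (by decide) (by decide), fr 8 (by decide)]; exact h8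
    have l24 : ν' 24 (0, 0, 0, 0, 0) = r := by simp [hν']
    have key := loop_inv (v := 25) (r := 8) (P := q10cand) (μ := ν') l8 (fun j η => Best (reg η 17)
      (vals (fun r z => candv (m1 r z) (m2 r z) (g r z))
        (fun r' z => (r' < r ∧ z < M) ∨ (r' = r ∧ z < j)))) ?_ ?_
    · have hset : vals (fun r z => candv (m1 r z) (m2 r z) (g r z)) (fun r' z => r' < r + 1 ∧ z < M)
          = vals (fun r z => candv (m1 r z) (m2 r z) (g r z))
        (fun r' z => (r' < r ∧ z < M) ∨ (r' = r ∧ z < M)) := by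
        unfold vals
        ext v
        constructor
        · rintro ⟨h1, r', z, h2, h3⟩
          exact ⟨h1, r', z, by omega, h3⟩
        · rintro ⟨h1, r', z, h2, h3⟩
          exact ⟨h1, r', z, by omega, h3⟩
      rw [hset]
      exact key
    · rw [l17]
      have hset : vals (fun r z => candv (m1 r z) (m2 r z) (g r z))
        (fun r' z => (r' < r ∧ z < M) ∨ (r' = r ∧ z < 0))
        = vals (fun r z => candv (m1 r z) (m2 r z) (g r z)) (fun r' z => r' < r ∧ z < M) := by
        unfold vals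
        ext v
        constructor
        · rintro ⟨h1, r', z, h2, h3⟩
          exact ⟨h1, r', z, by omega, h3⟩
        · rintro ⟨h1, r', z, h2, h3⟩
          exact ⟨h1, r', z, by omega, h3⟩
      rw [hset]
      exact hI
    · intro z hz η hη hJ
      set η' := write η 25 (0, 0, 0, 0, 0) z with hη'
      have l25 : reg η' 25 = z := by simp [hη']
      have frη : ∀ B, B ≠ 25 → B ∉ q10cand.writes → η' B = ν' B := by
        intro B h1 h2
        rw [hη', write_ne h1, hη B h1 h2]
      have m17 : reg η' 17 = reg η 17 := by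
        show write _ _ _ _ _ _ = _
        rw [write_ne (by decide)]
      have frall : ∀ B, B ≠ 25 → B ≠ 24 → B ≠ 17 → B ∉ q10cand.writes → η' B = μ B := by
        intro B h1 h2 h3 h4
        rw [frη B h1 h4, frν B h2 (by
          simp only [Prog.writes, mem_insert, not_or]
          exact ⟨h1, h4⟩), fr B h3]
      rw [q10cand_spec (μ := η') (s := s) (a := a) (x := x) (b := b) (y := y) (r := r) (z := z)
        (k := k) (m1 := m1 r z) (m2 := m2 r z) (g := g r z)
        (by show η' 19 _ = _; rw [frall 19 (by decide) (by decide) (by decide) (by decide)]; exact h19)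
        (by show η' 20 _ = _; rw [frall 20 (by decide) (by decide) (by decide) (by decide)]; exact h20)
        (by show η' 21 _ = _; rw [frall 21 (by decide) (by decide) (by decide) (by decide)]; exact h21)
        (by show η' 22 _ = _; rw [frall 22 (by decide) (by decide) (by decide) (by decide)]; exact h22)
        (by show η' 23 _ = _; rw [frall 23 (by decide) (by decide) (by decide) (by decide)]; exact h23)
        (by show η' 24 _ = _; rw [frη 24 (by decide) (by decide)]; exact l24)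
        l25
        (by show η' 18 _ = _; rw [frall 18 (by decide) (by decide) (by decide) (by decide)]; exact h18)
        (by rw [frall 15 (by decide) (by decide) (by decide) (by decide)]; exact hm1 r hr z hz)
        (by rw [frall 15 (by decide) (by decide) (by decide) (by decide)]; exact hm2 r hr z hz)
        (by rw [frall 14 (by decide) (by decide) (by decide) (by decide)]; exact hg r hr z hz), m17]
      refine best_step hJ ?_
      intro v
      unfold vals
      constructor
      · rintro ⟨h1, r', z', h2, h3⟩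
        by_cases h4 : r' = r ∧ z' = z
        · right
          obtain ⟨rfl, rfl⟩ := h4
          exact ⟨h1, h3.symm⟩
        · left
          exact ⟨h1, r', z', by omega, h3⟩
      · rintro (⟨h1, r', z', h2, h3⟩ | ⟨h1, h2⟩)
        · exact ⟨h1, r', z', by omega, h3⟩
        · exact ⟨h1, r, z, Or.inr ⟨rfl, by omega⟩, h2.symm⟩

lemma min_eq_tab {n N M p s a x b y cur : ℕ} {w δ J : ℕ → ℕ} (hJ : Set.InjOn J (range n : Set ℕ))
    (hw : ∀ s t, s ≤ t → t < n → w (J t) ≤ w (J s)) (hs : s < n)
    (hM : M = 2 * p + 1) (hb : b < N)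
    (h : lim p a x < δ (J s) + 1 ∧ δ (J s) + 1 ≤ lim p b y)
    (hcur : Best cur (vals (fun r z => candv (tab p w δ J (s, a, x, r, z))
      (tab p w δ J (s, r, z, b, y)) (w (J s) * ((r * p + z) - δ (J s))))
      (fun r z => r < N ∧ z < M))) :
    cur = tab p w δ J (s + 1, a, x, b, y) := by
  -- every solution gives a candidate
  have hup : ∀ c ∈ costs p w δ J (s + 1) a x b y, ∃ v ∈ (vals (fun r z =>
      candv (tab p w δ J (s, a, x, r, z))
      (tab p w δ J (s, r, z, b, y)) (w (J s) * ((r * p + z) - δ (J s))))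
      (fun r z => r < N ∧ z < M)), v ≤ c + 1 := by
    intro c hc
    obtain ⟨r, z, c₁, c₂, h1, h2, h3, h4, h5, h6⟩ := costs_split hJ hw hs h hc
    have g1 := optv_pos h4
    have g2 := optv_pos h5
    refine ⟨_, ⟨?_, r, z, ⟨by omega, by omega⟩, rfl⟩, ?_⟩
    · unfold candv tab
      simp only
      rw [if_pos ⟨g1.1, g2.1⟩]; omega
    · unfold candv tab
      simp only
      rw [if_pos ⟨g1.1, g2.1⟩]; omega
  rcases hcur with ⟨h1, h2⟩ | ⟨h1, h2⟩
  · have : costs p w δ J (s + 1) a x b y = ∅ := by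
      ext c
      simp only [Set.mem_empty_iff_false, iff_false]
      intro hc
      obtain ⟨v, hv, _⟩ := hup c hc
      rw [h2] at hv
      exact hv
    unfold tab
    simp only
    rw [this, optv_empty, h1]
  · have hle : IsLeast (costs p w δ J (s + 1) a x b y) (cur - 1) := by
      constructor
      · obtain ⟨h3, r, z, h4, h5⟩ := h2.1
        simp only [candv] at h5
        split_ifs at h5 with h6
        · have g1 := optv_spec h6.1
          have g2 := optv_spec h6.2
          have := costs_join hJ hs h g1.1 g2.1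
          rw [← h5]
          convert this using 1
          unfold tab at h6 ⊢
          simp only at h6 ⊢
          omega
        · omega
      · intro c hc
        obtain ⟨v, hv, h3⟩ := hup c hc
        have := h2.2 hv
        omega
    unfold tab
    simp only
    rw [optv_eq hle]
    omega

/-! ### The nested loops over pairs of states -/

/-- Arrays changed by the body of the nested loops. -/
lemma nest_spec {Q : Prog} {μ : Mem} {N M s : ℕ} {f : Addr → ℕ}
    (h7 : reg μ 7 = N) (h8 : reg μ 8 = M)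
    (hQ : ∀ v ∈ ({7, 8, 20, 21, 22, 23} : Finset ℕ), v ∉ Q.writes)
    (hbody : ∀ a < N, ∀ x < M, ∀ b < N, ∀ y < M, ∀ ν : Mem,
      (∀ B, B ∉ ({20, 21, 22, 23} : Finset ℕ) → B ∉ Q.writes → ν B = μ B) →
      (∀ c : Addr, c.1 ≠ s → ν 15 c = μ 15 c) →
      reg ν 20 = a → reg ν 21 = x → reg ν 22 = b → reg ν 23 = y →
      Q.exec ν 15 = fill (fun c => c = (s, a, x, b, y)) f (ν 15)) :
    (nest Q).exec μ 15
      = fill (fun c => ∃ a < N, ∃ x < M, ∃ b < N, ∃ y < M, c = (s, a, x, b, y)) f (μ 15) := by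
  have q7 := hQ 7 (by decide)
  have q8 := hQ 8 (by decide)
  have q20 := hQ 20 (by decide)
  have q21 := hQ 21 (by decide)
  have q22 := hQ 22 (by decide)
  refine loop_fill h7 15 (fun a c => ∃ x < M, ∃ b < N, ∃ y < M, c = (s, a, x, b, y)) f ?_
  intro a ha ν₁ hν₁ hA₁
  set η₁ := write ν₁ 20 (0, 0, 0, 0, 0) a with hη₁
  have a15 : η₁ 15 = ν₁ 15 := by rw [hη₁, write_ne (by decide)]
  have a20 : reg η₁ 20 = a := by simp [hη₁]
  have aB : ∀ B, B ∉ ({20, 21, 22, 23} : Finset ℕ) → B ∉ Q.writes → η₁ B = μ B := by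
    intro B h1 h2
    simp only [mem_insert, mem_singleton, not_or] at h1
    rw [hη₁, write_ne h1.1, hν₁ B h1.1 (by
      simp only [Prog.writes, mem_insert, not_or]; exact ⟨h1.2.1, h1.2.2.1, h1.2.2.2, h2⟩)]
  have aC : ∀ c : Addr, c.1 ≠ s → η₁ 15 c = μ 15 c := by
    intro c hc
    rw [a15]
    refine hA₁ c ?_
    rintro a' _ ⟨x, _, b, _, y, _, h⟩
    rw [h] at hc
    exact hc rfl
  rw [← a15]
  have a8 : reg η₁ 8 = M := by show η₁ 8 _ = M; rw [aB 8 (by decide) q8]; exact h8
  refine loop_fill a8 15 (fun x c => ∃ b < N, ∃ y < M, c = (s, a, x, b, y)) f ?_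
  intro x hx ν₂ hν₂ hA₂
  set η₂ := write ν₂ 21 (0, 0, 0, 0, 0) x with hη₂
  have b15 : η₂ 15 = ν₂ 15 := by rw [hη₂, write_ne (by decide)]
  have b21 : reg η₂ 21 = x := by simp [hη₂]
  have b20 : reg η₂ 20 = a := by
    show η₂ 20 _ = a
    rw [hη₂, write_ne (by decide), hν₂ 20 (by decide) (by
      simp only [Prog.writes, mem_insert, not_or]; exact ⟨by decide, by decide, q20⟩)]
    exact a20
  have bB : ∀ B, B ∉ ({20, 21, 22, 23} : Finset ℕ) → B ∉ Q.writes → η₂ B = μ B := by
    intro B h1 h2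
    have h1' := h1
    simp only [mem_insert, mem_singleton, not_or] at h1
    rw [hη₂, write_ne h1.2.1, hν₂ B h1.2.1 (by
      simp only [Prog.writes, mem_insert, not_or]; exact ⟨h1.2.2.1, h1.2.2.2, h2⟩)]
    exact aB B h1' h2
  have bC : ∀ c : Addr, c.1 ≠ s → η₂ 15 c = μ 15 c := by
    intro c hc
    rw [b15, hA₂ c ?_, aC c hc]
    rintro x' _ ⟨b, _, y, _, h⟩
    rw [h] at hc
    exact hc rfl
  rw [← b15]
  have b7 : reg η₂ 7 = N := by show η₂ 7 _ = N; rw [bB 7 (by decide) q7]; exact h7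
  refine loop_fill b7 15 (fun b c => ∃ y < M, c = (s, a, x, b, y)) f ?_
  intro b hb ν₃ hν₃ hA₃
  set η₃ := write ν₃ 22 (0, 0, 0, 0, 0) b with hη₃
  have c15 : η₃ 15 = ν₃ 15 := by rw [hη₃, write_ne (by decide)]
  have c22 : reg η₃ 22 = b := by simp [hη₃]
  have c21 : reg η₃ 21 = x := by
    show η₃ 21 _ = x
    rw [hη₃, write_ne (by decide), hν₃ 21 (by decide) (by
      simp only [Prog.writes, mem_insert, not_or]; exact ⟨by decide, q21⟩)]
    exact b21
  have c20 : reg η₃ 20 = a := by
    show η₃ 20 _ = a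
    rw [hη₃, write_ne (by decide), hν₃ 20 (by decide) (by
      simp only [Prog.writes, mem_insert, not_or]; exact ⟨by decide, q20⟩)]
    exact b20
  have cB : ∀ B, B ∉ ({20, 21, 22, 23} : Finset ℕ) → B ∉ Q.writes → η₃ B = μ B := by
    intro B h1 h2
    have h1' := h1
    simp only [mem_insert, mem_singleton, not_or] at h1
    rw [hη₃, write_ne h1.2.2.1, hν₃ B h1.2.2.1 (by
      simp only [Prog.writes, mem_insert, not_or]; exact ⟨h1.2.2.2, h2⟩)]
    exact bB B h1' h2
  have cC : ∀ c : Addr, c.1 ≠ s → η₃ 15 c = μ 15 c := by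
    intro c hc
    rw [c15, hA₃ c ?_, bC c hc]
    rintro b' _ ⟨y, _, h⟩
    rw [h] at hc
    exact hc rfl
  rw [← c15]
  have c8 : reg η₃ 8 = M := by show η₃ 8 _ = M; rw [cB 8 (by decide) q8]; exact h8
  refine loop_fill c8 15 (fun y c => c = (s, a, x, b, y)) f ?_
  intro y hy ν₄ hν₄ hA₄
  set η₄ := write ν₄ 23 (0, 0, 0, 0, 0) y with hη₄
  have d15 : η₄ 15 = ν₄ 15 := by rw [hη₄, write_ne (by decide)]
  rw [← d15]
  refine hbody a ha x hx b hb y hy η₄ ?_ ?_ ?_ ?_ ?_ ?_
  · intro B h1 h2
    have h1' := h1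
    simp only [mem_insert, mem_singleton, not_or] at h1
    rw [hη₄, write_ne h1.2.2.2, hν₄ B h1.2.2.2 h2]
    exact cB B h1' h2
  · intro c hc
    rw [d15, hA₄ c ?_, cC c hc]
    intro y' _ h
    rw [h] at hc
    exact hc rfl
  · show η₄ 20 _ = a
    rw [hη₄, write_ne (by decide), hν₄ 20 (by decide) q20]
    exact c20
  · show η₄ 21 _ = x
    rw [hη₄, write_ne (by decide), hν₄ 21 (by decide) q21]
    exact c21
  · show η₄ 22 _ = b
    rw [hη₄, write_ne (by decide), hν₄ 22 (by decide) q22]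
    exact c22
  · simp [hη₄]

lemma exec_set15 {μ : Mem} {i j k l m e : Expr} {i' j' k' l' m' v : ℕ} (hi : i.eval μ = i')
    (hj : j.eval μ = j') (hk : k.eval μ = k') (hl : l.eval μ = l') (hm : m.eval μ = m')
    (he : e.eval μ = v) {f : Addr → ℕ} (hv : v = f (i', j', k', l', m')) :
    (Prog.set 15 i j k l m e).exec μ 15 = fill (fun c => c = (i', j', k', l', m')) f (μ 15) := by
  simp only [Prog.exec, hi, hj, hk, hl, hm, he, write_eq]
  exact fill_single _ _ _ _ hv

lemma q9_spec {μ : Mem} {N M p : ℕ} {w δ J : ℕ → ℕ}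
    (h7 : reg μ 7 = N) (h8 : reg μ 8 = M) (h1 : reg μ 1 = p) (hM : M = 2 * p + 1) :
    ∀ a < N, ∀ x < M, ∀ b < N, ∀ y < M,
      q9.exec μ 15 (0, a, x, b, y) = tab p w δ J (0, a, x, b, y) := by
  intro a ha x hx b hb y hy
  have key := nest_spec (Q := .ite (rg 22) (.add (rg 20) e1)
    (.ite (.add (rg 20) e1) (rg 22)
      (.ite (rg 1) (.add (rg 21) (rg 23))
        (.ite (rg 21) (.add (rg 23) (rg 1))
          (.set 15 e0 (rg 20) (rg 21) (rg 22) (rg 23) e1)
          (.set 15 e0 (rg 20) (rg 21) (rg 22) (rg 23) e0))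
        (.set 15 e0 (rg 20) (rg 21) (rg 22) (rg 23) e0))
      (.set 15 e0 (rg 20) (rg 21) (rg 22) (rg 23) e0))
    (.set 15 e0 (rg 20) (rg 21) (rg 22) (rg 23) e0)) (μ := μ) (N := N) (M := M) (s := 0)
    (f := tab p w δ J) h7 h8 (by decide) ?_
  · unfold q9
    rw [key, fill_pos ⟨a, ha, x, hx, b, hb, y, hy, rfl⟩]
  · intro a ha x hx b hb y hy ν hν _ h20 h21 h22 h23
    have k1 : reg ν 1 = p := by
      show ν 1 _ = p
      rw [hν 1 (by decide) (by decide)]; exact h1
    have ev20 : (rg 20).eval ν = a := h20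
    have ev21 : (rg 21).eval ν = x := h21
    have ev22 : (rg 22).eval ν = b := h22
    have ev23 : (rg 23).eval ν = y := h23
    have ev1 : (rg 1).eval ν = p := k1
    have eva : (Expr.add (rg 20) e1).eval ν = a + 1 := by
      show (rg 20).eval ν + 1 = a + 1; rw [ev20]
    have evb : (Expr.add (rg 21) (rg 23)).eval ν = x + y := by
      show (rg 21).eval ν + (rg 23).eval ν = _; rw [ev21, ev23]
    have evc : (Expr.add (rg 23) (rg 1)).eval ν = y + p := by
      show (rg 23).eval ν + (rg 1).eval ν = _; rw [ev23, ev1]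
    have hz : ¬ (b = a + 1 ∧ OK p x y) →
        Prog.exec (.set 15 e0 (rg 20) (rg 21) (rg 22) (rg 23) e0) ν 15
          = fill (fun c => c = (0, a, x, b, y)) (tab p w δ J) (ν 15) := by
      intro h
      refine exec_set15 (i' := 0) (v := 0) rfl ev20 ev21 ev22 ev23 rfl ?_
      unfold tab
      simp only
      rw [costs_zero p w δ J a x b y (by omega) (by omega), if_neg h, optv_empty]
    by_cases g1 : b ≤ a + 1
    · rw [ite_pos (by rw [ev22, eva]; exact g1)]
      by_cases g2 : a + 1 ≤ b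
      · rw [ite_pos (by rw [ev22, eva]; exact g2)]
        by_cases g3 : p ≤ x + y
        · rw [ite_pos (by rw [ev1, evb]; exact g3)]
          by_cases g4 : x ≤ y + p
          · rw [ite_pos (by rw [ev21, evc]; exact g4)]
            refine exec_set15 (i' := 0) (v := 1) rfl ev20 ev21 ev22 ev23 rfl ?_
            unfold tab
            simp only
            rw [costs_zero p w δ J a x b y (by omega) (by omega),
              if_pos ⟨by omega, g3, g4⟩, optv_eq (c := 0) (by
                exact isLeast_singleton)]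
          · rw [ite_neg (by rw [ev21, evc]; exact g4)]
            exact hz (fun h => g4 h.2.2)
        · rw [ite_neg (by rw [ev1, evb]; exact g3)]
          exact hz (fun h => g3 h.2.1)
      · rw [ite_neg (by rw [ev22, eva]; exact g2)]
        exact hz (fun h => g2 (by omega))
    · rw [ite_neg (by rw [ev22, eva]; exact g1)]
      exact hz (fun h => g1 (by omega))

lemma q10cell_spec {n N M p s a x b y : ℕ} {w δ J : ℕ → ℕ} {ν : Mem}
    (hJ : Set.InjOn J (range n : Set ℕ)) (hJn : ∀ s < n, J s < n)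
    (hw : ∀ s t, s ≤ t → t < n → w (J t) ≤ w (J s)) (hs : s < n)
    (hM : M = 2 * p + 1) (ha : a < N) (hx : x < M) (hb : b < N) (hy : y < M)
    (h7 : reg ν 7 = N) (h8 : reg ν 8 = M) (h19 : reg ν 19 = s) (h18 : reg ν 18 = J s)
    (h20 : reg ν 20 = a) (h21 : reg ν 21 = x) (h22 : reg ν 22 = b) (h23 : reg ν 23 = y)
    (h10 : ∀ a < N, ∀ x < M, ν 10 (a, x, 0, 0, 0) = lim p a x)
    (h11 : ∀ j < n, ν 11 (j, 0, 0, 0, 0) = δ j)
    (h14 : ∀ j < n, ∀ r < N, ∀ z < M, ν 14 (j, r, z, 0, 0) = w j * ((r * p + z) - δ j))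
    (h15 : ∀ a < N, ∀ x < M, ∀ b < N, ∀ y < M,
      ν 15 (s, a, x, b, y) = tab p w δ J (s, a, x, b, y)) :
    q10cell.exec ν 15 = fill (fun c => c = (s + 1, a, x, b, y)) (tab p w δ J) (ν 15) := by
  have ev20 : (rg 20).eval ν = a := h20
  have ev21 : (rg 21).eval ν = x := h21
  have ev22 : (rg 22).eval ν = b := h22
  have ev23 : (rg 23).eval ν = y := h23
  have ev19 : (rg 19).eval ν = s := h19
  have ev18 : (rg 18).eval ν = J s := h18
  have evs : (Expr.add (rg 19) e1).eval ν = s + 1 := by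
    show (rg 19).eval ν + 1 = s + 1; rw [ev19]
  have evLa : (g2 10 (rg 20) (rg 21)).eval ν = lim p a x := by
    show ν 10 ((rg 20).eval ν, (rg 21).eval ν, 0, 0, 0) = _
    rw [ev20, ev21]; exact h10 a ha x hx
  have evLb : (g2 10 (rg 22) (rg 23)).eval ν = lim p b y := by
    show ν 10 ((rg 22).eval ν, (rg 23).eval ν, 0, 0, 0) = _
    rw [ev22, ev23]; exact h10 b hb y hy
  have evd : (g1 11 (rg 18)).eval ν = δ (J s) := by
    show ν 11 ((rg 18).eval ν, 0, 0, 0, 0) = _
    rw [ev18]; exact h11 _ (hJn s hs)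
  have evd1 : (Expr.add (g1 11 (rg 18)) e1).eval ν = δ (J s) + 1 := by
    show (g1 11 (rg 18)).eval ν + 1 = _; rw [evd]
  have evM : (Expr.get 15 (rg 19) (rg 20) (rg 21) (rg 22) (rg 23)).eval ν
      = tab p w δ J (s, a, x, b, y) := by
    show ν 15 ((rg 19).eval ν, (rg 20).eval ν, (rg 21).eval ν, (rg 22).eval ν, (rg 23).eval ν) = _
    rw [ev19, ev20, ev21, ev22, ev23]; exact h15 a ha x hx b hb y hy
  have hcopy : ¬ (lim p a x < δ (J s) + 1 ∧ δ (J s) + 1 ≤ lim p b y) →
      q10copy.exec ν 15 = fill (fun c => c = (s + 1, a, x, b, y)) (tab p w δ J) (ν 15) := by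
    intro h
    refine exec_set15 evs ev20 ev21 ev22 ev23 evM ?_
    unfold tab
    simp only
    rw [costs_skip p w δ J s a x b y h]
  unfold q10cell
  by_cases g1 : lim p a x ≤ δ (J s)
  · rw [ite_pos (by rw [evLa, evd]; exact g1)]
    by_cases g2 : δ (J s) + 1 ≤ lim p b y
    · rw [ite_pos (by rw [evLb, evd1]; exact g2)]
      have hmin := q10min_spec (μ := ν) (m1 := fun r z => tab p w δ J (s, a, x, r, z))
        (m2 := fun r z => tab p w δ J (s, r, z, b, y))
        (g := fun r z => w (J s) * ((r * p + z) - δ (J s)))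
        h7 h8 h19 h20 h21 h22 h23 h18
        (fun r hr z hz => h15 a ha x hx r hr z hz) (fun r hr z hz => h15 r hr z hz b hb y hy)
        (fun r hr z hz => h14 _ (hJn s hs) r hr z hz)
      have hval := min_eq_tab hJ hw hs hM hb ⟨by omega, g2⟩ hmin
      show Prog.exec _ (q10min.exec ν) 15 = _
      set ν' := q10min.exec ν with hν'
      have fr : ∀ B, B ∉ q10min.writes → ν' B = ν B := fun B hB => frame _ _ _ hB
      have f15 : ν' 15 = ν 15 := fr 15 (by decide)
      rw [← f15]
      have fv : ∀ v, v ∉ q10min.writes → (rg v).eval ν' = (rg v).eval ν := by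
        intro v hv
        show ν' v _ = ν v _
        rw [fr v hv]; rfl
      refine exec_set15 (v := reg ν' 17) ?_ ?_ ?_ ?_ ?_ rfl hval
      · show (rg 19).eval ν' + 1 = _
        rw [fv 19 (by decide), ev19]
      · rw [fv 20 (by decide), ev20]
      · rw [fv 21 (by decide), ev21]
      · rw [fv 22 (by decide), ev22]
      · rw [fv 23 (by decide), ev23]
    · rw [ite_neg (by rw [evLb, evd1]; exact g2)]
      exact hcopy (fun h => g2 h.2)
  · rw [ite_neg (by rw [evLa, evd]; exact g1)]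
    exact hcopy (fun h => g1 (by omega))

lemma q10_spec {n N M p : ℕ} {w δ J : ℕ → ℕ} {μ : Mem}
    (hJ : Set.InjOn J (range n : Set ℕ)) (hJn : ∀ s < n, J s < n)
    (hw : ∀ s t, s ≤ t → t < n → w (J t) ≤ w (J s))
    (hM : M = 2 * p + 1) (h0 : reg μ 0 = n) (h7 : reg μ 7 = N) (h8 : reg μ 8 = M)
    (h13 : ∀ s < n, μ 13 (s, 0, 0, 0, 0) = J s)
    (h10 : ∀ a < N, ∀ x < M, μ 10 (a, x, 0, 0, 0) = lim p a x)
    (h11 : ∀ j < n, μ 11 (j, 0, 0, 0, 0) = δ j)
    (h14 : ∀ j < n, ∀ r < N, ∀ z < M, μ 14 (j, r, z, 0, 0) = w j * ((r * p + z) - δ j))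
    (h15 : ∀ a < N, ∀ x < M, ∀ b < N, ∀ y < M,
      μ 15 (0, a, x, b, y) = tab p w δ J (0, a, x, b, y)) :
    ∀ a < N, ∀ x < M, ∀ b < N, ∀ y < M,
      q10.exec μ 15 (n, a, x, b, y) = tab p w δ J (n, a, x, b, y) := by
  refine loop_inv h0 (fun s ν => ∀ a < N, ∀ x < M, ∀ b < N, ∀ y < M,
      ν 15 (s, a, x, b, y) = tab p w δ J (s, a, x, b, y)) h15 ?_
  intro s hs ν hν hI a ha x hx b hb y hy
  set ν' := write ν 19 (0, 0, 0, 0, 0) s with hν'
  set η := Prog.exec (sr 18 (g1 13 (rg 19))) ν' with hη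
  have ev19 : (rg 19).eval ν' = s := by
    simp only [Expr.eval, hν']
    simp [write]
  have e13 : (g1 13 (rg 19)).eval ν' = J s := by
    show ν' 13 ((rg 19).eval ν', 0, 0, 0, 0) = _
    rw [ev19, hν', write_ne (by decide), hν 13 (by decide) (by decide)]
    exact h13 s hs
  have k18 : reg η 18 = J s := by
    show write _ _ _ _ _ _ = _
    rw [e13]
    simp [write, Expr.eval]
  have fη : ∀ B, B ≠ 18 → B ≠ 19 → η B = ν B := by
    intro B h1 h2
    rw [hη]
    show write _ _ _ _ B = _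
    rw [write_ne h1, hν', write_ne h2]
  have fη' : ∀ B, B ≠ 18 → B ≠ 19 → B ∉ Prog.writes (.seq (sr 18 (g1 13 (rg 19))) (nest q10cell)) →
      η B = μ B := by
    intro B h1 h2 h3
    rw [fη B h1 h2, hν B h2 h3]
  have k19 : reg η 19 = s := by
    show write _ _ _ _ _ _ = _
    rw [write_ne (by decide)]
    exact ev19
  have k7 : reg η 7 = N := by
    show η 7 _ = N
    rw [fη' 7 (by decide) (by decide) (by decide)]; exact h7
  have k8 : reg η 8 = M := by
    show η 8 _ = M
    rw [fη' 8 (by decide) (by decide) (by decide)]; exact h8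
  have key := nest_spec (Q := q10cell) (μ := η) (s := s + 1) (f := tab p w δ J) k7 k8
    (by decide) ?_
  · show (nest q10cell).exec η 15 _ = _
    rw [key, fill_pos ⟨a, ha, x, hx, b, hb, y, hy, rfl⟩]
  · intro a ha x hx b hb y hy θ hθ hθ15 g20 g21 g22 g23
    refine q10cell_spec hJ hJn hw hs hM ha hx hb hy ?_ ?_ ?_ ?_ g20 g21 g22 g23 ?_ ?_ ?_ ?_
    · show θ 7 _ = N
      rw [hθ 7 (by decide) (by decide)]; exact k7
    · show θ 8 _ = M
      rw [hθ 8 (by decide) (by decide)]; exact k8
    · show θ 19 _ = s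
      rw [hθ 19 (by decide) (by decide)]; exact k19
    · show θ 18 _ = J s
      rw [hθ 18 (by decide) (by decide)]; exact k18
    · intro a ha x hx
      rw [hθ 10 (by decide) (by decide), fη' 10 (by decide) (by decide) (by decide)]
      exact h10 a ha x hx
    · intro j hj
      rw [hθ 11 (by decide) (by decide), fη' 11 (by decide) (by decide) (by decide)]
      exact h11 j hj
    · intro j hj r hr z hz
      rw [hθ 14 (by decide) (by decide), fη' 14 (by decide) (by decide) (by decide)]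
      exact h14 j hj r hr z hz
    · intro a ha x hx b hb y hy
      rw [hθ15 _ (by simp), fη 15 (by decide) (by decide)]
      exact hI a ha x hx b hb y hy

lemma q11_spec {μ : Mem} {n p K v : ℕ} (h0 : reg μ 0 = n) (h1 : reg μ 1 = p) (h2 : reg μ 2 = K)
    (h15 : μ 15 (n, 0, 0, n + 1, 2 * p) = v + 1) :
    reg (q11.exec μ) 6 = v ∧ reg (q11.exec μ) 5 = if v ≤ 2 * K then 1 else 0 := by
  have ev : (Expr.sub (.get 15 (rg 0) e0 e0 (.add (rg 0) e1) (.add (rg 1) (rg 1))) e1).eval μ
      = v := by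
    show μ 15 ((rg 0).eval μ, 0, 0, (rg 0).eval μ + 1, (rg 1).eval μ + (rg 1).eval μ) - 1 = v
    have e0' : (rg 0).eval μ = n := h0
    have e1' : (rg 1).eval μ = p := h1
    rw [e0', e1', ← two_mul, h15]; rfl
  set μ' := Prog.exec (sr 6 (.sub (.get 15 (rg 0) e0 e0 (.add (rg 0) e1) (.add (rg 1) (rg 1))) e1)) μ
    with hμ'
  have k6 : reg μ' 6 = v := by
    show write _ _ _ _ _ _ = _
    rw [ev]
    simp [write, Expr.eval]
  have k2 : reg μ' 2 = K := by
    show μ' 2 _ = K
    rw [hμ', frame _ _ _ (by decide)]; exact h2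
  have hex : q11.exec μ = Prog.exec (.ite (rg 6) (.add (rg 2) (rg 2)) (sr 5 e1) (sr 5 e0)) μ' := rfl
  rw [hex]
  have e6 : (rg 6).eval μ' = v := k6
  have e2 : (Expr.add (rg 2) (rg 2)).eval μ' = 2 * K := by
    show (rg 2).eval μ' + (rg 2).eval μ' = _
    have : (rg 2).eval μ' = K := k2
    rw [this]; ring
  by_cases h : v ≤ 2 * K
  · rw [ite_pos (by rw [e6, e2]; exact h), if_pos h]
    constructor
    · show write _ _ _ _ _ _ = _
      rw [write_ne (by decide)]; exact k6
    · show write _ _ _ _ _ _ = _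
      simp [write, Expr.eval]
  · rw [ite_neg (by rw [e6, e2]; exact h), if_neg h]
    constructor
    · show write _ _ _ _ _ _ = _
      rw [write_ne (by decide)]; exact k6
    · show write _ _ _ _ _ _ = _
      simp [write, Expr.eval]

end Pool.Agent.helper80.Sched
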